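import Mathlib

/-!
# PENT (MP_892e4c_nt): definitions for the sums of `f` in progressions (helper8)
-/

set_option autoImplicit false

namespace Pool.Agent.PENT

/-- `h` depends only on `s, t` modulo `m` -/
def Per (m : ℕ) (h : ℤ → ℤ → ℝ) : Prop :=
  ∀ s t s' t' : ℤ, (m : ℤ) ∣ s - s' → (m : ℤ) ∣ t - t' → h s t = h s' t'

/-- the average over the residues modulo `m` -/
noncomputable def av (m : ℕ) (h : ℤ → ℤ → ℝ) : ℝ :=
  (∑ a ∈ Finset.range m, ∑ b ∈ Finset.range m, h (a : ℤ) (b : ℤ)) / (m : ℝ) ^ 2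

/-- the indicator of `m ∣ s² + t² - r` -/
noncomputable def sqi (m : ℕ) (r : ℤ) (s t : ℤ) : ℝ := if (m : ℤ) ∣ s ^ 2 + t ^ 2 - r then 1 else 0

/-- squarefree, all prime factors `= 1 mod 4` and `> P` -/
def DP (P : ℝ) (d : ℕ) : Prop :=
  Squarefree d ∧ ∀ p : ℕ, p.Prime → p ∣ d → p % 4 = 1 ∧ P < (p : ℝ)

open Classical in
/-- the weight `(2 α)^ω(d)` on `DP` -/
noncomputable def fw (P α : ℝ) (d : ℕ) : ℝ :=
  if DP P d then (2 * α) ^ d.primeFactors.card else 0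

/-- the sum of `1/p` over the primes `p ≤ z`, `p = 1 mod 4` -/
noncomputable def s14 (z : ℝ) : ℝ :=
  ∑ p ∈ (Finset.Icc 1 ⌊z⌋₊).filter (fun p => p.Prime ∧ p % 4 = 1), 1 / (p : ℝ)

end Pool.Agent.PENT
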