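import Pool.Agent.Lib_helper8.PENT.Sieve
import Pool.Agent.Lib_helper68.LEV.MRT

/-!
# PENT: the two-sided Brun-Hooley sieve, final forms (helper8)
-/

set_option autoImplicit false

namespace Pool.Agent.PENT

open Finset

/-- the level of `p` with respect to `Y`: `p ^ (2 ^ lev) ≤ Y < p ^ (2 ^ (lev + 1))` -/
def lev (Y p : ℕ) : ℕ := Nat.log 2 (Nat.log p Y)

theorem pow_lev_le {Y p : ℕ} (hp : 2 ≤ p) (hpY : p ≤ Y) : p ^ (2 ^ lev Y p) ≤ Y := by
  have hY : Y ≠ 0 := by omega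
  have h1 : Nat.log p Y ≠ 0 := (Nat.log_pos (by omega) hpY).ne'
  have h2 : 2 ^ lev Y p ≤ Nat.log p Y := Nat.pow_log_le_self 2 h1
  exact (Nat.pow_le_pow_right (by omega) h2).trans (Nat.pow_log_le_self p hY)

theorem lt_pow_lev {Y p : ℕ} (hp : 2 ≤ p) : Y < p ^ (2 ^ (lev Y p + 1)) := by
  have h2 : Nat.log p Y < 2 ^ (lev Y p + 1) := Nat.lt_pow_succ_log_self (by norm_num) _
  exact (Nat.lt_pow_succ_log_self (by omega) Y).trans_le
    (Nat.pow_le_pow_right (by omega) (by omega))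

theorem sum_levels (m J : ℕ) :
    ∑ j ∈ Finset.range J, (2 * (m + j) + 1 : ℝ) / 2 ^ j = 4 * m + 6 - (4 * J + 4 * m + 6) / 2 ^ J := by
  induction J with
  | zero => simp
  | succ J ih =>
    rw [Finset.sum_range_succ, ih, pow_succ]
    have : (2 : ℝ) ^ J ≠ 0 := by positivity
    push_cast
    field_simp
    ring

/-- the support condition bounds the product -/
theorem prod_le_of_levels {ι : Type*} (N : ι → ℕ) (l : ι → ℕ) (Y m : ℕ) (hY1 : 1 ≤ Y)
    (T : Finset ι) (h2 : ∀ p ∈ T, 2 ≤ N p) (hY : ∀ p ∈ T, N p ^ (2 ^ l p) ≤ Y)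
    (hc : ∀ j, (lvl l j T).card ≤ 2 * (m + j) + 1) : ∏ p ∈ T, N p ≤ Y ^ (4 * m + 6) := by
  have hY0 : (0 : ℝ) < Y := by exact_mod_cast hY1
  have hlY : 0 ≤ Real.log Y := Real.log_nonneg (by exact_mod_cast hY1)
  set J := T.sup l + 1 with hJ
  have hl : ∀ p ∈ T, l p ∈ Finset.range J := fun p hp => by
    rw [Finset.mem_range, hJ]
    exact Nat.lt_succ_of_le (Finset.le_sup hp)
  have h1 : ∑ p ∈ T, Real.log (N p) ≤ ∑ p ∈ T, Real.log Y / 2 ^ l p := by
    apply Finset.sum_le_sum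
    intro p hp
    have e := hY p hp
    have hN : (0 : ℝ) < N p := by
      have := h2 p hp
      exact_mod_cast (show 0 < N p by omega)
    have e' : (N p : ℝ) ^ (2 ^ l p) ≤ Y := by exact_mod_cast e
    have e2 := Real.log_le_log (by positivity) e'
    rw [Real.log_pow] at e2
    rw [le_div_iff₀ (by positivity)]
    push_cast at e2
    linarith
  have h3 : ∑ p ∈ T, Real.log Y / 2 ^ l p =
      ∑ j ∈ Finset.range J, ∑ p ∈ T.filter (fun p => l p = j), Real.log Y / 2 ^ l p :=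
    (Finset.sum_fiberwise_of_maps_to hl _).symm
  have h4 : ∑ j ∈ Finset.range J, ∑ p ∈ T.filter (fun p => l p = j), Real.log Y / 2 ^ l p ≤
      ∑ j ∈ Finset.range J, (2 * (m + j) + 1 : ℝ) / 2 ^ j * Real.log Y := by
    apply Finset.sum_le_sum
    intro j _
    have e : ∑ p ∈ T.filter (fun p => l p = j), Real.log Y / 2 ^ l p =
        ∑ p ∈ T.filter (fun p => l p = j), Real.log Y / 2 ^ j :=
      Finset.sum_congr rfl fun p hp => by rw [(Finset.mem_filter.1 hp).2]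
    rw [e, Finset.sum_const, nsmul_eq_mul]
    have e2 : ((T.filter (fun p => l p = j)).card : ℝ) ≤ 2 * (m + j) + 1 := by
      exact_mod_cast hc j
    calc _ ≤ (2 * (m + j) + 1 : ℝ) * (Real.log Y / 2 ^ j) :=
          mul_le_mul_of_nonneg_right e2 (by positivity)
      _ = _ := by ring
  rw [← Finset.sum_mul, sum_levels] at h4
  have h5 : (4 * m + 6 - (4 * J + 4 * m + 6) / 2 ^ J : ℝ) * Real.log Y ≤
      (4 * m + 6) * Real.log Y := by
    apply mul_le_mul_of_nonneg_right _ hlY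
    have : (0 : ℝ) ≤ (4 * J + 4 * m + 6) / 2 ^ J := by positivity
    linarith
  have h6 : Real.log ((∏ p ∈ T, N p : ℕ) : ℝ) ≤ Real.log ((Y : ℝ) ^ (4 * m + 6)) := by
    rw [Nat.cast_prod, Real.log_prod (fun p hp => by
      have := h2 p hp
      exact_mod_cast (show N p ≠ 0 by omega)), Real.log_pow]
    push_cast
    push_cast at h4 h5
    linarith
  have h7 : (0 : ℝ) < ((∏ p ∈ T, N p : ℕ) : ℝ) := by
    exact_mod_cast Finset.prod_pos fun p hp => by
      have := h2 p hp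
      omega
  have h8 := (Real.log_le_log_iff h7 (by positivity)).1 h6
  exact_mod_cast h8

/-- replacing the family by its model inside a multilinear polynomial -/
theorem transfer {O ι : Type*} (F : Finset O) (W : O → ℝ) (x : O → ι → ℝ) (S : Finset ι)
    (g : ι → ℝ) (X : ℝ) (c : Finset ι → ℝ) (hc : ∀ T, |c T| ≤ 1) (P : Finset ι → Prop)
    [DecidablePred P] (hP : ∀ T ⊆ S, c T ≠ 0 → P T) (R : Finset ι → ℝ)
    (hR : ∀ T ⊆ S, P T → |∑ o ∈ F, W o * ∏ p ∈ T, x o p - X * ∏ p ∈ T, g p| ≤ R T) :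
    |∑ o ∈ F, W o * mp c S (x o) - X * mp c S g| ≤ ∑ T ∈ S.powerset.filter P, R T := by
  have e : ∑ o ∈ F, W o * mp c S (x o) - X * mp c S g =
      ∑ T ∈ S.powerset, c T * (∑ o ∈ F, W o * ∏ p ∈ T, x o p - X * ∏ p ∈ T, g p) := by
    have e1 : ∑ o ∈ F, W o * mp c S (x o) =
        ∑ T ∈ S.powerset, c T * ∑ o ∈ F, W o * ∏ p ∈ T, x o p := by
      unfold mp
      simp_rw [Finset.mul_sum]
      rw [Finset.sum_comm]
      apply Finset.sum_congr rfl
      intro T _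
      apply Finset.sum_congr rfl
      intro o _
      ring
    have e2 : X * mp c S g = ∑ T ∈ S.powerset, c T * (X * ∏ p ∈ T, g p) := by
      unfold mp
      rw [Finset.mul_sum]
      apply Finset.sum_congr rfl
      intro T _
      ring
    rw [e1, e2, ← Finset.sum_sub_distrib]
    apply Finset.sum_congr rfl
    intro T _
    ring
  rw [e]
  calc _ ≤ ∑ T ∈ S.powerset, |c T * (∑ o ∈ F, W o * ∏ p ∈ T, x o p - X * ∏ p ∈ T, g p)| :=
        Finset.abs_sum_le_sum_abs _ _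
    _ = ∑ T ∈ S.powerset.filter P,
        |c T * (∑ o ∈ F, W o * ∏ p ∈ T, x o p - X * ∏ p ∈ T, g p)| := by
        rw [Finset.sum_filter]
        apply Finset.sum_congr rfl
        intro T hT
        split_ifs with h
        · rfl
        · have : c T = 0 := by
            by_contra h1
            exact h (hP T (Finset.mem_powerset.1 hT) h1)
          rw [this, zero_mul, abs_zero]
    _ ≤ _ := by
        apply Finset.sum_le_sum
        intro T hT
        obtain ⟨h1, h2⟩ := Finset.mem_filter.1 hT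
        rw [abs_mul]
        calc _ ≤ 1 * |∑ o ∈ F, W o * ∏ p ∈ T, x o p - X * ∏ p ∈ T, g p| :=
              mul_le_mul_of_nonneg_right (hc T) (abs_nonneg _)
          _ ≤ _ := by
              rw [one_mul]
              exact hR T (Finset.mem_powerset.1 h1) h2

/-- **the two-sided Brun-Hooley sieve**, sharp form: relative error `δ`, level `Y ^ k(K, δ)` -/
theorem brun_hooley_sharp (K δ : ℝ) (hK : 1 ≤ K) (hδ : 0 < δ) (hδ1 : δ ≤ 1) : ∃ k : ℕ, ∀ (O ι : Type) [DecidableEq ι]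
    (F : Finset O) (W : O → ℝ) (x : O → ι → ℝ) (S : Finset ι) (N : ι → ℕ) (Y : ℕ) (g : ι → ℝ)
    (X : ℝ) (R : Finset ι → ℝ), 1 ≤ Y → (∀ o ∈ F, 0 ≤ W o) →
    (∀ o ∈ F, ∀ p ∈ S, 0 ≤ x o p ∧ x o p ≤ 1) → (∀ p ∈ S, 2 ≤ N p ∧ N p ≤ Y) →
    (∀ p ∈ S, 0 ≤ g p ∧ g p ≤ 1 - 1 / K) →
    (∀ j, ∑ p ∈ S.filter (fun p => lev Y (N p) = j), g p ≤ K) → 0 ≤ X →
    (∀ T ⊆ S, ∏ p ∈ T, N p ≤ Y ^ k →
      |∑ o ∈ F, W o * ∏ p ∈ T, x o p - X * ∏ p ∈ T, g p| ≤ R T) →
    (1 - δ) * (X * ∏ p ∈ S, (1 - g p)) -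
        ∑ T ∈ S.powerset.filter (fun T => ∏ p ∈ T, N p ≤ Y ^ k), R T ≤
      ∑ o ∈ F, W o * ∏ p ∈ S, (1 - x o p) ∧
    ∑ o ∈ F, W o * ∏ p ∈ S, (1 - x o p) ≤
      (1 + δ) * (X * ∏ p ∈ S, (1 - g p)) +
        ∑ T ∈ S.powerset.filter (fun T => ∏ p ∈ T, N p ≤ Y ^ k), R T := by
  obtain ⟨m, hm'⟩ := exists_eps K (δ / 4) hK (by linarith)
  have hm : ∀ J : ℕ, ∑ j ∈ Finset.range J, eps K m j ≤ 1 / 4 := fun J => by
    have := hm' J
    linarith
  refine ⟨4 * m + 6, ?_⟩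
  intro O ι _ F W x S N Y g X R hY1 hW hx hN hg hs hX hR
  set l : ι → ℕ := fun p => lev Y (N p) with hl
  set J := S.sup l + 1 with hJ
  have hblw : blw l J S = S := by
    unfold blw
    rw [Finset.filter_true_of_mem]
    intro p hp
    rw [hJ]
    exact Nat.lt_succ_of_le (Finset.le_sup hp)
  have hsup : ∀ T ⊆ S, (∀ j < J, (lvl l j T).card ≤ 2 * (m + j) + 1) →
      ∏ p ∈ T, N p ≤ Y ^ (4 * m + 6) := by
    intro T hT hc
    refine prod_le_of_levels N l Y m hY1 T (fun p hp => (hN p (hT hp)).1)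
      (fun p hp => pow_lev_le (hN p (hT hp)).1 (hN p (hT hp)).2) (fun j => ?_)
    by_cases hj : j < J
    · exact hc j hj
    · have : lvl l j T = ∅ := by
        unfold lvl
        rw [Finset.filter_eq_empty_iff]
        intro p hp h
        have := Finset.le_sup (f := l) (hT hp)
        omega
      rw [this]
      simp
  have hs' : ∀ j, ∑ p ∈ lvl l j S, g p ≤ K := hs
  obtain ⟨mU, mL⟩ := main_terms hK l m hm S g hg hs' J
  have hE := hm' J
  have hE0 : 0 ≤ ∑ j ∈ Finset.range J, eps K m j :=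
    Finset.sum_nonneg fun j _ => eps_nonneg hK m j
  have hg' : ∀ p ∈ S, 0 ≤ g p ∧ g p ≤ 1 := fun p hp =>
    ⟨(hg p hp).1, (hg p hp).2.trans (by
      have : 0 ≤ 1 / K := by positivity
      linarith)⟩
  have hP : 0 ≤ ∏ p ∈ S, (1 - g p) := Finset.prod_nonneg fun p hp => by
    have := (hg' p hp).2
    linarith
  rw [hblw] at mU mL
  have tU := transfer F W x S g X (cU l m J) (abs_cU_le l m J)
    (fun T => ∏ p ∈ T, N p ≤ Y ^ (4 * m + 6)) (fun T hT h => hsup T hT (cU_supp l m J T h)) R hR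
  have tL := transfer F W x S g X (cL l m J) (abs_cL_le l m J)
    (fun T => ∏ p ∈ T, N p ≤ Y ^ (4 * m + 6)) (fun T hT h => hsup T hT (cL_supp l m J T h)) R hR
  rw [abs_le] at tU tL
  have pU : ∑ o ∈ F, W o * ∏ p ∈ S, (1 - x o p) ≤ ∑ o ∈ F, W o * mp (cU l m J) S (x o) := by
    apply Finset.sum_le_sum
    intro o ho
    apply mul_le_mul_of_nonneg_left _ (hW o ho)
    have := (pointwise l m S (x o) (hx o ho) J).2
    rwa [hblw] at this
  have pL : ∑ o ∈ F, W o * mp (cL l m J) S (x o) ≤ ∑ o ∈ F, W o * ∏ p ∈ S, (1 - x o p) := by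
    apply Finset.sum_le_sum
    intro o ho
    apply mul_le_mul_of_nonneg_left _ (hW o ho)
    have := (pointwise l m S (x o) (hx o ho) J).1
    rwa [hblw] at this
  have hexp : Real.exp (∑ j ∈ Finset.range J, eps K m j) ≤ 1 + δ := by
    have h10 : Real.exp (∑ j ∈ Finset.range J, eps K m j) ≤ Real.exp (δ / 4) :=
      Real.exp_le_exp.2 hE
    have h11 := Real.add_one_le_exp (-(δ / 4))
    rw [Real.exp_neg] at h11
    have h12 : 0 < 1 - δ / 4 := by linarith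
    have h13 : Real.exp (δ / 4) ≤ 1 / (1 - δ / 4) := by
      rw [le_div_iff₀ h12]
      have h14 := Real.exp_pos (δ / 4)
      have h15 := mul_le_mul_of_nonneg_left h11 h14.le
      rw [mul_inv_cancel₀ h14.ne'] at h15
      linarith
    have h16 : 1 / (1 - δ / 4) ≤ 1 + δ := by
      rw [div_le_iff₀ h12]
      nlinarith
    linarith
  constructor
  · have h1 : (1 - δ) * ∏ p ∈ S, (1 - g p) ≤ mp (cL l m J) S g :=
      (mul_le_mul_of_nonneg_right (by linarith) hP).trans mL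
    have h2 := mul_le_mul_of_nonneg_left h1 hX
    linarith [tL.1]
  · have h1 : mp (cU l m J) S g ≤ (1 + δ) * ∏ p ∈ S, (1 - g p) :=
      mU.trans (mul_le_mul_of_nonneg_right hexp hP)
    have h2 := mul_le_mul_of_nonneg_left h1 hX
    linarith [tU.2]

/-! ### primes -/

/-- the number of sets of primes with product at most `Z` is at most `Z` -/
theorem card_sets_le (S : Finset ℕ) (hS : ∀ p ∈ S, p.Prime) (Z : ℕ) :
    (S.powerset.filter (fun T => ∏ p ∈ T, p ≤ Z)).card ≤ Z := by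
  have h1 : (S.powerset.filter (fun T => ∏ p ∈ T, p ≤ Z)).card ≤ (Finset.Icc 1 Z).card := by
    apply Finset.card_le_card_of_injOn (fun T => ∏ p ∈ T, p)
    · intro T hT
      obtain ⟨h1, h2⟩ := Finset.mem_filter.1 hT
      simp only [Finset.coe_Icc, Set.mem_Icc]
      exact ⟨Finset.prod_pos fun p hp => (hS p (Finset.mem_powerset.1 h1 hp)).pos, h2⟩
    · intro T hT T' hT' h
      have k : ∀ U ∈ S.powerset.filter (fun T => ∏ p ∈ T, p ≤ Z),
          (∏ p ∈ U, p).primeFactors = U := by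
        intro U hU
        obtain ⟨h1, _⟩ := Finset.mem_filter.1 hU
        exact Nat.primeFactors_prod fun p hp => hS p (Finset.mem_powerset.1 h1 hp)
      rw [← k T hT, ← k T' hT']
      simp only at h
      rw [h]
  simpa using h1

/-- Mertens on a level -/
theorem level_mertens : ∃ C : ℝ, 1 ≤ C ∧ ∀ (S : Finset ℕ) (Y : ℕ), (∀ p ∈ S, p.Prime ∧ p ≤ Y) →
    ∀ j, ∑ p ∈ S.filter (fun p => lev Y p = j), 1 / (p : ℝ) ≤ C := by
  obtain ⟨C, hC⟩ := Pool.Agent.LEV.mertens_two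
  have hC0 : 0 ≤ C := (abs_nonneg _).trans (hC 2 le_rfl)
  refine ⟨2 * C + 2, by linarith, fun S Y hS j => ?_⟩
  set A := S.filter (fun p => lev Y p = j) with hA
  rcases A.eq_empty_or_nonempty with h0 | hne
  · rw [h0]
    simp only [Finset.sum_empty]
    linarith
  set q := A.min' hne with hq
  have hqA : q ∈ A := A.min'_mem hne
  have hqS : q ∈ S := (Finset.mem_filter.1 hqA).1
  have hqj : lev Y q = j := (Finset.mem_filter.1 hqA).2
  have hqp : q.Prime := (hS q hqS).1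
  have h2 : ∀ p ∈ A, p < q ^ 2 := by
    intro p hp
    obtain ⟨h3, h4⟩ := Finset.mem_filter.1 hp
    have h5 := pow_lev_le (hS p h3).1.two_le (hS p h3).2
    have h6 := lt_pow_lev (Y := Y) hqp.two_le
    rw [h4] at h5
    rw [hqj, pow_succ 2 j, mul_comm (2 ^ j) 2, pow_mul] at h6
    exact lt_of_pow_lt_pow_left₀ _ (Nat.zero_le _) (h5.trans_lt h6)
  have hq2 : (2 : ℝ) ≤ q := by exact_mod_cast hqp.two_le
  have hsub : A ⊆ insert q (((Finset.Icc 1 (q ^ 2)).filter Nat.Prime) \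
      ((Finset.Icc 1 q).filter Nat.Prime)) := by
    intro p hp
    obtain ⟨h3, _⟩ := Finset.mem_filter.1 hp
    have h5 := (hS p h3).1
    have h6 := h2 p hp
    have h7 : q ≤ p := A.min'_le p hp
    simp only [Finset.mem_insert, Finset.mem_sdiff, Finset.mem_filter, Finset.mem_Icc]
    rcases h7.eq_or_lt with h8 | h8
    · exact Or.inl h8.symm
    · exact Or.inr ⟨⟨⟨h5.one_lt.le, h6.le⟩, h5⟩, fun h9 => by omega⟩
  have h3 := Finset.sum_le_sum_of_subset_of_nonneg (f := fun p : ℕ => 1 / (p : ℝ)) hsub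
    (fun p _ _ => by positivity)
  have hss : (Finset.Icc 1 q).filter Nat.Prime ⊆ (Finset.Icc 1 (q ^ 2)).filter Nat.Prime := by
    apply Finset.filter_subset_filter
    apply Finset.Icc_subset_Icc le_rfl
    nlinarith [hqp.two_le]
  have hqn : q ∉ ((Finset.Icc 1 (q ^ 2)).filter Nat.Prime) \
      ((Finset.Icc 1 q).filter Nat.Prime) := by
    simp only [Finset.mem_sdiff, Finset.mem_filter, Finset.mem_Icc, not_and]
    intro _ h
    exact h ⟨hqp.one_lt.le, le_rfl⟩ hqp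
  rw [Finset.sum_insert hqn] at h3
  have h4 := Finset.sum_sdiff (f := fun p : ℕ => 1 / (p : ℝ)) hss
  have h5 := hC (q : ℝ) hq2
  have h6 := hC ((q ^ 2 : ℕ) : ℝ) (by
    push_cast
    nlinarith)
  rw [Nat.floor_natCast] at h5 h6
  have h7 : Real.log (Real.log ((q ^ 2 : ℕ) : ℝ)) = Real.log 2 + Real.log (Real.log q) := by
    have hlq : 0 < Real.log q := Real.log_pos (by linarith)
    rw [Nat.cast_pow, Real.log_pow, Real.log_mul (by norm_num) hlq.ne']
    norm_num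
  rw [h7] at h6
  have h8 := (abs_le.1 h5).1
  have h9 := (abs_le.1 h6).2
  have h10 : Real.log 2 ≤ 1 := by
    have := Real.log_two_lt_d9
    linarith
  have h11 : 1 / (q : ℝ) ≤ 1 := by
    rw [div_le_one (by linarith)]
    linarith
  linarith

/-- **the two-sided sieve for primes**: local densities `≤ κ / p`, relative error `δ` -/
theorem brun_primes_sharp (κ K δ : ℝ) (hκ : 0 ≤ κ) (hK : 1 ≤ K) (hδ : 0 < δ) (hδ1 : δ ≤ 1) :
    ∃ k : ℕ, ∀ (O : Type)
    (F : Finset O) (W : O → ℝ) (x : O → ℕ → ℝ) (S : Finset ℕ) (Y : ℕ) (g : ℕ → ℝ)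
    (X R : ℝ), 1 ≤ Y → (∀ o ∈ F, 0 ≤ W o) →
    (∀ o ∈ F, ∀ p ∈ S, 0 ≤ x o p ∧ x o p ≤ 1) → (∀ p ∈ S, p.Prime ∧ p ≤ Y) →
    (∀ p ∈ S, 0 ≤ g p ∧ g p ≤ 1 - 1 / K ∧ g p ≤ κ / p) → 0 ≤ X → 0 ≤ R →
    (∀ T ⊆ S, ∏ p ∈ T, p ≤ Y ^ k →
      |∑ o ∈ F, W o * ∏ p ∈ T, x o p - X * ∏ p ∈ T, g p| ≤ R) →
    (1 - δ) * (X * ∏ p ∈ S, (1 - g p)) - (Y : ℝ) ^ k * R ≤
      ∑ o ∈ F, W o * ∏ p ∈ S, (1 - x o p) ∧
    ∑ o ∈ F, W o * ∏ p ∈ S, (1 - x o p) ≤
      (1 + δ) * (X * ∏ p ∈ S, (1 - g p)) + (Y : ℝ) ^ k * R := by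
  obtain ⟨C, hC1, hC⟩ := level_mertens
  have hK' : 1 ≤ max K (κ * C) := hK.trans (le_max_left _ _)
  obtain ⟨k, hk⟩ := brun_hooley_sharp (max K (κ * C)) δ hK' hδ hδ1
  refine ⟨k, ?_⟩
  intro O F W x S Y g X R hY1 hW hx hS hg hX hR hT
  have h := hk O ℕ F W x S id Y g X (fun _ => R) hY1 hW hx
    (fun p hp => ⟨(hS p hp).1.two_le, (hS p hp).2⟩)
    (fun p hp => ⟨(hg p hp).1, (hg p hp).2.1.trans (by
      have : 1 / max K (κ * C) ≤ 1 / K :=
        one_div_le_one_div_of_le (by linarith) (le_max_left _ _)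
      linarith)⟩)
    (fun j => ?_) hX hT
  · have hcard : ∑ T ∈ S.powerset.filter (fun T => ∏ p ∈ T, id p ≤ Y ^ k), R ≤
        (Y : ℝ) ^ k * R := by
      rw [Finset.sum_const, nsmul_eq_mul]
      apply mul_le_mul_of_nonneg_right _ hR
      have := card_sets_le S (fun p hp => (hS p hp).1) (Y ^ k)
      exact_mod_cast this
    constructor
    · linarith [h.1]
    · linarith [h.2]
  · calc _ ≤ ∑ p ∈ S.filter (fun p => lev Y p = j), κ * (1 / (p : ℝ)) := by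
          apply Finset.sum_le_sum
          intro p hp
          have := (hg p (Finset.mem_filter.1 hp).1).2.2
          rw [mul_one_div]
          exact this
      _ = κ * ∑ p ∈ S.filter (fun p => lev Y p = j), 1 / (p : ℝ) := (Finset.mul_sum _ _ _).symm
      _ ≤ κ * C := mul_le_mul_of_nonneg_left (hC S Y hS j) hκ
      _ ≤ _ := le_max_right _ _

/-- the two-sided sieve for primes with constants `1/2` and `2` -/
theorem brun_primes (κ K : ℝ) (hκ : 0 ≤ κ) (hK : 1 ≤ K) : ∃ k : ℕ, ∀ (O : Type)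
    (F : Finset O) (W : O → ℝ) (x : O → ℕ → ℝ) (S : Finset ℕ) (Y : ℕ) (g : ℕ → ℝ)
    (X R : ℝ), 1 ≤ Y → (∀ o ∈ F, 0 ≤ W o) →
    (∀ o ∈ F, ∀ p ∈ S, 0 ≤ x o p ∧ x o p ≤ 1) → (∀ p ∈ S, p.Prime ∧ p ≤ Y) →
    (∀ p ∈ S, 0 ≤ g p ∧ g p ≤ 1 - 1 / K ∧ g p ≤ κ / p) → 0 ≤ X → 0 ≤ R →
    (∀ T ⊆ S, ∏ p ∈ T, p ≤ Y ^ k →
      |∑ o ∈ F, W o * ∏ p ∈ T, x o p - X * ∏ p ∈ T, g p| ≤ R) →
    1 / 2 * (X * ∏ p ∈ S, (1 - g p)) - (Y : ℝ) ^ k * R ≤
      ∑ o ∈ F, W o * ∏ p ∈ S, (1 - x o p) ∧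
    ∑ o ∈ F, W o * ∏ p ∈ S, (1 - x o p) ≤
      2 * (X * ∏ p ∈ S, (1 - g p)) + (Y : ℝ) ^ k * R := by
  obtain ⟨k, hk⟩ := brun_primes_sharp κ K (1 / 2) hκ hK (by norm_num) (by norm_num)
  refine ⟨k, ?_⟩
  intro O F W x S Y g X R hY1 hW hx hS hg hX hR hT
  have h := hk O F W x S Y g X R hY1 hW hx hS hg hX hR hT
  have hP : 0 ≤ ∏ p ∈ S, (1 - g p) := Finset.prod_nonneg fun p hp => by
    have h1 := (hg p hp).2.1
    have : 0 ≤ 1 / K := by positivity
    linarith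
  have h2 := mul_nonneg hX hP
  constructor
  · linarith [h.1]
  · linarith [h.2]

end Pool.Agent.PENT
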