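import Pool.Agent.Lib_helper8.PENT.B.za
import Pool.Agent.Lib_helper8.PENT.B.zb
import Pool.Agent.Lib_helper8.PENT.B.zc
import Pool.Agent.Lib_helper8.PENT.B.zd
import Pool.Agent.Lib_helper8.PENT.B.ze
import Pool.Agent.Lib_helper8.PENT.B.zf
import Pool.Agent.Lib_helper8.PENT.B.zg
import Pool.Agent.Lib_helper8.PENT.B.zh
import Pool.Agent.Lib_helper8.PENT.B.zi
import Pool.Agent.Lib_helper8.PENT.B.zj
import Pool.Agent.Lib_helper8.PENT.B.zk
import Pool.Agent.Lib_helper8.PENT.B.zl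
import Pool.Agent.Lib_helper8.PENT.B.zm
import Pool.Agent.Lib_helper8.PENT.B.zn
import Pool.Agent.Lib_helper8.PENT.B.zo
import Pool.Agent.Lib_helper8.PENT.B.zq

/-! PENT, part ZS: all blocks (linked) -/
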