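import Pool.Agent.Lib_helper8.PENT.ZFin

/-!
# PENT: the lower bound for sums of `f` in progressions, final statement (helper8)
-/

set_option autoImplicit false

namespace Pool.Agent.PENT

open Finset Filter

/-- powers of `log D` are smaller than powers of `D` -/
theorem ev_log (C a b : ℝ) (hb : 0 < b) : ∀ᶠ D in atTop, C * Real.log D ^ a ≤ D ^ b := by
  have h := isLittleO_log_rpow_rpow_atTop a hb
  have h2 : (0 : ℝ) < 1 / (|C| + 1) := by positivity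
  filter_upwards [h.bound h2, eventually_ge_atTop 1] with D hD hD1
  rw [Real.norm_of_nonneg (Real.rpow_nonneg (Real.log_nonneg hD1) _),
    Real.norm_of_nonneg (Real.rpow_nonneg (by linarith) _)] at hD
  have h3 : 0 ≤ Real.log D ^ a := Real.rpow_nonneg (Real.log_nonneg hD1) _
  calc C * Real.log D ^ a ≤ (|C| + 1) * Real.log D ^ a := by
        apply mul_le_mul_of_nonneg_right _ h3
        linarith [le_abs_self C]
    _ ≤ (|C| + 1) * (1 / (|C| + 1) * D ^ b) := mul_le_mul_of_nonneg_left hD (by positivity)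
    _ = D ^ b := by field_simp

/-- the box: `L ≥ (θ/5) √D` -/
theorem box_dims (θ D : ℝ) (hθ : 0 < θ) (hθ1 : θ ≤ 1) (hD : 28 / θ ≤ Real.sqrt D) (A B : ℤ)
    (hA : A = ⌊Real.sqrt (D / 2)⌋) (hB : B = ⌊Real.sqrt ((1 + θ) * D / 2)⌋) :
    0 ≤ A ∧ A ≤ B ∧ 3 ≤ B ∧ (B : ℝ) ≤ Real.sqrt D ∧
      θ / 5 * Real.sqrt D ≤ ((B - A : ℤ) : ℝ) ∧ ((B - A : ℤ) : ℝ) ≤ Real.sqrt D ∧
      ∀ s ∈ Finset.Ioc A B, D / 2 < (s : ℝ) ^ 2 ∧ (s : ℝ) ^ 2 ≤ (1 + θ) * D / 2 := by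
  have hs0 : 0 < Real.sqrt D := lt_of_lt_of_le (by positivity) hD
  have hD0 : 0 < D := Real.sqrt_pos.1 hs0
  have hs28 : 28 ≤ Real.sqrt D := by
    refine le_trans ?_ hD
    rw [le_div_iff₀ hθ]
    linarith
  set u := Real.sqrt (D / 2) with hu
  set v := Real.sqrt ((1 + θ) * D / 2) with hv
  have hu0 : 0 ≤ u := Real.sqrt_nonneg _
  have hv0 : 0 ≤ v := Real.sqrt_nonneg _
  have hu2 : u ^ 2 = D / 2 := Real.sq_sqrt (by positivity)
  have hv2 : v ^ 2 = (1 + θ) * D / 2 := Real.sq_sqrt (by positivity)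
  have hsD : Real.sqrt D ^ 2 = D := Real.sq_sqrt hD0.le
  set s := Real.sqrt D with hs
  have h1 : 0.7 * s ≤ u := by
    apply le_of_sq_le_sq _ hu0
    rw [hu2]
    nlinarith
  have h2 : (1 + θ / 3) * u ≤ v := by
    apply le_of_sq_le_sq _ hv0
    rw [mul_pow, hu2, hv2]
    have : (1 + θ / 3) ^ 2 ≤ 1 + θ := by nlinarith
    nlinarith
  have hvs : v ≤ s := by
    apply le_of_sq_le_sq _ hs0.le
    rw [hv2, hsD]
    nlinarith
  have hBv : (B : ℝ) ≤ v := by rw [hB]; exact Int.floor_le _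
  have hBv' : v < B + 1 := by rw [hB]; exact Int.lt_floor_add_one _
  have hAu : (A : ℝ) ≤ u := by rw [hA]; exact Int.floor_le _
  have hAu' : u < A + 1 := by rw [hA]; exact Int.lt_floor_add_one _
  have hA0 : 0 ≤ A := by rw [hA]; exact Int.floor_nonneg.2 hu0
  have hL : θ / 5 * s ≤ ((B - A : ℤ) : ℝ) := by
    push_cast
    have h3 : 28 ≤ θ * s := by
      rw [div_le_iff₀ hθ] at hD
      linarith
    have h4 : θ / 3 * (0.7 * s) ≤ θ / 3 * u := mul_le_mul_of_nonneg_left h1 (by positivity)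
    nlinarith
  refine ⟨hA0, ?_, ?_, hBv.trans hvs, hL, ?_, ?_⟩
  · have h3 : (0 : ℝ) ≤ ((B - A : ℤ) : ℝ) := le_trans (by positivity) hL
    have : (0 : ℤ) ≤ B - A := by exact_mod_cast h3
    omega
  · have h3 : (3 : ℝ) < B + 1 := by
      have : u ≤ v := by nlinarith
      nlinarith
    have : (3 : ℤ) < B + 1 := by exact_mod_cast h3
    omega
  · push_cast
    have : (0 : ℝ) ≤ A := by exact_mod_cast hA0
    linarith
  · intro t ht
    obtain ⟨h3, h4⟩ := Finset.mem_Ioc.1 ht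
    have h5 : u < t := by
      have : (A : ℝ) + 1 ≤ t := by exact_mod_cast h3
      linarith
    have h6 : (t : ℝ) ≤ v := le_trans (by exact_mod_cast h4) hBv
    have h7 : (0 : ℝ) < t := lt_of_le_of_lt hu0 h5
    constructor
    · rw [← hu2]
      nlinarith
    · rw [← hv2]
      nlinarith

/-- the sieve applied to the family -/
theorem fam_main (α : ℝ) (hα : 0 < α) (hα1 : α ≤ 1) : ∃ (k : ℕ) (c : ℝ), 0 < c ∧
    ∀ (P : ℝ) (Y q : ℕ) (r : ℤ) (A B : ℤ), 2 ≤ P → P ≤ Y → 0 < q → A ≤ B →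
    1 / 2 * (XX A B q r * (c * Real.log P ^ (-α) * Real.log Y ^ (α - 1))) -
        (Y : ℝ) ^ k * (2 * (q * (Y : ℝ) ^ k) * ((B - A : ℤ) : ℝ) + (q * (Y : ℝ) ^ k) ^ 2) ≤
      ∑ z ∈ fam A B q r, ∏ p ∈ sS P Y q, (1 - xp P α p z.1 z.2) := by
  obtain ⟨k, hk⟩ := brun_primes 2 3 (by norm_num) (by norm_num)
  obtain ⟨c, hc, hprod⟩ := prod_ge α hα hα1
  refine ⟨k, c, hc, ?_⟩
  intro P Y q r A B hP hPY hq hAB
  have hY1 : 1 ≤ Y := by
    have : (1 : ℝ) ≤ Y := by linarith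
    exact_mod_cast this
  have hL : (0 : ℝ) ≤ ((B - A : ℤ) : ℝ) := by exact_mod_cast (by omega : 0 ≤ B - A)
  have hq' : (0 : ℝ) < q := by exact_mod_cast hq
  have hd := dens P α hα hα1 Y q
  have h := hk (ℤ × ℤ) (fam A B q r) (fun _ => 1) (fun z p => xp P α p z.1 z.2) (sS P Y q) Y
    (fun p => av p (xp P α p)) (XX A B q r)
    (2 * (q * (Y : ℝ) ^ k) * ((B - A : ℤ) : ℝ) + (q * (Y : ℝ) ^ k) ^ 2) hY1
    (fun _ _ => zero_le_one) (fun z _ p _ => xp_01 P α hα hα1 p z.1 z.2)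
    (fun p hp => by
      obtain ⟨h1, h2, _, _⟩ := (mem_sS P Y q p).1 hp
      exact ⟨h1, by exact_mod_cast h2⟩)
    (fun p hp => ⟨(hd p hp).1, (hd p hp).2.1, (hd p hp).2.2.1⟩) (XX_nonneg A B q r)
    (by positivity) (fun T hT hTY => by
      have h1 := fam_sieve P α hα hα1 A B hAB hq r T (fun p hp => by
        obtain ⟨h1, _, h3, _⟩ := (mem_sS P Y q p).1 (hT hp)
        exact ⟨h1, h3⟩)
      have h2 : ((q * ∏ p ∈ T, p : ℕ) : ℝ) ≤ q * (Y : ℝ) ^ k := by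
        rw [Nat.cast_mul]
        apply mul_le_mul_of_nonneg_left _ hq'.le
        exact_mod_cast hTY
      simp only [one_mul]
      unfold XX
      refine h1.trans ?_
      gcongr)
  have h1 := h.1
  simp only [one_mul] at h1
  have h2 := hprod P Y (sS P Y q) (fun p => av p (xp P α p)) hP hPY
    (fun p hp => by
      obtain ⟨h1, h2, _, h4⟩ := (mem_sS P Y q p).1 hp
      exact ⟨h1, h2, h4⟩)
    (fun p hp => ⟨(hd p hp).1, (hd p hp).2.2.1, (hd p hp).2.2.2.1, (hd p hp).2.2.2.2.1,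
      (hd p hp).2.2.2.2.2⟩)
  have h3 := mul_le_mul_of_nonneg_left h2 (XX_nonneg A B q r)
  linarith

/-- the final numbers -/
theorem zs_numbers (κ θ C Lg w X ℓ P q φ Fc R1 R2 R3 E1 G1 : ℝ) (hκ : 0 < κ) (hθ : 0 < θ)
    (hC : 0 ≤ C) (hLg : 1 ≤ Lg) (hw : 1 ≤ w) (hℓ : 1 / Lg ≤ ℓ) (hP : Lg ^ 20 ≤ P)
    (hq : 1 ≤ q) (hqw : q ≤ w) (hφ : q ≤ 3 * Lg * φ)
    (hX : θ ^ 2 / 25 * w ^ 20 * (φ / q ^ 2) ≤ X) (hFc0 : 0 ≤ Fc) (hFc : Fc ≤ Lg ^ 2)
    (hR1 : R1 ≤ 3 * w ^ 18) (hR2 : R2 ≤ 3 * w ^ 18) (hR3 : R3 ≤ 2 * C * w ^ 18)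
    (hE1 : E1 ≤ 3 * w ^ 18) (hG1 : G1 ≤ 4 * w ^ 18)
    (e6 : 8 / κ ≤ Lg ^ 17) (e7 : (13 + 2 * C) * 75 / (θ ^ 2 * κ) * Lg ^ 4 ≤ w) :
    2 * κ * θ ^ 2 / 25 * (w ^ 20 * φ / q ^ 2) * ℓ ≤
      4 * κ * (X * ℓ) - R1 - (6 * X / P + R2 + R3) - Fc * (2 * X / P + E1 + G1) := by
  have hLg0 : 0 < Lg := by linarith
  have hP0 : 0 < P := lt_of_lt_of_le (by positivity) hP
  have hq0 : 0 < q := by linarith
  have hφ0 : 0 < φ := by
    by_contra h
    push Not at h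
    have : 3 * Lg * φ ≤ 0 := mul_nonpos_of_nonneg_of_nonpos (by positivity) h
    linarith
  have hℓ0 : 0 < ℓ := lt_of_lt_of_le (by positivity) hℓ
  have hX0 : 0 < X := lt_of_lt_of_le (by positivity) hX
  have hw0 : 0 < w := by linarith
  -- the errors relative to X
  have h1 : X * (6 + 2 * Lg ^ 2) / P ≤ κ * (X * ℓ) := by
    have h2 : (6 + 2 * Lg ^ 2) / P ≤ κ * (1 / Lg) := by
      rw [div_le_iff₀ hP0]
      have h3 : 6 + 2 * Lg ^ 2 ≤ 8 * Lg ^ 2 := by nlinarith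
      have h4 : 8 ≤ κ * Lg ^ 17 := by
        rw [div_le_iff₀ hκ] at e6
        linarith
      have h5 : 8 * Lg ^ 2 ≤ κ * (1 / Lg) * Lg ^ 20 := by
        have e : κ * (1 / Lg) * Lg ^ 20 = κ * Lg ^ 17 * Lg ^ 2 := by
          field_simp
        rw [e]
        exact mul_le_mul_of_nonneg_right h4 (by positivity)
      calc _ ≤ _ := h3
        _ ≤ _ := h5
        _ ≤ _ := mul_le_mul_of_nonneg_left hP (by positivity)
    calc X * (6 + 2 * Lg ^ 2) / P = X * ((6 + 2 * Lg ^ 2) / P) := by ring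
      _ ≤ X * (κ * (1 / Lg)) := mul_le_mul_of_nonneg_left h2 hX0.le
      _ ≤ X * (κ * ℓ) := by
          apply mul_le_mul_of_nonneg_left _ hX0.le
          exact mul_le_mul_of_nonneg_left hℓ hκ.le
      _ = _ := by ring
  -- the absolute errors
  have h2 : θ ^ 2 / 75 * w ^ 19 / Lg ≤ X := by
    refine le_trans ?_ hX
    have h3 : 1 / (3 * Lg * w) ≤ φ / q ^ 2 := by
      rw [div_le_div_iff₀ (by positivity) (by positivity)]
      have h4 : q ^ 2 ≤ (3 * Lg * φ) * w := by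
        rw [sq]
        exact mul_le_mul hφ hqw hq0.le (by positivity)
      linarith
    calc θ ^ 2 / 75 * w ^ 19 / Lg = θ ^ 2 / 25 * w ^ 20 * (1 / (3 * Lg * w)) := by
          field_simp
          norm_num
      _ ≤ _ := mul_le_mul_of_nonneg_left h3 (by positivity)
  have h3 : (13 + 2 * C) * Lg ^ 2 * w ^ 18 ≤ κ * (X * ℓ) := by
    have h4 : θ ^ 2 / 75 * w ^ 19 / Lg * (1 / Lg) ≤ X * ℓ :=
      mul_le_mul h2 hℓ (by positivity) hX0.le
    refine le_trans ?_ (mul_le_mul_of_nonneg_left h4 hκ.le)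
    have e : κ * (θ ^ 2 / 75 * w ^ 19 / Lg * (1 / Lg)) =
        (θ ^ 2 * κ / 75) * w * w ^ 18 / Lg ^ 2 := by
      field_simp
    rw [e, le_div_iff₀ (by positivity)]
    have h5 : (θ ^ 2 * κ / 75) * ((13 + 2 * C) * 75 / (θ ^ 2 * κ) * Lg ^ 4) ≤
        (θ ^ 2 * κ / 75) * w := mul_le_mul_of_nonneg_left e7 (by positivity)
    have e2 : (θ ^ 2 * κ / 75) * ((13 + 2 * C) * 75 / (θ ^ 2 * κ) * Lg ^ 4) =
        (13 + 2 * C) * Lg ^ 4 := by
      field_simp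
    rw [e2] at h5
    calc (13 + 2 * C) * Lg ^ 2 * w ^ 18 * Lg ^ 2 = (13 + 2 * C) * Lg ^ 4 * w ^ 18 := by ring
      _ ≤ _ := mul_le_mul_of_nonneg_right h5 (by positivity)
  have h4 : Fc * (2 * X / P + E1 + G1) ≤ Lg ^ 2 * (2 * X / P) + Lg ^ 2 * (7 * w ^ 18) := by
    have h5 : Fc * (2 * X / P + (E1 + G1)) ≤ Fc * (2 * X / P + 7 * w ^ 18) := by
      apply mul_le_mul_of_nonneg_left _ hFc0
      linarith
    have h6 : Fc * (2 * X / P + 7 * w ^ 18) ≤ Lg ^ 2 * (2 * X / P + 7 * w ^ 18) :=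
      mul_le_mul_of_nonneg_right hFc (by positivity)
    have e : Fc * (2 * X / P + E1 + G1) = Fc * (2 * X / P + (E1 + G1)) := by ring
    rw [e]
    linarith
  have h5 : R1 + R2 + R3 + Lg ^ 2 * (7 * w ^ 18) ≤ (13 + 2 * C) * Lg ^ 2 * w ^ 18 := by
    have h6 : (1 : ℝ) ≤ Lg ^ 2 := one_le_pow₀ hLg
    have h7 : (6 + 2 * C) * w ^ 18 * 1 ≤ (6 + 2 * C) * w ^ 18 * Lg ^ 2 :=
      mul_le_mul_of_nonneg_left h6 (by positivity)
    linarith
  have h6 : 2 * κ * θ ^ 2 / 25 * (w ^ 20 * φ / q ^ 2) * ℓ ≤ 2 * κ * (X * ℓ) := by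
    have h7 := mul_le_mul_of_nonneg_right hX hℓ0.le
    have h8 := mul_le_mul_of_nonneg_left h7 (show 0 ≤ 2 * κ by positivity)
    calc _ = 2 * κ * (θ ^ 2 / 25 * w ^ 20 * (φ / q ^ 2) * ℓ) := by ring
      _ ≤ _ := h8
  have h7 : X * (6 + 2 * Lg ^ 2) / P = 6 * X / P + Lg ^ 2 * (2 * X / P) := by ring
  linarith

/-- **(ZS)**: the lower bound for sums of `(2 α)^ω(d)` over the `d ∈ (D, (1 + θ) D]`, squarefree, all
primes `1 mod 4` and `> P`, in a residue class modulo an odd `q ≤ D^τ`, avoiding at most `(log D)²`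
residue classes modulo primes `> P` -/
theorem zs (α θ : ℝ) (hα : 0 < α) (hα1 : α ≤ 1) (hθ : 0 < θ) (hθ1 : θ ≤ 1) :
    ∃ c τ D₀ : ℝ, 0 < c ∧ 0 < τ ∧
    ∀ (D P : ℝ) (q : ℕ) (r : ℤ) (F : Finset (ℕ × ℤ)), D₀ ≤ D → Real.log D ^ 20 ≤ P →
    Real.log P ≤ Real.log D ^ (1 / 2 : ℝ) → Odd q → (q : ℝ) ≤ D ^ τ → IsCoprime r (q : ℤ) →
    (∀ a ∈ F, a.1.Prime ∧ P < (a.1 : ℝ) ∧ ¬ a.1 ∣ q) → (F.card : ℝ) ≤ Real.log D ^ 2 →
    c * (D / q) * (q.totient / q) * Real.log P ^ (-α) * Real.log D ^ (α - 1) ≤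
      ∑ d ∈ (Finset.Icc 1 ⌊(1 + θ) * D⌋₊).filter (fun d : ℕ => D < (d : ℝ) ∧
        (q : ℤ) ∣ (d : ℤ) - r ∧ ∀ a ∈ F, ¬ (a.1 : ℤ) ∣ (d : ℤ) - a.2), fw P α d := by
  obtain ⟨k, c1, hc1, hmain⟩ := fam_main α hα hα1
  obtain ⟨C, hC0, hC⟩ := card_sq_large
  set τ2 : ℝ := 1 / (10 * (k + 1)) with hτ2
  have hτ20 : 0 < τ2 := by positivity
  set m : ℕ := 40 * (k + 1) with hm
  set κ : ℝ := α ^ m * c1 / 8 with hκ
  have hκ0 : 0 < κ := by positivity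
  -- the conditions on D
  have ev1 : ∀ᶠ D : ℝ in atTop, 28 / θ ≤ Real.sqrt D :=
    (Real.tendsto_sqrt_atTop).eventually_ge_atTop _
  have ev2 : ∀ᶠ D : ℝ in atTop, max 2 (max (8 / κ) ((2 / τ2) ^ 2)) ≤ Real.log D :=
    Real.tendsto_log_atTop.eventually_ge_atTop _
  have ev3 : ∀ᶠ D : ℝ in atTop, 2 ≤ D ^ (τ2 / 2) :=
    (tendsto_rpow_atTop (by positivity)).eventually_ge_atTop _
  have ev4 := ev_log ((13 + 2 * C) * 75 / (θ ^ 2 * κ)) 4 (1 / 20) (by norm_num)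
  obtain ⟨D₀, hD₀⟩ := eventually_atTop.1 (ev1.and (ev2.and (ev3.and (ev4.and
    (eventually_ge_atTop (2 : ℝ))))))
  refine ⟨2 * κ * θ ^ 2 / 25, 1 / 20, D₀, by positivity, by norm_num, ?_⟩
  intro D P q r F hD hPL hPU hqo hqD hr hF hFc
  obtain ⟨h28, hLgm, hYY, he7, hD2⟩ := hD₀ D hD
  set Lg := Real.log D with hLg
  have hLg2 : 2 ≤ Lg := le_trans (le_max_left _ _) hLgm
  have hLgκ : 8 / κ ≤ Lg := le_trans ((le_max_left _ _).trans (le_max_right _ _)) hLgm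
  have hLgτ : (2 / τ2) ^ 2 ≤ Lg := le_trans ((le_max_right _ _).trans (le_max_right _ _)) hLgm
  have hLg0 : 0 < Lg := by linarith
  have hD0 : 0 < D := by linarith
  have hq : 0 < q := hqo.pos
  have hq' : (1 : ℝ) ≤ q := by exact_mod_cast hq
  have hP2 : 2 ≤ P := by
    have : (2 : ℝ) ≤ Lg ^ 20 := by
      calc (2 : ℝ) ≤ 2 ^ 20 := by norm_num
        _ ≤ Lg ^ 20 := by gcongr
    linarith
  have hP0 : 0 < P := by linarith
  -- w = D^(1/1000)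
  set w := D ^ (1 / 20 : ℝ) with hw
  have hw1 : 1 ≤ w := Real.one_le_rpow (by linarith) (by norm_num)
  have hw0 : 0 < w := by linarith
  have hwD : w ^ 20 = D := by
    rw [hw, ← Real.rpow_natCast, ← Real.rpow_mul hD0.le]
    norm_num
  have hw9 : w = D ^ (1 / 20 : ℝ) := hw
  have hsq : Real.sqrt D = w ^ 10 := by
    rw [← hwD, show w ^ 20 = (w ^ 10) ^ 2 by ring]
    exact Real.sqrt_sq (by positivity)
  -- Y
  set Y : ℕ := ⌊D ^ τ2⌋₊ with hY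
  have hYle : (Y : ℝ) ≤ D ^ τ2 := Nat.floor_le (by positivity)
  have hYgt : D ^ τ2 < Y + 1 := Nat.lt_floor_add_one _
  have hsqY : D ^ τ2 = D ^ (τ2 / 2) * D ^ (τ2 / 2) := by
    rw [← Real.rpow_add hD0]
    congr 1
    ring
  have hYge : D ^ (τ2 / 2) ≤ Y := by nlinarith
  have hPY : P ≤ Y := by
    have h1 : Lg ^ (1 / 2 : ℝ) ≤ τ2 / 2 * Lg := by
      have h2 : Real.sqrt Lg * (2 / τ2) ≤ Real.sqrt Lg * Real.sqrt Lg := by
        apply mul_le_mul_of_nonneg_left _ (Real.sqrt_nonneg _)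
        exact Real.le_sqrt_of_sq_le hLgτ
      rw [Real.mul_self_sqrt hLg0.le] at h2
      rw [← Real.sqrt_eq_rpow]
      have h3 := mul_le_mul_of_nonneg_left h2 (show 0 ≤ τ2 / 2 by positivity)
      have h4 : τ2 / 2 * (Real.sqrt Lg * (2 / τ2)) = Real.sqrt Lg := by
        field_simp
      linarith
    have h2 : P ≤ D ^ (τ2 / 2) := by
      rw [← Real.exp_log hP0, Real.rpow_def_of_pos hD0]
      apply Real.exp_le_exp.2
      rw [← hLg]
      linarith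
    linarith
  have hY1 : 1 ≤ (Y : ℝ) := by linarith
  have hYD : (Y : ℝ) ≤ D := by
    refine hYle.trans ?_
    calc D ^ τ2 ≤ D ^ (1 : ℝ) := by
          apply Real.rpow_le_rpow_of_exponent_le (by linarith)
          rw [hτ2, div_le_one (by positivity)]
          have : (0 : ℝ) ≤ k := Nat.cast_nonneg _
          linarith
      _ = D := Real.rpow_one D
  have hYk : (Y : ℝ) ^ k ≤ w ^ 2 := by
    calc (Y : ℝ) ^ k ≤ (D ^ τ2) ^ k := by gcongr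
      _ = D ^ (τ2 * k) := by rw [← Real.rpow_natCast, ← Real.rpow_mul hD0.le]
      _ ≤ D ^ (1 / 10 : ℝ) := by
          apply Real.rpow_le_rpow_of_exponent_le (by linarith)
          rw [hτ2]
          have : (0 : ℝ) ≤ k := Nat.cast_nonneg _
          rw [div_mul_eq_mul_div, div_le_div_iff₀ (by positivity) (by norm_num)]
          linarith
      _ = w ^ 2 := by
          rw [hw, ← Real.rpow_natCast, ← Real.rpow_mul hD0.le]
          norm_num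
  have hDYm : (1 + θ) * D ≤ (Y : ℝ) ^ m := by
    have h1 : (D ^ (τ2 / 2)) ^ m ≤ (Y : ℝ) ^ m := by gcongr
    have h2 : (D ^ (τ2 / 2)) ^ m = D ^ (2 : ℝ) := by
      rw [← Real.rpow_natCast, ← Real.rpow_mul hD0.le]
      congr 1
      rw [hm, hτ2]
      push_cast
      field_simp
      norm_num
    rw [h2, Real.rpow_two] at h1
    nlinarith
  -- the box
  set A : ℤ := ⌊Real.sqrt (D / 2)⌋ with hA
  set B : ℤ := ⌊Real.sqrt ((1 + θ) * D / 2)⌋ with hB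
  obtain ⟨hA0, hAB, hB3, hBs, hLlo, hLup, hbox⟩ := box_dims θ D hθ hθ1 h28 A B hA hB
  rw [hsq] at hBs hLlo hLup
  have hL0 : (0 : ℝ) ≤ ((B - A : ℤ) : ℝ) := by exact_mod_cast (by omega : 0 ≤ B - A)
  have hB0 : (0 : ℝ) ≤ (B : ℝ) := by exact_mod_cast (by omega : 0 ≤ B)
  -- Z
  set Z : ℕ := ⌊Real.sqrt ((1 + θ) * D)⌋₊ with hZ
  have hZD : (1 + θ) * D < ((Z : ℝ) + 1) ^ 2 := by
    have h1 : Real.sqrt ((1 + θ) * D) < Z + 1 := Nat.lt_floor_add_one _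
    have h2 : Real.sqrt ((1 + θ) * D) ^ 2 = (1 + θ) * D := Real.sq_sqrt (by positivity)
    rw [← h2]
    have h3 : 0 ≤ Real.sqrt ((1 + θ) * D) := Real.sqrt_nonneg _
    nlinarith
  have hZB : (Z : ℤ) ≤ 2 * B := by
    have h1 : (Z : ℝ) ≤ Real.sqrt ((1 + θ) * D) := Nat.floor_le (Real.sqrt_nonneg _)
    have h2 : Real.sqrt ((1 + θ) * D / 2) < B + 1 := by
      rw [hB]
      exact Int.lt_floor_add_one _
    have h3 : Real.sqrt ((1 + θ) * D) ≤ 1.5 * Real.sqrt ((1 + θ) * D / 2) := by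
      apply le_of_sq_le_sq _ (by positivity)
      rw [mul_pow, Real.sq_sqrt (by positivity), Real.sq_sqrt (by positivity)]
      nlinarith
    have h4 : (3 : ℝ) ≤ B := by exact_mod_cast hB3
    have h5 : (Z : ℝ) ≤ 2 * B := by linarith
    exact_mod_cast h5
  -- assemble
  have f1 := fam_ge P α θ D m hP2 hα hα1 Y Z hPY q r hr F A B hA0 hbox hDYm hZD
  have f2 := hmain P Y q r A B hP2 hPY hq hAB
  have hw10 : (1 : ℝ) ≤ w ^ 2 := one_le_pow₀ hw1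
  have f3 := err_sq C hC0 hC A B hA0 hAB (by omega) q hq r hr P (w ^ 2) hP0 hw10 Z hZB
  have f4 := err_F A B hAB q hq r P (w ^ 2) hP0 hw10 F hF
  have hX0 := XX_nonneg A B q r
  set X := XX A B q r with hX
  set L := ((B - A : ℤ) : ℝ) with hL
  have hqw : (q : ℝ) ≤ w := hqD
  have hwp : ∀ a b : ℕ, a ≤ b → w ^ a ≤ w ^ b := fun a b h => pow_le_pow_right₀ hw1 h
  set R1 := (Y : ℝ) ^ k * (2 * (q * (Y : ℝ) ^ k) * L + (q * (Y : ℝ) ^ k) ^ 2) with hR1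
  have bR1 : R1 ≤ 3 * w ^ 18 := by
    calc R1 ≤ w ^ 2 * (2 * (w * w ^ 2) * w ^ 10 + (w * w ^ 2) ^ 2) := by
          rw [hR1]
          gcongr
      _ = 2 * w ^ 15 + w ^ 8 := by ring
      _ ≤ 3 * w ^ 18 := by linarith [hwp 15 18 (by norm_num), hwp 8 18 (by norm_num)]
  have bE : 2 * (q * (w ^ 2) ^ 2) * L + (q * (w ^ 2) ^ 2) ^ 2 ≤
      2 * (w * (w ^ 2) ^ 2) * w ^ 10 + (w * (w ^ 2) ^ 2) ^ 2 := by gcongr
  have bE1 : 2 * (q * (w ^ 2) ^ 2) * L + (q * (w ^ 2) ^ 2) ^ 2 ≤ 3 * w ^ 18 := by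
    calc _ ≤ _ := bE
      _ = 2 * w ^ 15 + w ^ 10 := by ring
      _ ≤ 3 * w ^ 18 := by linarith [hwp 15 18 (by norm_num), hwp 10 18 (by norm_num)]
  have bR2 : w ^ 2 * (2 * (q * (w ^ 2) ^ 2) * L + (q * (w ^ 2) ^ 2) ^ 2) ≤ 3 * w ^ 18 := by
    calc _ ≤ w ^ 2 * (2 * (w * (w ^ 2) ^ 2) * w ^ 10 + (w * (w ^ 2) ^ 2) ^ 2) :=
          mul_le_mul_of_nonneg_left bE (by positivity)
      _ = 2 * w ^ 17 + w ^ 12 := by ring
      _ ≤ 3 * w ^ 18 := by linarith [hwp 17 18 (by norm_num), hwp 12 18 (by norm_num)]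
  have bR3 : 2 * C * (B : ℝ) ^ 2 / w ^ 2 ≤ 2 * C * w ^ 18 := by
    rw [div_le_iff₀ (by positivity)]
    calc 2 * C * (B : ℝ) ^ 2 ≤ 2 * C * (w ^ 10) ^ 2 := by gcongr
      _ = 2 * C * w ^ 18 * w ^ 2 := by ring
  have bG1 : 2 * L * (L / w ^ 2 + 1) ≤ 4 * w ^ 18 := by
    have h1 : L / w ^ 2 ≤ w ^ 8 := by
      rw [div_le_iff₀ (by positivity)]
      calc L ≤ w ^ 10 := hLup
        _ = w ^ 8 * w ^ 2 := by ring
    calc 2 * L * (L / w ^ 2 + 1) ≤ 2 * w ^ 10 * (w ^ 8 + 1) := by gcongr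
      _ = 2 * w ^ 18 + 2 * w ^ 10 := by ring
      _ ≤ 4 * w ^ 18 := by linarith [hwp 10 18 (by norm_num)]
  -- the singular factor
  set ℓ := Real.log P ^ (-α) * Lg ^ (α - 1) with hℓ
  have hlP0 : 0 < Real.log P := Real.log_pos (by linarith)
  have hlPL : Real.log P ≤ Lg := by
    refine hPU.trans ?_
    calc Lg ^ (1 / 2 : ℝ) ≤ Lg ^ (1 : ℝ) := by
          apply Real.rpow_le_rpow_of_exponent_le (by linarith) (by norm_num)
      _ = Lg := Real.rpow_one _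
  have hℓ1 : 1 / Lg ≤ ℓ := by
    have h1 : Lg ^ (-α) ≤ Real.log P ^ (-α) :=
      Real.rpow_le_rpow_of_nonpos hlP0 hlPL (by linarith)
    calc 1 / Lg = Lg ^ (-α) * Lg ^ (α - 1) := by
          rw [← Real.rpow_add hLg0, show -α + (α - 1) = -1 by ring, Real.rpow_neg_one, one_div]
      _ ≤ ℓ := by
          rw [hℓ]
          exact mul_le_mul_of_nonneg_right h1 (by positivity)
  have hlY : ℓ ≤ Real.log P ^ (-α) * Real.log Y ^ (α - 1) := by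
    rw [hℓ]
    apply mul_le_mul_of_nonneg_left _ (by positivity)
    apply Real.rpow_le_rpow_of_nonpos _ (Real.log_le_log (by linarith) hYD) (by linarith)
    apply Real.log_pos
    linarith
  -- X from below
  have hXlo : θ ^ 2 / 25 * w ^ 20 * ((q.totient : ℝ) / (q : ℝ) ^ 2) ≤ X := by
    have h1 := av_sqi_ge hqo r hr
    rw [hX]
    unfold XX
    rw [← hL]
    have h2 : θ ^ 2 / 25 * w ^ 20 ≤ L ^ 2 := by
      calc θ ^ 2 / 25 * w ^ 20 = (θ / 5 * w ^ 10) ^ 2 := by ring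
        _ ≤ L ^ 2 := by gcongr
    exact mul_le_mul h2 h1 (by positivity) (by positivity)
  have hφ : (q : ℝ) ≤ 3 * Lg * (q.totient : ℝ) := by
    have h1 := Pool.Agent.Var35.totient_ge q hq
    refine h1.trans ?_
    apply mul_le_mul_of_nonneg_right _ (Nat.cast_nonneg _)
    have h2 : Real.log q ≤ Lg := by
      apply Real.log_le_log (by linarith)
      calc (q : ℝ) ≤ w := hqw
        _ = w ^ 1 := (pow_one w).symm
        _ ≤ w ^ 20 := hwp 1 20 (by norm_num)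
        _ = D := hwD
    linarith
  have he6 : 8 / κ ≤ Lg ^ 17 := by
    calc 8 / κ ≤ Lg := hLgκ
      _ = Lg ^ 1 := (pow_one _).symm
      _ ≤ Lg ^ 17 := pow_le_pow_right₀ (by linarith) (by norm_num)
  have he7' : (13 + 2 * C) * 75 / (θ ^ 2 * κ) * Lg ^ 4 ≤ w := by
    rw [hw9]
    have e : Lg ^ (4 : ℝ) = Lg ^ 4 := by
      rw [← Real.rpow_natCast]
      norm_num
    rw [← e]
    exact he7
  have key := zs_numbers κ θ C Lg w X ℓ P q q.totient F.card R1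
    (w ^ 2 * (2 * (q * (w ^ 2) ^ 2) * L + (q * (w ^ 2) ^ 2) ^ 2))
    (2 * C * (B : ℝ) ^ 2 / w ^ 2)
    (2 * (q * (w ^ 2) ^ 2) * L + (q * (w ^ 2) ^ 2) ^ 2)
    (2 * L * (L / w ^ 2 + 1)) hκ0 hθ hC0 (by linarith) hw1 hℓ1 hPL hq' hqw hφ hXlo
    (Nat.cast_nonneg _) hFc bR1 bR2 bR3 bE1 bG1 he6 he7'
  have hαm : α ^ m ≤ 1 := pow_le_one₀ hα.le hα1
  have hαm0 : 0 < α ^ m := by positivity
  have hR10 : 0 ≤ R1 := by
    rw [hR1]
    positivity
  have g1 : 4 * κ * (X * ℓ) - R1 ≤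
      α ^ m * ∑ z ∈ fam A B q r, ∏ p ∈ sS P Y q, (1 - xp P α p z.1 z.2) := by
    have h1 := mul_le_mul_of_nonneg_left f2 hαm0.le
    have h2 : 4 * κ * (X * ℓ) ≤
        α ^ m * (1 / 2 * (X * (c1 * Real.log P ^ (-α) * Real.log Y ^ (α - 1)))) := by
      have h3 : X * (c1 * ℓ) ≤ X * (c1 * Real.log P ^ (-α) * Real.log Y ^ (α - 1)) := by
        apply mul_le_mul_of_nonneg_left _ hX0
        rw [mul_assoc]
        exact mul_le_mul_of_nonneg_left hlY hc1.le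
      have h4 := mul_le_mul_of_nonneg_left h3 (show 0 ≤ α ^ m * (1 / 2) by positivity)
      calc 4 * κ * (X * ℓ) = α ^ m * (1 / 2) * (X * (c1 * ℓ)) := by
            rw [hκ]
            ring
        _ ≤ _ := h4
        _ = _ := by ring
    have h5 : α ^ m * R1 ≤ R1 := mul_le_of_le_one_left hR10 hαm
    rw [mul_sub] at h1
    linarith
  have g2 : 2 * κ * θ ^ 2 / 25 * (D / q) * (q.totient / q) * Real.log P ^ (-α) * Lg ^ (α - 1) =
      2 * κ * θ ^ 2 / 25 * (w ^ 20 * q.totient / (q : ℝ) ^ 2) * ℓ := by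
    rw [hwD, hℓ]
    field_simp
  rw [g2]
  linarith

end Pool.Agent.PENT
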