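import Pool.Agent.Lib_helper8.PENT.YMain
import Pool.Agent.Lib_helper8.PENT.ZMain

/-!
# PENT: `y_lower` (helper8)
-/

set_option autoImplicit false

namespace Pool.Agent.PENT

open Finset Filter

/-- `exp((log x)^(1/100))` is larger than `C log x` -/
theorem ev_PP (C : ℝ) : ∀ᶠ x : ℝ in atTop,
    C * Real.log x ≤ Real.exp (Real.log x ^ (1 / 100 : ℝ)) := by
  have h1 : ∀ᶠ z : ℝ in atTop, C * z ^ 100 ≤ Real.exp z := by
    have h2 := Real.isLittleO_pow_exp_atTop (n := 100)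
    have h3 : (0 : ℝ) < 1 / (|C| + 1) := by positivity
    filter_upwards [h2.bound h3, eventually_ge_atTop 0] with z hz hz0
    rw [Real.norm_of_nonneg (by positivity), Real.norm_of_nonneg (Real.exp_pos _).le] at hz
    have h4 : 0 ≤ z ^ 100 := by positivity
    calc C * z ^ 100 ≤ (|C| + 1) * z ^ 100 := by
          apply mul_le_mul_of_nonneg_right _ h4
          linarith [le_abs_self C]
      _ ≤ (|C| + 1) * (1 / (|C| + 1) * Real.exp z) := mul_le_mul_of_nonneg_left hz (by positivity)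
      _ = Real.exp z := by field_simp
  have h5 : Tendsto (fun x : ℝ => Real.log x ^ (1 / 100 : ℝ)) atTop atTop :=
    (tendsto_rpow_atTop (by norm_num)).comp Real.tendsto_log_atTop
  filter_upwards [h5.eventually h1, eventually_ge_atTop 1] with x hx hx1
  have h6 : (Real.log x ^ (1 / 100 : ℝ)) ^ 100 = Real.log x := by
    rw [← Real.rpow_natCast, ← Real.rpow_mul (Real.log_nonneg hx1)]
    norm_num
  rwa [h6] at hx

/-- `exp((log x)^(1/100)) ≤ x^t - 1` -/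
theorem ev_PY (t : ℝ) (ht : 0 < t) : ∀ᶠ x : ℝ in atTop,
    Real.exp (Real.log x ^ (1 / 100 : ℝ)) ≤ x ^ t - 1 := by
  have h1 : ∀ᶠ x : ℝ in atTop, 2 ≤ x ^ (t / 2) :=
    (tendsto_rpow_atTop (by positivity)).eventually_ge_atTop _
  have h2 : ∀ᶠ y : ℝ in atTop, y ^ (1 / 100 : ℝ) ≤ t / 2 * y := by
    have h3 := (tendsto_rpow_atTop (show (0 : ℝ) < 99 / 100 by norm_num)).eventually_ge_atTop
      (2 / t)
    filter_upwards [h3, eventually_gt_atTop 0] with y hy hy0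
    have e : y = y ^ (1 / 100 : ℝ) * y ^ (99 / 100 : ℝ) := by
      rw [← Real.rpow_add hy0]
      norm_num
    have h4 : 0 ≤ y ^ (1 / 100 : ℝ) := by positivity
    calc y ^ (1 / 100 : ℝ) = t / 2 * (y ^ (1 / 100 : ℝ) * (2 / t)) := by field_simp
      _ ≤ t / 2 * (y ^ (1 / 100 : ℝ) * y ^ (99 / 100 : ℝ)) := by
          apply mul_le_mul_of_nonneg_left _ (by positivity)
          exact mul_le_mul_of_nonneg_left hy h4
      _ = t / 2 * y := by rw [← e]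
  filter_upwards [h1, Real.tendsto_log_atTop.eventually h2, eventually_ge_atTop 1] with x k1 k2 k3
  have hx0 : 0 < x := by linarith
  have h5 : Real.exp (Real.log x ^ (1 / 100 : ℝ)) ≤ x ^ (t / 2) := by
    rw [Real.rpow_def_of_pos hx0]
    apply Real.exp_le_exp.2
    linarith
  have h6 : x ^ t = x ^ (t / 2) * x ^ (t / 2) := by
    rw [← Real.rpow_add hx0]
    congr 1
    ring
  rw [h6]
  nlinarith

/-- **(Y)**: the lower bound for the weights of the forms over a fixed polygon -/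
theorem y_lower : ∃ κ : ℝ, 0 < κ ∧ ∀ p : Par, p.Ok κ → ∃ t₁ : ℝ, 0 < t₁ ∧ ∀ t : ℝ, 0 < t →
    t ≤ t₁ → ∃ c : ℝ, 0 < c ∧ ∃ X₀ : ℕ, ∀ X ≥ X₀, ∀ u : Fin 5 → ℤ × ℤ, p.GP X u →
    c * X * (∏ j, (2 : ℝ) ^ (dt (u j) (u (j + 1))).natAbs.primeFactors.card /
        ((dt (u j) (u (j + 1))).natAbs : ℝ)) * Real.log X ^ (-(299 / 80) : ℝ) ≤
      ∑ τ ∈ ((p.at' t).T X).filter (fun τ => τ.u = u),
        ∏ j, cm (wy (PP X) ((p.at' t).Y X)) (τ.y j) := by
  obtain ⟨c, Xm, hc0, hc1, hXm2, hmin⟩ := EQ.min_fam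
  obtain ⟨k, hsieve⟩ := y_sieve
  obtain ⟨c2, hc2, hprod⟩ := prod_ge2 5 (15 / 2) 20 5120 (by norm_num) (by norm_num) (by norm_num)
    (by norm_num)
  refine ⟨c / 44, by positivity, fun p hp => ?_⟩
  refine ⟨min 1 (c / (8 * (k + 1))), by positivity, fun t ht ht1 => ?_⟩
  have htle : t ≤ 1 := ht1.trans (min_le_left _ _)
  have htk : t * k ≤ c / 8 := by
    have h1 := ht1.trans (min_le_right _ _)
    have hk0 : (0 : ℝ) ≤ k := Nat.cast_nonneg _
    calc t * k ≤ c / (8 * (k + 1)) * k := mul_le_mul_of_nonneg_right h1 hk0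
      _ ≤ c / (8 * (k + 1)) * (k + 1) := by
          apply mul_le_mul_of_nonneg_left _ (by positivity)
          linarith
      _ = c / 8 := by field_simp
  -- the conditions on X
  have ev1 := ev_PP 20
  have ev2 := ev_PY t ht
  have ev3 := ev_log (8000 / c2) 4 (c / 2) (by positivity)
  have ev4 : ∀ᶠ x : ℝ in atTop, (1 : ℝ) ≤ Real.log x :=
    Real.tendsto_log_atTop.eventually_ge_atTop _
  obtain ⟨x₀, hx₀⟩ := eventually_atTop.1 (ev1.and (ev2.and (ev3.and (ev4.and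
    (eventually_ge_atTop (2 : ℝ))))))
  refine ⟨c2 / 8000, by positivity, max Xm ⌈x₀⌉₊, ?_⟩
  intro X hX u hu
  have hXm : Xm ≤ X := (le_max_left _ _).trans hX
  have hXx : x₀ ≤ (X : ℝ) := (Nat.le_ceil x₀).trans (by exact_mod_cast (le_max_right _ _).trans hX)
  obtain ⟨q1, q2, q3, q4, q5⟩ := hx₀ (X : ℝ) hXx
  have hX0 : (0 : ℝ) < X := by linarith
  have hX1 : (1 : ℝ) ≤ X := by linarith
  have hX1' : 1 ≤ X := by exact_mod_cast hX1
  set Lg := Real.log (X : ℝ) with hLg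
  have hLg0 : 0 < Lg := by linarith
  have hgu := hu.gu
  -- P
  have hPdef : PP X = Real.exp (Lg ^ (1 / 100 : ℝ)) := rfl
  have hP20 : 20 * Lg ≤ PP X := by rw [hPdef]; exact q1
  have hP10 : 10 ≤ PP X := by linarith
  have hP0 : 0 < PP X := by linarith
  have hlogP : Real.log (PP X) = Lg ^ (1 / 100 : ℝ) := by rw [hPdef, Real.log_exp]
  -- Y
  have hYdef : (p.at' t).Y X = (X : ℝ) ^ t := rfl
  have hPY' : PP X ≤ (X : ℝ) ^ t - 1 := by rw [hPdef]; exact q2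
  set Y : ℕ := ⌊(X : ℝ) ^ t⌋₊ with hY
  have hXt0 : (0 : ℝ) ≤ (X : ℝ) ^ t := by positivity
  have hYle : (Y : ℝ) ≤ (X : ℝ) ^ t := Nat.floor_le hXt0
  have hYgt : (X : ℝ) ^ t < Y + 1 := Nat.lt_floor_add_one _
  have hPYn : PP X ≤ Y := by linarith
  have hY1 : 1 ≤ Y := by
    have : (1 : ℝ) ≤ Y := by linarith
    exact_mod_cast this
  have hYX : (Y : ℝ) ≤ X := by
    refine hYle.trans ?_
    calc (X : ℝ) ^ t ≤ (X : ℝ) ^ (1 : ℝ) := Real.rpow_le_rpow_of_exponent_le hX1 htle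
      _ = X := Real.rpow_one _
  have hYk : (Y : ℝ) ^ k ≤ (X : ℝ) ^ (c / 8) := by
    calc (Y : ℝ) ^ k ≤ ((X : ℝ) ^ t) ^ k := by gcongr
      _ = (X : ℝ) ^ (t * k) := by rw [← Real.rpow_natCast, ← Real.rpow_mul hX0.le]
      _ ≤ _ := Real.rpow_le_rpow_of_exponent_le hX1 htk
  have hYiff : ∀ l : ℕ, (l : ℝ) ≤ (p.at' t).Y X ↔ l ≤ Y := fun l => by
    rw [hYdef]
    exact (Nat.le_floor_iff hXt0).symm
  have hPYr : PP X ≤ (p.at' t).Y X := by
    rw [hYdef]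
    linarith
  -- the family
  obtain ⟨O, hO1, hO2, hO3⟩ := hmin X hXm
  have hprodq := prod_ej_le hp hX1' hu
  have h11 : (X : ℝ) ^ (11 * (c / 44)) = (X : ℝ) ^ (c / 4) := by
    congr 1
    ring
  rw [h11] at hprodq
  have hlev : ((∏ q ∈ pA u, q : ℕ) : ℝ) ^ 2 * (Y : ℝ) ^ (2 * k) ≤ (X : ℝ) ^ c := by
    calc _ ≤ ((X : ℝ) ^ (c / 4)) ^ 2 * ((X : ℝ) ^ (c / 8)) ^ 2 := by
          rw [pow_mul' (Y : ℝ) 2 k]
          gcongr
      _ = (X : ℝ) ^ (3 * c / 4) := by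
          rw [← Real.rpow_natCast, ← Real.rpow_natCast, ← Real.rpow_mul hX0.le,
            ← Real.rpow_mul hX0.le, ← Real.rpow_add hX0]
          congr 1
          push_cast
          ring
      _ ≤ (X : ℝ) ^ c := Real.rpow_le_rpow_of_exponent_le hX1 (by linarith)
  have s1 := hsieve O ((X : ℝ) ^ c) ((X : ℝ) ^ (1 - c)) (PP X) u Y hO3 (by positivity) hgu hY1 hlev
  have s2 := y_sum (t := t) u hu O hO1 Y hYiff hPYr
  -- the densities
  have hκ : 11 * (c / 44) ≤ 1 / 2 := by linarith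
  have hcard := card_pA_le hp hX1' hu hκ
  have d1 := prod_MV_ok hgu hcard hP20 hP10
  have d2 := hprod (PP X) Y (yS u Y) (fun p => EQ.MV (p ^ 2) (xv (bp (PP X) p) u p)) (by linarith)
    hPYn (fun q hq => by
      obtain ⟨h1, h2, h3, _⟩ := mem_yS.1 hq
      exact ⟨h1, h2, by exact_mod_cast h3⟩)
    (fun q hq => by
      obtain ⟨h1, h2, h3, _⟩ := mem_yS.1 hq
      obtain ⟨k1, k2, k3⟩ := MV_xv h1 h2 (bp (PP X) q) (bp_bd (PP X) q).1 (bp_bd (PP X) q).2 u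
        (fun j => hgu.prim q h1 j)
      refine ⟨k1, k2, k3.trans (le_of_eq ?_)⟩
      unfold bp
      split_ifs <;> ring)
  set M1 := ∏ q ∈ pA u, EQ.MV (q ^ 2) (iov u (ix u q) q) with hM1
  set M2 := ∏ p_1 ∈ yS u Y, (1 - EQ.MV (p_1 ^ 2) (xv (bp (PP X) p_1) u p_1)) with hM2
  set E := ∏ j, (2 : ℝ) ^ (ej u j).primeFactors.card / (ej u j : ℝ) with hE
  have hE0 : 0 < E := by
    rw [hE]
    apply Finset.prod_pos
    intro j _
    have h1 := Nat.pos_of_ne_zero (hgu.dp j).1.ne_zero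
    have h2 : (0 : ℝ) < (ej u j : ℝ) := by exact_mod_cast h1
    positivity
  have hElow : (X : ℝ) ^ (-(c / 4)) ≤ E := by
    have h1 : E = (2 : ℝ) ^ (∑ j, (ej u j).primeFactors.card) / ((∏ q ∈ pA u, q : ℕ) : ℝ) := by
      rw [hE, Finset.prod_div_distrib, Finset.prod_pow_eq_pow_sum, prod_q hgu]
    have hq0 : (0 : ℝ) < ((∏ q ∈ pA u, q : ℕ) : ℝ) := by
      exact_mod_cast Finset.prod_pos fun q hq => (pA_prime hq).pos
    rw [h1, Real.rpow_neg hX0.le, le_div_iff₀ hq0]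
    have h2 : (1 : ℝ) ≤ 2 ^ (∑ j, (ej u j).primeFactors.card) := one_le_pow₀ (by norm_num)
    have h3 : ((X : ℝ) ^ (c / 4))⁻¹ * ((∏ q ∈ pA u, q : ℕ) : ℝ) ≤ 1 := by
      rw [inv_mul_le_iff₀ (by positivity), mul_one]
      exact hprodq
    linarith
  set ℓ := Lg ^ (-(299 / 80) : ℝ) with hℓ
  have hℓ0 : 0 < ℓ := by positivity
  have hℓlow : 1 / Lg ^ 4 ≤ ℓ := by
    have h1 : Lg ^ (-4 : ℝ) ≤ ℓ := Real.rpow_le_rpow_of_exponent_le q4 (by norm_num)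
    have h2 : Lg ^ (-4 : ℝ) = 1 / Lg ^ 4 := by
      rw [Real.rpow_neg hLg0.le, ← Real.rpow_natCast, one_div]
      norm_num
    linarith
  have hM2low : c2 * ℓ ≤ M2 := by
    refine le_trans ?_ d2
    have h1 : Real.log (PP X) ^ (((15 / 2 : ℝ) - 5) / 2) = Lg ^ (1 / 80 : ℝ) := by
      rw [hlogP, ← Real.rpow_mul hLg0.le]
      norm_num
    have hlY : 0 < Real.log (Y : ℝ) := Real.log_pos (by linarith)
    have h2 : Lg ^ (-(15 / 4) : ℝ) ≤ Real.log (Y : ℝ) ^ (-(15 / 2 : ℝ) / 2) := by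
      have h3 : (-(15 / 2 : ℝ) / 2) = (-(15 / 4) : ℝ) := by norm_num
      rw [h3]
      exact Real.rpow_le_rpow_of_nonpos hlY (Real.log_le_log (by linarith) hYX) (by norm_num)
    rw [h1]
    have h4 : ℓ = Lg ^ (1 / 80 : ℝ) * Lg ^ (-(15 / 4) : ℝ) := by
      rw [hℓ, ← Real.rpow_add hLg0]
      norm_num
    rw [h4]
    calc c2 * (Lg ^ (1 / 80 : ℝ) * Lg ^ (-(15 / 4) : ℝ)) =
          c2 * Lg ^ (1 / 80 : ℝ) * Lg ^ (-(15 / 4) : ℝ) := by ring
      _ ≤ _ := mul_le_mul_of_nonneg_left h2 (by positivity)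
  have hM10 : 0 ≤ M1 := le_trans (by positivity) d1
  -- the main term
  have m1 : (X : ℝ) / 4000 * E * (c2 * ℓ) ≤ 1 / 2 * ((O.card : ℝ) * M1 * M2) := by
    have h1 : (X : ℝ) / 1000 * (1 / 2 * E) ≤ (O.card : ℝ) * M1 :=
      mul_le_mul hO2 d1 (by positivity) (Nat.cast_nonneg _)
    have h2 : (X : ℝ) / 1000 * (1 / 2 * E) * (c2 * ℓ) ≤ (O.card : ℝ) * M1 * M2 :=
      mul_le_mul h1 hM2low (by positivity) (mul_nonneg (Nat.cast_nonneg _) hM10)
    calc (X : ℝ) / 4000 * E * (c2 * ℓ) = 1 / 2 * ((X : ℝ) / 1000 * (1 / 2 * E) * (c2 * ℓ)) := by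
          ring
      _ ≤ _ := mul_le_mul_of_nonneg_left h2 (by norm_num)
  -- the error
  have m2 : (Y : ℝ) ^ k * (X : ℝ) ^ (1 - c) ≤ (X : ℝ) / 8000 * E * (c2 * ℓ) := by
    have h1 : (Y : ℝ) ^ k * (X : ℝ) ^ (1 - c) ≤ (X : ℝ) ^ (1 - 7 * c / 8) := by
      calc _ ≤ (X : ℝ) ^ (c / 8) * (X : ℝ) ^ (1 - c) :=
            mul_le_mul_of_nonneg_right hYk (by positivity)
        _ = _ := by
            rw [← Real.rpow_add hX0]
            congr 1
            ring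
    refine h1.trans ?_
    have h2 : (X : ℝ) / 8000 * (X : ℝ) ^ (-(c / 4)) * (c2 * (1 / Lg ^ 4)) ≤
        (X : ℝ) / 8000 * E * (c2 * ℓ) := by gcongr
    refine le_trans ?_ h2
    have e4 : Lg ^ (4 : ℝ) = Lg ^ 4 := by
      rw [← Real.rpow_natCast]
      norm_num
    have h3 : 8000 / c2 * Lg ^ 4 ≤ (X : ℝ) ^ (c / 2) := by
      rw [← e4]
      exact q3
    have h4 : (X : ℝ) ^ (1 - 7 * c / 8) * (X : ℝ) ^ (c / 2) ≤ (X : ℝ) * (X : ℝ) ^ (-(c / 4)) := by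
      rw [← Real.rpow_add hX0]
      calc (X : ℝ) ^ (1 - 7 * c / 8 + c / 2) ≤ (X : ℝ) ^ (1 + -(c / 4)) :=
            Real.rpow_le_rpow_of_exponent_le hX1 (by linarith)
        _ = _ := by rw [Real.rpow_add hX0, Real.rpow_one]
    have h5 : (X : ℝ) ^ (1 - 7 * c / 8) * (8000 / c2 * Lg ^ 4) ≤
        (X : ℝ) * (X : ℝ) ^ (-(c / 4)) :=
      (mul_le_mul_of_nonneg_left h3 (by positivity)).trans h4
    calc (X : ℝ) ^ (1 - 7 * c / 8) =
          (X : ℝ) ^ (1 - 7 * c / 8) * (8000 / c2 * Lg ^ 4) * (c2 / (8000 * Lg ^ 4)) := by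
          field_simp
      _ ≤ (X : ℝ) * (X : ℝ) ^ (-(c / 4)) * (c2 / (8000 * Lg ^ 4)) :=
          mul_le_mul_of_nonneg_right h5 (by positivity)
      _ = _ := by
          field_simp
  have fin : c2 / 8000 * X * E * ℓ = (X : ℝ) / 4000 * E * (c2 * ℓ) -
      (X : ℝ) / 8000 * E * (c2 * ℓ) := by ring
  have goalE : (∏ j, (2 : ℝ) ^ (dt (u j) (u (j + 1))).natAbs.primeFactors.card /
        ((dt (u j) (u (j + 1))).natAbs : ℝ)) = E := rfl
  rw [goalE, fin]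
  linarith

end Pool.Agent.PENT
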