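import Pool.Agent.Lib_helper97.PENT.Defs
import Pool.Agent.Lib_helper39.PEQ.QDefs

/-!
# PENT: definitions for the sieve over the forms, section 4 of OSP_S1 (helper8)
-/

set_option autoImplicit false

namespace Pool.Agent.PENT

open Finset

/-- the value at `u` of the form `v = (a, b, c)` -/
def qv (v : ℤ × ℤ × ℤ) (u : ℤ × ℤ) : ℤ := qf v.1 v.2.1 v.2.2 u

open Classical in
/-- the sieve variable at `p`, weight `b`: `1` if `p²` divides one of the `Q(u_j)`, otherwise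
`1 - ∏ b^[p ∣ Q(u_j)]` -/
noncomputable def xv (b : ℝ) (u : Fin 5 → ℤ × ℤ) (p : ℕ) (v : ℤ × ℤ × ℤ) : ℝ :=
  if ∃ j, ((p : ℤ) ^ 2) ∣ qv v (u j) then 1
  else 1 - ∏ j, if (p : ℤ) ∣ qv v (u j) then b else 1

/-- the condition at `p ∣ d_i`: `p` divides `Q(u_i)` (and `Q(u_(i+1))`) and none of the `y_j` -/
def okv (u : Fin 5 → ℤ × ℤ) (i : Fin 5) (p : ℕ) (v : ℤ × ℤ × ℤ) : Prop :=
  (p : ℤ) ∣ qv v (u i) ∧ ¬ ((p : ℤ) ^ 2) ∣ qv v (u i) ∧ ¬ ((p : ℤ) ^ 2) ∣ qv v (u (i + 1)) ∧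
    ∀ j, j ≠ i → j ≠ i + 1 → ¬ (p : ℤ) ∣ qv v (u j)

open Classical in
/-- its indicator -/
noncomputable def iov (u : Fin 5 → ℤ × ℤ) (i : Fin 5) (p : ℕ) (v : ℤ × ℤ × ℤ) : ℝ :=
  if okv u i p v then 1 else 0

end Pool.Agent.PENT
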