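import Mathlib

/-!
# PENT (MP_892e4c_nt, one-sided positive proportion): the deterministic frame (helper8)

1. the identity: an odd polygon of vectors with `d_j ∣ Q(u_j), Q(u_{j+1})` gives integers `n_j` for
which `∏ (n_j² + 1)` times a square is a square; so some `h (n_j² + 1) = 1`;
2. the dual step: a weight on the polygons with marginals bounded in `L^(1+η)` gives
`#{n ≤ x : h (n² + 1) = 1} ≥ c x`;
3. Jensen at the bases, the classes of pairs.
-/

set_option autoImplicit false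

namespace Pool.Agent.PENT

open Finset

/-! ### 1. The identity -/

/-- the value `Q(u)` of the form `Q = (a, b, c)`: `a X² + 2 b X Y + c Y²` -/
def qf (a b c : ℤ) (u : ℤ × ℤ) : ℤ := a * u.1 ^ 2 + 2 * b * u.1 * u.2 + c * u.2 ^ 2

/-- the bilinear form `Q(u, v)` -/
def bf (a b c : ℤ) (u v : ℤ × ℤ) : ℤ :=
  a * u.1 * v.1 + b * (u.1 * v.2 + u.2 * v.1) + c * u.2 * v.2

/-- the determinant of `u, v` -/
def dt (u v : ℤ × ℤ) : ℤ := u.1 * v.2 - u.2 * v.1

theorem qf_mul_qf {a b c : ℤ} (h : a * c - b ^ 2 = 1) (u v : ℤ × ℤ) :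
    qf a b c u * qf a b c v = bf a b c u v ^ 2 + dt u v ^ 2 := by
  unfold qf bf dt
  linear_combination (u.1 * v.2 - u.2 * v.1) ^ 2 * h

/-- the integer `n = Q(u,v)/det(u,v)` of a good edge -/
theorem edge_exists {a b c : ℤ} (h : a * c - b ^ 2 = 1) {u v : ℤ × ℤ} (h1 : dt u v ∣ qf a b c u)
    (h2 : dt u v ∣ qf a b c v) : ∃ n : ℤ, bf a b c u v = n * dt u v := by
  have h3 : dt u v ^ 2 ∣ bf a b c u v ^ 2 := by
    have h4 : dt u v ^ 2 ∣ qf a b c u * qf a b c v := by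
      rw [sq]; exact mul_dvd_mul h1 h2
    rw [qf_mul_qf h] at h4
    exact (Int.dvd_iff_dvd_of_dvd_add h4).2 (dvd_refl _)
  obtain ⟨n, hn⟩ := (Int.pow_dvd_pow_iff (by norm_num)).1 h3
  exact ⟨n, by rw [hn]; ring⟩

theorem edge_eq {a b c : ℤ} (h : a * c - b ^ 2 = 1) {u v : ℤ × ℤ} {n : ℤ}
    (hn : bf a b c u v = n * dt u v) :
    (n ^ 2 + 1) * dt u v ^ 2 = qf a b c u * qf a b c v := by
  rw [qf_mul_qf h, hn]; ring

/-- completely multiplicative with values `±1` (on the positive integers) -/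
structure CM (h : ℕ → ℤ) : Prop where
  mul : ∀ m n, 0 < m → 0 < n → h (m * n) = h m * h n
  val : ∀ n, 0 < n → h n = 1 ∨ h n = -1

theorem CM.sq {h : ℕ → ℤ} (hh : CM h) {m : ℕ} (hm : 0 < m) : h (m ^ 2) = 1 := by
  rw [_root_.sq, hh.mul m m hm hm]
  rcases hh.val m hm with h1 | h1 <;> rw [h1] <;> norm_num

theorem CM.one {h : ℕ → ℤ} (hh : CM h) : h 1 = 1 := by
  have := hh.sq (m := 1) one_pos
  simpa using this

theorem CM.prod {h : ℕ → ℤ} (hh : CM h) {ι : Type} (s : Finset ι) (f : ι → ℕ)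
    (hf : ∀ i ∈ s, 0 < f i) : h (∏ i ∈ s, f i) = ∏ i ∈ s, h (f i) := by
  classical
  induction s using Finset.induction_on with
  | empty => simpa using hh.one
  | insert i s hi ih =>
    rw [Finset.prod_insert hi, Finset.prod_insert hi, hh.mul _ _ (hf i (mem_insert_self i s))
      (Finset.prod_pos (fun j hj => hf j (mem_insert_of_mem hj))),
      ih (fun j hj => hf j (mem_insert_of_mem hj))]

/-- THE POLYGON IDENTITY: in an odd closed polygon of good edges some `h (n_j² + 1)` is `+1` -/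
theorem polygon {h : ℕ → ℤ} (hh : CM h) {k : ℕ} [NeZero k] (hk : Odd k) {a b c : ℤ}
    (hQ : a * c - b ^ 2 = 1) (u : Fin k → ℤ × ℤ) (hd : ∀ j, dt (u j) (u (j + 1)) ≠ 0)
    (n : Fin k → ℤ) (hn : ∀ j, bf a b c (u j) (u (j + 1)) = n j * dt (u j) (u (j + 1))) :
    ∃ j, h ((n j).natAbs ^ 2 + 1) = 1 := by
  by_contra hc
  push Not at hc
  have hall : ∀ j, h ((n j).natAbs ^ 2 + 1) = -1 := fun j =>
    (hh.val _ (Nat.succ_pos _)).resolve_left (hc j)
  -- the identity in the natural numbers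
  have e1 : ∀ j, ((n j).natAbs ^ 2 + 1) * (dt (u j) (u (j + 1))).natAbs ^ 2 =
      (qf a b c (u j)).natAbs * (qf a b c (u (j + 1))).natAbs := by
    intro j
    have h1 := congrArg Int.natAbs (edge_eq hQ (hn j))
    rw [Int.natAbs_mul, Int.natAbs_mul, Int.natAbs_pow] at h1
    have h2 : (n j ^ 2 + 1).natAbs = (n j).natAbs ^ 2 + 1 := by
      rw [← Int.natAbs_pow]
      exact Int.natAbs_add_of_nonneg (sq_nonneg _) zero_le_one
    rw [h2] at h1
    exact h1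
  have hq : ∀ j, 0 < (qf a b c (u j)).natAbs := by
    intro j
    rw [Int.natAbs_pos]
    intro h0
    have h1 := e1 j
    rw [h0, Int.natAbs_zero, zero_mul] at h1
    have h2 : 0 < ((n j).natAbs ^ 2 + 1) * (dt (u j) (u (j + 1))).natAbs ^ 2 := by
      have := Int.natAbs_pos.2 (hd j)
      positivity
    omega
  have e2 : (∏ j, ((n j).natAbs ^ 2 + 1)) * (∏ j, (dt (u j) (u (j + 1))).natAbs) ^ 2 =
      (∏ j, (qf a b c (u j)).natAbs) ^ 2 := by
    rw [← Finset.prod_pow, ← Finset.prod_mul_distrib, Finset.prod_congr rfl (fun j _ => e1 j),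
      Finset.prod_mul_distrib, sq]
    congr 1
    exact Fintype.prod_equiv (Equiv.addRight (1 : Fin k)) _ _ (fun j => rfl)
  have p1 : 0 < ∏ j, ((n j).natAbs ^ 2 + 1) := Finset.prod_pos (fun j _ => Nat.succ_pos _)
  have p2 : 0 < ∏ j, (dt (u j) (u (j + 1))).natAbs :=
    Finset.prod_pos (fun j _ => Int.natAbs_pos.2 (hd j))
  have p3 : 0 < ∏ j, (qf a b c (u j)).natAbs := Finset.prod_pos (fun j _ => hq j)
  have e3 := congrArg h e2
  rw [hh.mul _ _ p1 (pow_pos p2 2), hh.sq p2, hh.sq p3, mul_one,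
    hh.prod _ _ (fun j _ => Nat.succ_pos _), Finset.prod_congr rfl (fun j _ => hall j),
    Finset.prod_const, Finset.card_univ, Fintype.card_fin, hk.neg_one_pow] at e3
  norm_num at e3

/-! ### 2. The dual step -/

/-- the marginal: the weight of the `τ` with `N τ = n` -/
def mar {Tau : Type} (s : Finset Tau) (w : Tau → ℝ) (N : Tau → ℕ) (n : ℕ) : ℝ :=
  ∑ τ ∈ s.filter (fun τ => N τ = n), w τ

theorem mar_nonneg {Tau : Type} (s : Finset Tau) {w : Tau → ℝ} (hw : ∀ τ, 0 ≤ w τ) (N : Tau → ℕ)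
    (n : ℕ) : 0 ≤ mar s w N n := Finset.sum_nonneg fun τ _ => hw τ

/-- if every `τ` of positive weight has some `N j τ ∈ E` and the marginals are bounded in
`L^(1+η)` by the uniform measure on `x` points then `E` has at least `c x` elements -/
theorem dual_step {Tau : Type} (s : Finset Tau) (w : Tau → ℝ) (hw : ∀ τ, 0 ≤ w τ) {k : ℕ}
    (hk : 0 < k) (N : Fin k → Tau → ℕ) (E : Finset ℕ)
    (hE : ∀ τ ∈ s, 0 < w τ → ∃ j, N j τ ∈ E) {x η K : ℝ} (hx : 0 < x) (hη : 0 < η) (hK : 0 < K)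
    (hS : 0 < ∑ τ ∈ s, w τ)
    (hm : ∀ j, ∑ n ∈ E, mar s w (N j) n ^ (1 + η) ≤ K * (∑ τ ∈ s, w τ) ^ (1 + η) * x ^ (-η)) :
    x * ((k : ℝ) ^ (1 + η) * K) ^ (-(1 / η)) ≤ E.card := by
  classical
  set S : ℝ := ∑ τ ∈ s, w τ with hSd
  have hk0 : (0 : ℝ) < k := by exact_mod_cast hk
  -- the sum of the masses of `E`
  have h1 : S ≤ ∑ j : Fin k, ∑ n ∈ E, mar s w (N j) n := by
    have h2 : ∀ j : Fin k, ∑ n ∈ E, mar s w (N j) n = ∑ τ ∈ s, if N j τ ∈ E then w τ else 0 := by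
      intro j
      rw [← Finset.sum_filter]
      unfold mar
      rw [← Finset.sum_fiberwise_of_maps_to (s := s.filter (fun τ => N j τ ∈ E)) (t := E)
        (g := N j) (fun τ hτ => (Finset.mem_filter.1 hτ).2)]
      apply Finset.sum_congr rfl
      intro n hn
      apply Finset.sum_congr _ (fun _ _ => rfl)
      ext τ
      simp only [Finset.mem_filter]
      constructor
      · rintro ⟨a1, a2⟩
        exact ⟨⟨a1, by rw [a2]; exact hn⟩, a2⟩
      · rintro ⟨⟨a1, _⟩, a2⟩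
        exact ⟨a1, a2⟩
    rw [Finset.sum_congr rfl (fun j _ => h2 j), Finset.sum_comm, hSd]
    apply Finset.sum_le_sum
    intro τ hτ
    rcases (hw τ).eq_or_lt with h0 | h0
    · rw [← h0]
      apply Finset.sum_nonneg
      intro j _
      split_ifs <;> exact le_rfl
    · obtain ⟨j, hj⟩ := hE τ hτ h0
      calc w τ = if N j τ ∈ E then w τ else 0 := by rw [if_pos hj]
        _ ≤ ∑ j : Fin k, if N j τ ∈ E then w τ else 0 := by
          apply Finset.single_le_sum (f := fun j : Fin k => if N j τ ∈ E then w τ else 0)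
            (fun j _ => ?_) (Finset.mem_univ j)
          show 0 ≤ if N j τ ∈ E then w τ else 0
          split_ifs
          · exact hw τ
          · exact le_rfl
  have h3 : ∃ j ∈ (Finset.univ : Finset (Fin k)), S / k ≤ ∑ n ∈ E, mar s w (N j) n := by
    apply Finset.exists_le_of_sum_le
    · exact ⟨⟨0, hk⟩, Finset.mem_univ _⟩
    · rw [Finset.sum_const, Finset.card_univ, Fintype.card_fin, nsmul_eq_mul]
      calc (k : ℝ) * (S / k) = S := by field_simp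
        _ ≤ _ := h1
  obtain ⟨j, _, hj⟩ := h3
  have hp : 1 ≤ 1 + η := by linarith
  have h4 := Real.rpow_sum_le_const_mul_sum_rpow_of_nonneg (s := E)
    (f := fun n => mar s w (N j) n) hp (fun n _ => mar_nonneg s hw (N j) n)
  rw [show (1 + η - 1 : ℝ) = η by ring] at h4
  have hSk : 0 < S / k := div_pos hS hk0
  have h5 : (S / k) ^ (1 + η) ≤ (∑ n ∈ E, mar s w (N j) n) ^ (1 + η) :=
    Real.rpow_le_rpow hSk.le hj (by linarith)
  have hEc : (0 : ℝ) ≤ (E.card : ℝ) ^ η := Real.rpow_nonneg (Nat.cast_nonneg _) _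
  have h6 : (S / k) ^ (1 + η) ≤ (E.card : ℝ) ^ η * (K * S ^ (1 + η) * x ^ (-η)) :=
    (h5.trans h4).trans (mul_le_mul_of_nonneg_left (hm j) hEc)
  rw [Real.div_rpow hS.le hk0.le, Real.rpow_neg hx.le] at h6
  have hS1 : 0 < S ^ (1 + η) := Real.rpow_pos_of_pos hS _
  have hk1 : 0 < (k : ℝ) ^ (1 + η) := Real.rpow_pos_of_pos hk0 _
  have hx1 : 0 < x ^ η := Real.rpow_pos_of_pos hx _
  have h7 : x ^ η ≤ ((k : ℝ) ^ (1 + η) * K) * (E.card : ℝ) ^ η := by
    rw [div_le_iff₀ hk1] at h6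
    have h8 : S ^ (1 + η) * x ^ η ≤ S ^ (1 + η) * (((k : ℝ) ^ (1 + η) * K) * (E.card : ℝ) ^ η) := by
      calc S ^ (1 + η) * x ^ η ≤
          ((E.card : ℝ) ^ η * (K * S ^ (1 + η) * (x ^ η)⁻¹) * (k : ℝ) ^ (1 + η)) * x ^ η :=
            mul_le_mul_of_nonneg_right h6 hx1.le
        _ = S ^ (1 + η) * (((k : ℝ) ^ (1 + η) * K) * (E.card : ℝ) ^ η) := by
            field_simp
    exact le_of_mul_le_mul_left h8 hS1
  have hA : 0 < (k : ℝ) ^ (1 + η) * K := mul_pos hk1 hK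
  have h9 : (x * ((k : ℝ) ^ (1 + η) * K) ^ (-(1 / η))) ^ η ≤ (E.card : ℝ) ^ η := by
    rw [Real.mul_rpow hx.le (Real.rpow_nonneg hA.le _), ← Real.rpow_mul hA.le,
      show -(1 / η) * η = -1 by field_simp, Real.rpow_neg_one]
    calc x ^ η * ((k : ℝ) ^ (1 + η) * K)⁻¹ ≤
        (((k : ℝ) ^ (1 + η) * K) * (E.card : ℝ) ^ η) * ((k : ℝ) ^ (1 + η) * K)⁻¹ :=
          mul_le_mul_of_nonneg_right h7 (inv_nonneg.2 hA.le)
      _ = (E.card : ℝ) ^ η := by field_simp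
  exact (Real.rpow_le_rpow_iff (by positivity) (Nat.cast_nonneg _) hη).1 h9

/-! ### 3. Jensen at the bases and the classes of pairs -/

/-- the weight over the base `y` -/
def wb {Tau B : Type} [DecidableEq B] (s : Finset Tau) (w : Tau → ℝ) (b : Tau → B) (y : B) : ℝ :=
  ∑ τ ∈ s.filter (fun τ => b τ = y), w τ

theorem wb_nonneg {Tau B : Type} [DecidableEq B] (s : Finset Tau) {w : Tau → ℝ}
    (hw : ∀ τ, 0 ≤ w τ) (b : Tau → B) (y : B) : 0 ≤ wb s w b y :=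
  Finset.sum_nonneg fun τ _ => hw τ

/-- a weighted form of Jensen's inequality -/
theorem jensen_aux {ι : Type} (t : Finset ι) (v f : ι → ℝ) (hv : ∀ i, 0 ≤ v i)
    (hf : ∀ i, 0 ≤ f i) {η : ℝ} (hη : 0 < η) :
    (∑ i ∈ t, v i * f i) ^ (1 + η) ≤ (∑ i ∈ t, v i) ^ η * ∑ i ∈ t, v i * f i ^ (1 + η) := by
  have hp : (1 : ℝ) ≤ 1 + η := by linarith
  have hp0 : (0 : ℝ) < 1 + η := by linarith
  have h1 := Real.inner_le_weight_mul_Lp_of_nonneg t hp v f hv hf
  have a1 : 0 ≤ ∑ i ∈ t, v i := Finset.sum_nonneg fun i _ => hv i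
  have a2 : 0 ≤ ∑ i ∈ t, v i * f i ^ (1 + η) :=
    Finset.sum_nonneg fun i _ => mul_nonneg (hv i) (Real.rpow_nonneg (hf i) _)
  have a3 : 0 ≤ ∑ i ∈ t, v i * f i := Finset.sum_nonneg fun i _ => mul_nonneg (hv i) (hf i)
  have h2 := Real.rpow_le_rpow a3 h1 hp0.le
  rw [Real.mul_rpow (Real.rpow_nonneg a1 _) (Real.rpow_nonneg a2 _), ← Real.rpow_mul a1,
    ← Real.rpow_mul a2, inv_mul_cancel₀ hp0.ne', Real.rpow_one,
    show (1 - (1 + η)⁻¹) * (1 + η) = η by field_simp; ring] at h2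
  exact h2

/-- Jensen at the bases: `n = φ(b τ)`, the weights `ν` of the bases over one `n` have sum `≤ C` -/
theorem jensen_base {Tau B : Type} [DecidableEq B] (s : Finset Tau) (w : Tau → ℝ)
    (hw : ∀ τ, 0 ≤ w τ) (b : Tau → B) (φ : B → ℕ) (ν : B → ℝ) (hν : ∀ y, 0 < ν y) {C η : ℝ}
    (hη : 0 < η) (hC : ∀ n, ∑ y ∈ (s.image b).filter (fun y => φ y = n), ν y ≤ C)
    (E : Finset ℕ) :
    ∑ n ∈ E, mar s w (fun τ => φ (b τ)) n ^ (1 + η) ≤
      C ^ η * ∑ τ ∈ s, w τ * (wb s w b (b τ) / ν (b τ)) ^ η := by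
  classical
  have hmar : ∀ n, mar s w (fun τ => φ (b τ)) n =
      ∑ y ∈ (s.image b).filter (fun y => φ y = n), ν y * (wb s w b y / ν y) := by
    intro n
    unfold mar
    rw [← Finset.sum_fiberwise_of_maps_to (s := s.filter (fun τ => φ (b τ) = n))
      (t := (s.image b).filter (fun y => φ y = n)) (g := b)]
    · apply Finset.sum_congr rfl
      intro y hy
      rw [mul_div_cancel₀ _ (hν y).ne']
      unfold wb
      apply Finset.sum_congr _ (fun _ _ => rfl)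
      ext τ
      simp only [Finset.mem_filter]
      constructor
      · rintro ⟨⟨a1, _⟩, a2⟩
        exact ⟨a1, a2⟩
      · rintro ⟨a1, a2⟩
        refine ⟨⟨a1, ?_⟩, a2⟩
        rw [a2]; exact (Finset.mem_filter.1 hy).2
    · intro τ hτ
      rw [Finset.mem_filter] at hτ ⊢
      exact ⟨Finset.mem_image_of_mem b hτ.1, hτ.2⟩
  have hone : ∀ n, mar s w (fun τ => φ (b τ)) n ^ (1 + η) ≤
      C ^ η * ∑ y ∈ (s.image b).filter (fun y => φ y = n),
        wb s w b y * (wb s w b y / ν y) ^ η := by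
    intro n
    rw [hmar n]
    have h1 := jensen_aux ((s.image b).filter (fun y => φ y = n)) ν (fun y => wb s w b y / ν y)
      (fun y => (hν y).le) (fun y => div_nonneg (wb_nonneg s hw b y) (hν y).le) hη
    refine h1.trans ?_
    have a1 : 0 ≤ ∑ y ∈ (s.image b).filter (fun y => φ y = n), ν y :=
      Finset.sum_nonneg fun y _ => (hν y).le
    have e1 : ∑ y ∈ (s.image b).filter (fun y => φ y = n),
        ν y * (wb s w b y / ν y) ^ (1 + η) =
        ∑ y ∈ (s.image b).filter (fun y => φ y = n), wb s w b y * (wb s w b y / ν y) ^ η := by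
      apply Finset.sum_congr rfl
      intro y _
      have h0 : 0 ≤ wb s w b y / ν y := div_nonneg (wb_nonneg s hw b y) (hν y).le
      rw [Real.rpow_add' h0 (by linarith), Real.rpow_one, ← mul_assoc,
        mul_div_cancel₀ _ (hν y).ne']
    rw [e1]
    apply mul_le_mul_of_nonneg_right (Real.rpow_le_rpow a1 (hC n) hη.le)
    exact Finset.sum_nonneg fun y _ => mul_nonneg (wb_nonneg s hw b y)
      (Real.rpow_nonneg (div_nonneg (wb_nonneg s hw b y) (hν y).le) _)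
  have hC0 : 0 ≤ C := by
    have := hC 0
    exact (Finset.sum_nonneg fun y _ => (hν y).le).trans this
  calc ∑ n ∈ E, mar s w (fun τ => φ (b τ)) n ^ (1 + η)
      ≤ ∑ n ∈ E, C ^ η * ∑ y ∈ (s.image b).filter (fun y => φ y = n),
        wb s w b y * (wb s w b y / ν y) ^ η := Finset.sum_le_sum fun n _ => hone n
    _ = C ^ η * ∑ y ∈ (s.image b).filter (fun y => φ y ∈ E),
        wb s w b y * (wb s w b y / ν y) ^ η := by
      rw [← Finset.mul_sum]
      congr 1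
      rw [← Finset.sum_fiberwise_of_maps_to (s := (s.image b).filter (fun y => φ y ∈ E)) (t := E)
        (g := φ) (fun y hy => (Finset.mem_filter.1 hy).2)]
      apply Finset.sum_congr rfl
      intro n hn
      apply Finset.sum_congr _ (fun _ _ => rfl)
      ext y
      simp only [Finset.mem_filter]
      constructor
      · rintro ⟨a1, a2⟩
        exact ⟨⟨a1, by rw [a2]; exact hn⟩, a2⟩
      · rintro ⟨⟨a1, _⟩, a2⟩
        exact ⟨a1, a2⟩
    _ ≤ C ^ η * ∑ y ∈ s.image b, wb s w b y * (wb s w b y / ν y) ^ η := by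
      apply mul_le_mul_of_nonneg_left _ (Real.rpow_nonneg hC0 _)
      apply Finset.sum_le_sum_of_subset_of_nonneg (Finset.filter_subset _ _)
      intro y _ _
      exact mul_nonneg (wb_nonneg s hw b y)
        (Real.rpow_nonneg (div_nonneg (wb_nonneg s hw b y) (hν y).le) _)
    _ = C ^ η * ∑ τ ∈ s, w τ * (wb s w b (b τ) / ν (b τ)) ^ η := by
      congr 1
      rw [← Finset.sum_fiberwise_of_maps_to (s := s) (t := s.image b) (g := b)
        (fun τ hτ => Finset.mem_image_of_mem b hτ)]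
      apply Finset.sum_congr rfl
      intro y _
      rw [wb, Finset.sum_mul]
      apply Finset.sum_congr rfl
      intro τ hτ
      rw [(Finset.mem_filter.1 hτ).2]
      rfl

open Classical in
/-- the part of `M(τ)` of the pairs in the class `r` -/
noncomputable def cls {Tau B : Type} [DecidableEq B] (s : Finset Tau) (w : Tau → ℝ) (b : Tau → B)
    (ν : B → ℝ) (r : Tau → Tau → Prop) (τ : Tau) : ℝ :=
  (∑ τ' ∈ s.filter (fun τ' => b τ' = b τ ∧ r τ τ'), w τ') / ν (b τ)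

theorem cls_nonneg {Tau B : Type} [DecidableEq B] (s : Finset Tau) {w : Tau → ℝ}
    (hw : ∀ τ, 0 ≤ w τ) (b : Tau → B) {ν : B → ℝ} (hν : ∀ y, 0 < ν y) (r : Tau → Tau → Prop)
    (τ : Tau) : 0 ≤ cls s w b ν r τ :=
  div_nonneg (Finset.sum_nonneg fun τ _ => hw τ) (hν _).le

/-- splitting in a class and the rest -/
theorem class_split {Tau B : Type} [DecidableEq B] (s : Finset Tau) (w : Tau → ℝ)
    (hw : ∀ τ, 0 ≤ w τ) (b : Tau → B) (ν : B → ℝ) (hν : ∀ y, 0 < ν y) (r : Tau → Tau → Prop)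
    {η : ℝ} (h0 : 0 < η) (h1 : η ≤ 1) :
    ∑ τ ∈ s, w τ * (wb s w b (b τ) / ν (b τ)) ^ η ≤
      (∑ τ ∈ s, w τ * cls s w b ν r τ ^ η) +
        ∑ τ ∈ s, w τ * cls s w b ν (fun τ τ' => ¬ r τ τ') τ ^ η := by
  classical
  rw [← Finset.sum_add_distrib]
  apply Finset.sum_le_sum
  intro τ _
  rw [← mul_add]
  apply mul_le_mul_of_nonneg_left _ (hw τ)
  have e1 : wb s w b (b τ) / ν (b τ) =
      cls s w b ν r τ + cls s w b ν (fun τ τ' => ¬ r τ τ') τ := by
    unfold cls wb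
    rw [← add_div]
    congr 1
    rw [← Finset.sum_filter_add_sum_filter_not (s.filter (fun τ' => b τ' = b τ)) (fun τ' => r τ τ'),
      Finset.filter_filter, Finset.filter_filter]
    refine congrArg₂ (· + ·) ?_ ?_ <;>
      (apply Finset.sum_congr _ (fun _ _ => rfl); ext τ'; simp only [Finset.mem_filter])
  rw [e1]
  exact Real.rpow_add_le_add_rpow (cls_nonneg s hw b hν _ τ) (cls_nonneg s hw b hν _ τ) h0.le h1

/-- Hölder for one class -/
theorem class_holder {Tau B : Type} [DecidableEq B] (s : Finset Tau) (w : Tau → ℝ)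
    (hw : ∀ τ, 0 ≤ w τ) (b : Tau → B) (ν : B → ℝ) (hν : ∀ y, 0 < ν y) (r : Tau → Tau → Prop)
    {η : ℝ} (h0 : 0 < η) (h1 : η ≤ 1) :
    ∑ τ ∈ s, w τ * cls s w b ν r τ ^ η ≤
      (∑ τ ∈ s, w τ) ^ (1 - η) * (∑ τ ∈ s, w τ * cls s w b ν r τ) ^ η := by
  have hp : (1 : ℝ) ≤ 1 / η := by rw [le_div_iff₀ h0, one_mul]; exact h1
  have h2 := Real.inner_le_weight_mul_Lp_of_nonneg s hp w (fun τ => cls s w b ν r τ ^ η) hw
    (fun τ => Real.rpow_nonneg (cls_nonneg s hw b hν r τ) _)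
  have e1 : ∀ τ, (cls s w b ν r τ ^ η) ^ (1 / η) = cls s w b ν r τ := by
    intro τ
    rw [← Real.rpow_mul (cls_nonneg s hw b hν r τ), mul_one_div_cancel h0.ne', Real.rpow_one]
  simp only [e1] at h2
  rw [one_div, inv_inv] at h2
  exact h2

/-- the diagonal class: at most `m` members, of weight at most `L w(τ)` -/
theorem class_diag {Tau B : Type} [DecidableEq B] (s : Finset Tau) (w : Tau → ℝ)
    (hw : ∀ τ, 0 ≤ w τ) (b : Tau → B) (ν : B → ℝ) (hν : ∀ y, 0 < ν y) (r : Tau → Tau → Prop)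
    {η m L : ℝ} (h0 : 0 < η) (hm : 0 ≤ m) (hL : 0 ≤ L)
    (h1 : ∀ τ ∈ s, ∃ t : Finset Tau, (t.card : ℝ) ≤ m ∧ ∀ τ' ∈ s, b τ' = b τ → r τ τ' →
      τ' ∈ t ∧ w τ' ≤ L * w τ) :
    ∑ τ ∈ s, w τ * cls s w b ν r τ ^ η ≤ (m * L) ^ η * ∑ τ ∈ s, w τ * (w τ / ν (b τ)) ^ η := by
  classical
  rw [Finset.mul_sum]
  apply Finset.sum_le_sum
  intro τ hτ
  obtain ⟨t, ht, hr⟩ := h1 τ hτ
  have hc : cls s w b ν r τ ≤ (m * L) * (w τ / ν (b τ)) := by
    unfold cls
    rw [← mul_div_assoc]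
    apply div_le_div_of_nonneg_right _ (hν _).le
    calc ∑ τ' ∈ s.filter (fun τ' => b τ' = b τ ∧ r τ τ'), w τ'
        ≤ ∑ τ' ∈ s.filter (fun τ' => b τ' = b τ ∧ r τ τ'), L * w τ := by
          apply Finset.sum_le_sum
          intro τ' h'
          rw [Finset.mem_filter] at h'
          exact (hr τ' h'.1 h'.2.1 h'.2.2).2
      _ = ((s.filter (fun τ' => b τ' = b τ ∧ r τ τ')).card : ℝ) * (L * w τ) := by
          rw [Finset.sum_const, nsmul_eq_mul]
      _ ≤ m * (L * w τ) := by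
          apply mul_le_mul_of_nonneg_right _ (mul_nonneg hL (hw τ))
          refine le_trans ?_ ht
          exact_mod_cast Finset.card_le_card (fun τ' h' => by
            rw [Finset.mem_filter] at h'
            exact (hr τ' h'.1 h'.2.1 h'.2.2).1)
      _ = m * L * w τ := by ring
  calc w τ * cls s w b ν r τ ^ η ≤ w τ * ((m * L) * (w τ / ν (b τ))) ^ η := by
        apply mul_le_mul_of_nonneg_left _ (hw τ)
        exact Real.rpow_le_rpow (cls_nonneg s hw b hν r τ) hc h0.le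
    _ = (m * L) ^ η * (w τ * (w τ / ν (b τ)) ^ η) := by
        rw [Real.mul_rpow (mul_nonneg hm hL) (div_nonneg (hw τ) (hν _).le)]
        ring

/-- the moment bound for one edge from the diagonal sum and the sum over the other pairs -/
theorem moment {Tau B : Type} [DecidableEq B] (s : Finset Tau) (w : Tau → ℝ)
    (hw : ∀ τ, 0 ≤ w τ) (b : Tau → B) (φ : B → ℕ) (ν : B → ℝ) (hν : ∀ y, 0 < ν y)
    (r : Tau → Tau → Prop) {C η x K₁ K₂ : ℝ} (h0 : 0 < η) (h1 : η ≤ 1) (hx : 0 < x)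
    (hC : ∀ n, ∑ y ∈ (s.image b).filter (fun y => φ y = n), ν y ≤ C) (hK₂ : 0 ≤ K₂)
    (hS : 0 < ∑ τ ∈ s, w τ)
    (hD : ∑ τ ∈ s, w τ * cls s w b ν r τ ^ η ≤ K₁ * (∑ τ ∈ s, w τ) ^ (1 + η) * x ^ (-η))
    (hP : ∑ τ ∈ s, w τ * cls s w b ν (fun τ τ' => ¬ r τ τ') τ ≤
      K₂ * (∑ τ ∈ s, w τ) ^ 2 / x) (E : Finset ℕ) :
    ∑ n ∈ E, mar s w (fun τ => φ (b τ)) n ^ (1 + η) ≤
      (C ^ η * (K₁ + K₂ ^ η)) * (∑ τ ∈ s, w τ) ^ (1 + η) * x ^ (-η) := by
  set S : ℝ := ∑ τ ∈ s, w τ with hSd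
  have hC0 : 0 ≤ C := (Finset.sum_nonneg fun y _ => (hν y).le).trans (hC 0)
  have a1 := jensen_base s w hw b φ ν hν h0 hC E
  have a2 := class_split s w hw b ν hν r h0 h1
  have a3 := class_holder s w hw b ν hν (fun τ τ' => ¬ r τ τ') h0 h1
  rw [← hSd] at a3
  have a4 : S ^ (1 - η) * (∑ τ ∈ s, w τ * cls s w b ν (fun τ τ' => ¬ r τ τ') τ) ^ η ≤
      K₂ ^ η * S ^ (1 + η) * x ^ (-η) := by
    have b1 : 0 ≤ ∑ τ ∈ s, w τ * cls s w b ν (fun τ τ' => ¬ r τ τ') τ :=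
      Finset.sum_nonneg fun τ _ => mul_nonneg (hw τ) (cls_nonneg s hw b hν _ τ)
    have b2 := Real.rpow_le_rpow b1 hP h0.le
    have b3 : (K₂ * S ^ 2 / x) ^ η = K₂ ^ η * S ^ (2 * η) * x ^ (-η) := by
      rw [Real.div_rpow (by positivity) hx.le, Real.mul_rpow hK₂ (by positivity),
        Real.rpow_neg hx.le, div_eq_mul_inv]
      congr 2
      rw [← Real.rpow_natCast S 2, ← Real.rpow_mul hS.le]
      norm_num
    rw [b3] at b2
    calc _ ≤ S ^ (1 - η) * (K₂ ^ η * S ^ (2 * η) * x ^ (-η)) :=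
          mul_le_mul_of_nonneg_left b2 (Real.rpow_nonneg hS.le _)
      _ = K₂ ^ η * (S ^ (1 - η) * S ^ (2 * η)) * x ^ (-η) := by ring
      _ = K₂ ^ η * S ^ (1 + η) * x ^ (-η) := by
          rw [← Real.rpow_add hS]
          congr 3
          ring
  calc _ ≤ _ := a1
    _ ≤ C ^ η * (K₁ * S ^ (1 + η) * x ^ (-η) + K₂ ^ η * S ^ (1 + η) * x ^ (-η)) := by
        apply mul_le_mul_of_nonneg_left _ (Real.rpow_nonneg hC0 _)
        linarith
    _ = _ := by ring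

/-! ### 4. The frame for polygons -/

/-- a form and `k` vectors -/
structure Pol (k : ℕ) where
  a : ℤ
  b : ℤ
  c : ℤ
  u : Fin k → ℤ × ℤ

/-- the value of the form at the vertex `j` -/
def Pol.q {k : ℕ} (τ : Pol k) (j : Fin k) : ℤ := qf τ.a τ.b τ.c (τ.u j)

/-- the determinant `d_j` of the edge `j` -/
def Pol.d {k : ℕ} [NeZero k] (τ : Pol k) (j : Fin k) : ℤ := dt (τ.u j) (τ.u (j + 1))

/-- the number `n_j = Q(u_j, u_(j+1)) / d_j` of the edge `j`, up to sign -/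
def Pol.n {k : ℕ} [NeZero k] (τ : Pol k) (j : Fin k) : ℕ :=
  (bf τ.a τ.b τ.c (τ.u j) (τ.u (j + 1)) / τ.d j).natAbs

/-- good polygons -/
structure Pol.Good {k : ℕ} [NeZero k] (τ : Pol k) : Prop where
  disc : τ.a * τ.c - τ.b ^ 2 = 1
  ne : ∀ j, τ.d j ≠ 0
  d1 : ∀ j, τ.d j ∣ τ.q j
  d2 : ∀ j, τ.d j ∣ τ.q (j + 1)

theorem Pol.Good.bf_eq {k : ℕ} [NeZero k] {τ : Pol k} (hτ : τ.Good) (j : Fin k) :
    bf τ.a τ.b τ.c (τ.u j) (τ.u (j + 1)) =
      (bf τ.a τ.b τ.c (τ.u j) (τ.u (j + 1)) / τ.d j) * τ.d j := by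
  obtain ⟨n, hn⟩ := edge_exists hτ.disc (hτ.d1 j) (hτ.d2 j)
  have h1 : τ.d j ∣ bf τ.a τ.b τ.c (τ.u j) (τ.u (j + 1)) := ⟨n, by
    rw [hn]; exact mul_comm _ _⟩
  exact (Int.ediv_mul_cancel h1).symm

/-- `(n_j² + 1) d_j² = Q(u_j) Q(u_(j+1))` -/
theorem Pol.Good.edge {k : ℕ} [NeZero k] {τ : Pol k} (hτ : τ.Good) (j : Fin k) :
    ((τ.n j : ℤ) ^ 2 + 1) * τ.d j ^ 2 = τ.q j * τ.q (j + 1) := by
  have h1 := edge_eq hτ.disc (hτ.bf_eq j)
  rw [Pol.n, Int.natCast_natAbs, sq_abs]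
  exact h1

theorem Pol.Good.exists_one {h : ℕ → ℤ} (hh : CM h) {k : ℕ} [NeZero k] (hk : Odd k) {τ : Pol k}
    (hτ : τ.Good) : ∃ j, h (τ.n j ^ 2 + 1) = 1 :=
  polygon hh hk hτ.disc τ.u hτ.ne _ (fun j => hτ.bf_eq j)

/-- THE FRAME: a weighted family of good polygons with edges `1 ≤ n_j ≤ x`, all of whose marginals
are bounded in `L^(1+η)`, gives `#{n ≤ x : h (n² + 1) = 1} ≥ c x` -/
theorem share {h : ℕ → ℤ} (hh : CM h) {k : ℕ} [NeZero k] (hk : Odd k) (s : Finset (Pol k))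
    (w : Pol k → ℝ) (hw : ∀ τ, 0 ≤ w τ) (x : ℕ) (hx : 0 < x) (hg : ∀ τ ∈ s, τ.Good)
    (hN : ∀ τ ∈ s, ∀ j, 1 ≤ τ.n j ∧ τ.n j ≤ x) {η K : ℝ} (hη : 0 < η) (hK : 0 < K)
    (hS : 0 < ∑ τ ∈ s, w τ)
    (hm : ∀ (j : Fin k) (E : Finset ℕ), ∑ n ∈ E, mar s w (fun τ => τ.n j) n ^ (1 + η) ≤
      K * (∑ τ ∈ s, w τ) ^ (1 + η) * (x : ℝ) ^ (-η)) :
    (x : ℝ) * ((k : ℝ) ^ (1 + η) * K) ^ (-(1 / η)) ≤
      ((Finset.Icc 1 x).filter (fun n => h (n ^ 2 + 1) = 1)).card := by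
  refine dual_step s w hw (Nat.pos_of_neZero k) (fun j τ => τ.n j)
    ((Finset.Icc 1 x).filter (fun n => h (n ^ 2 + 1) = 1)) ?_ (by exact_mod_cast hx) hη hK hS
    (fun j => hm j _)
  intro τ hτ _
  obtain ⟨j, hj⟩ := (hg τ hτ).exists_one hh hk
  refine ⟨j, ?_⟩
  rw [Finset.mem_filter, Finset.mem_Icc]
  exact ⟨hN τ hτ j, hj⟩

end Pool.Agent.PENT
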