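import Mathlib

/-!
# PENT: the two-sided Brun-Hooley sieve (helper8)

`brun_hooley`: for a finite family `O` with weights `W o ≥ 0` and `x o p ∈ [0,1]` for `p` in a
finite set `S` (an index set with sizes `2 ≤ N p ≤ Y`), densities `g p ∈ [0, 1 - 1/K]` with
`∑ g ≤ K` over every level `{p : Y^(2^-(j+1)) < N p ≤ Y^(2^-j)}` and
`|∑ o, W o ∏_T x - X ∏_T g| ≤ R T` for all `T ⊆ S` with `∏_T N ≤ Y ^ k`, `k = k(K)`:
`(1/2) X ∏ (1 - g) - ∑ R ≤ ∑ o, W o ∏ (1 - x) ≤ 2 X ∏ (1 - g) + ∑ R`.
-/

set_option autoImplicit false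

namespace Pool.Agent.PENT

open Finset

variable {ι : Type*} [DecidableEq ι]

/-! ### 1. Sums over subsets with coefficients depending on the cardinality -/

/-- `∑_{T ⊆ S} c(#T) ∏_T x` -/
noncomputable def cs (c : ℕ → ℝ) (S : Finset ι) (x : ι → ℝ) : ℝ :=
  ∑ T ∈ S.powerset, c T.card * ∏ p ∈ T, x p

omit [DecidableEq ι] in
theorem cs_empty (c : ℕ → ℝ) (x : ι → ℝ) : cs c ∅ x = c 0 := by
  simp [cs]

theorem cs_insert (c : ℕ → ℝ) {a : ι} {S : Finset ι} (ha : a ∉ S) (x : ι → ℝ) :
    cs c (insert a S) x = cs c S x + x a * cs (fun i => c (i + 1)) S x := by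
  unfold cs
  rw [Finset.sum_powerset_insert ha, Finset.mul_sum]
  congr 1
  apply Finset.sum_congr rfl
  intro T hT
  have haT : a ∉ T := fun h => ha (Finset.mem_powerset.1 hT h)
  rw [Finset.card_insert_of_notMem haT, Finset.prod_insert haT]
  ring

omit [DecidableEq ι] in
theorem cs_smul (t : ℝ) (c : ℕ → ℝ) (S : Finset ι) (x : ι → ℝ) :
    cs (fun i => t * c i) S x = t * cs c S x := by
  unfold cs
  rw [Finset.mul_sum]
  apply Finset.sum_congr rfl
  intro T _
  ring

omit [DecidableEq ι] in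
theorem cs_add (c d : ℕ → ℝ) (S : Finset ι) (x : ι → ℝ) :
    cs (fun i => c i + d i) S x = cs c S x + cs d S x := by
  unfold cs
  rw [← Finset.sum_add_distrib]
  apply Finset.sum_congr rfl
  intro T _
  ring

/-- truncated alternating signs -/
noncomputable def bb (k i : ℕ) : ℝ := if i ≤ k then (-1) ^ i else 0

/-- the indicator of `i = k` -/
noncomputable def cc (k i : ℕ) : ℝ := if i = k then 1 else 0

theorem bb_shift (k : ℕ) : (fun i => bb (k + 1) (i + 1)) = fun i => (-1) * bb k i := by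
  funext i
  unfold bb
  by_cases h : i ≤ k
  · rw [if_pos h, if_pos (by omega), pow_succ]
    ring
  · rw [if_neg h, if_neg (by omega)]
    ring

theorem bb_shift0 : (fun i => bb 0 (i + 1)) = fun i => (0 : ℝ) * bb 0 i := by
  funext i
  unfold bb
  rw [if_neg (by omega)]
  ring

theorem cc_shift (k : ℕ) : (fun i => cc (k + 1) (i + 1)) = fun i => cc k i := by
  funext i
  unfold cc
  by_cases h : i = k
  · rw [if_pos h, if_pos (by omega)]
  · rw [if_neg h, if_neg (by omega)]

theorem cc_shift0 : (fun i => cc 0 (i + 1)) = fun i => (0 : ℝ) * cc 0 i := by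
  funext i
  unfold cc
  rw [if_neg (by omega)]
  ring

/-- Bonferroni's inequalities, multilinear form -/
theorem bonf (S : Finset ι) (x : ι → ℝ) (hx : ∀ p ∈ S, 0 ≤ x p ∧ x p ≤ 1) :
    ∀ k : ℕ, (Even k → ∏ p ∈ S, (1 - x p) ≤ cs (bb k) S x) ∧
      (Odd k → cs (bb k) S x ≤ ∏ p ∈ S, (1 - x p)) := by
  induction S using Finset.induction_on with
  | empty =>
    intro k
    rw [cs_empty]
    simp [bb]
  | insert a S ha ih =>
    intro k
    have ih' := ih (fun p hp => hx p (Finset.mem_insert_of_mem hp))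
    have hxa := hx a (Finset.mem_insert_self a S)
    rw [Finset.prod_insert ha, cs_insert _ ha]
    have hP : 0 ≤ ∏ p ∈ S, (1 - x p) := Finset.prod_nonneg fun p hp => by
      have := (hx p (Finset.mem_insert_of_mem hp)).2
      linarith
    rcases k with _ | k
    · refine ⟨fun _ => ?_, fun h => absurd h (by decide)⟩
      rw [bb_shift0, cs_smul]
      have := (ih' 0).1 (by decide)
      nlinarith
    · rw [bb_shift, cs_smul]
      refine ⟨fun h => ?_, fun h => ?_⟩
      · have hk : Odd k := by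
          rcases Nat.even_or_odd k with h1 | h1
          · exact absurd h (by simp [h1.add_one])
          · exact h1
        have h1 := (ih' (k + 1)).1 h
        have h2 := (ih' k).2 hk
        have h3 := mul_le_mul_of_nonneg_left h2 hxa.1
        linarith
      · have hk : Even k := by
          rcases Nat.even_or_odd k with h1 | h1
          · exact h1
          · exact absurd h (by simp [h1.add_one])
        have h1 := (ih' (k + 1)).2 h
        have h2 := (ih' k).1 hk
        have h3 := mul_le_mul_of_nonneg_left h2 hxa.1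
        linarith

theorem bb_succ (k : ℕ) (hk : Even k) :
    bb (k + 1) = fun i => bb k i + (-1) * cc (k + 1) i := by
  funext i
  unfold bb cc
  rcases lt_trichotomy i (k + 1) with h | h | h
  · rw [if_pos (by omega), if_pos (by omega), if_neg (by omega)]
    ring
  · rw [if_pos (by omega), if_neg (by omega), if_pos h, h, hk.add_one.neg_one_pow]
    ring
  · rw [if_neg (by omega), if_neg (by omega), if_neg (by omega)]
    ring

/-- the even Bonferroni sum exceeds the product by at most the next elementary function -/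
theorem bonf_up (S : Finset ι) (x : ι → ℝ) (hx : ∀ p ∈ S, 0 ≤ x p ∧ x p ≤ 1) (m : ℕ) :
    cs (bb (2 * m)) S x ≤ ∏ p ∈ S, (1 - x p) + cs (cc (2 * m + 1)) S x := by
  have h := (bonf S x hx (2 * m + 1)).2 ⟨m, rfl⟩
  rw [bb_succ (2 * m) ⟨m, by ring⟩, cs_add, cs_smul] at h
  linarith

theorem bonf_lo (S : Finset ι) (x : ι → ℝ) (hx : ∀ p ∈ S, 0 ≤ x p ∧ x p ≤ 1) (m : ℕ) :
    ∏ p ∈ S, (1 - x p) ≤ cs (bb (2 * m)) S x :=
  (bonf S x hx (2 * m)).1 ⟨m, by ring⟩

omit [DecidableEq ι] in
theorem cs_cc_nonneg (S : Finset ι) (x : ι → ℝ) (hx : ∀ p ∈ S, 0 ≤ x p) (k : ℕ) :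
    0 ≤ cs (cc k) S x := by
  unfold cs
  apply Finset.sum_nonneg
  intro T hT
  apply mul_nonneg
  · unfold cc
    split_ifs <;> norm_num
  · exact Finset.prod_nonneg fun p hp => hx p (Finset.mem_powerset.1 hT hp)

theorem add_pow_lower {G a : ℝ} (hG : 0 ≤ G) (ha : 0 ≤ a) (n : ℕ) :
    G ^ (n + 1) + (n + 1) * a * G ^ n ≤ (G + a) ^ (n + 1) := by
  induction n with
  | zero => simp
  | succ n ih =>
    have h1 : (G + a) ^ (n + 1 + 1) = (G + a) ^ (n + 1) * (G + a) := pow_succ _ _
    rw [h1]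
    have h2 : (G ^ (n + 1) + (n + 1) * a * G ^ n) * (G + a) ≤ (G + a) ^ (n + 1) * (G + a) :=
      mul_le_mul_of_nonneg_right ih (by positivity)
    refine le_trans ?_ h2
    push_cast
    have h3 : 0 ≤ (n + 1 : ℝ) * a * G ^ n * a := by positivity
    have e1 : G ^ (n + 1 + 1) = G ^ n * G * G := by ring
    have e2 : G ^ (n + 1) = G ^ n * G := by ring
    rw [e1, e2]
    nlinarith [h3]

/-- `e_k(x) ≤ (∑ x)^k / k!` -/
theorem esymm_le (S : Finset ι) (x : ι → ℝ) (hx : ∀ p ∈ S, 0 ≤ x p) :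
    ∀ k : ℕ, cs (cc k) S x ≤ (∑ p ∈ S, x p) ^ k / k.factorial := by
  induction S using Finset.induction_on with
  | empty =>
    intro k
    rw [cs_empty]
    rcases k with _ | k
    · simp [cc]
    · simp [cc]
  | insert a S ha ih =>
    intro k
    have ih' := ih (fun p hp => hx p (Finset.mem_insert_of_mem hp))
    have hxa := hx a (Finset.mem_insert_self a S)
    have hG : 0 ≤ ∑ p ∈ S, x p := Finset.sum_nonneg fun p hp =>
      hx p (Finset.mem_insert_of_mem hp)
    rw [Finset.sum_insert ha, cs_insert _ ha]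
    rcases k with _ | k
    · rw [cc_shift0, cs_smul]
      have := ih' 0
      simp only [pow_zero, Nat.factorial_zero, Nat.cast_one, div_one] at this ⊢
      linarith
    · rw [cc_shift]
      have h1 := ih' (k + 1)
      have h2 := mul_le_mul_of_nonneg_left (ih' k) hxa
      have h3 := add_pow_lower hG hxa k
      have hf : (0 : ℝ) < (k + 1).factorial := by exact_mod_cast Nat.factorial_pos _
      have hf' : (0 : ℝ) < k.factorial := by exact_mod_cast Nat.factorial_pos _
      have h4 : (∑ p ∈ S, x p) ^ (k + 1) / (k + 1).factorial +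
          x a * ((∑ p ∈ S, x p) ^ k / k.factorial) =
          ((∑ p ∈ S, x p) ^ (k + 1) + (k + 1) * x a * (∑ p ∈ S, x p) ^ k) /
            (k + 1).factorial := by
        rw [Nat.factorial_succ]
        push_cast
        field_simp
      calc _ ≤ (∑ p ∈ S, x p) ^ (k + 1) / (k + 1).factorial +
          x a * ((∑ p ∈ S, x p) ^ k / k.factorial) := add_le_add h1 h2
        _ = _ := h4
        _ ≤ _ := by
          rw [add_comm (x a)]
          gcongr

/-! ### 2. Multilinear polynomials with coefficients; products over disjoint sets -/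

/-- `∑_{T ⊆ S} c(T) ∏_T x` -/
noncomputable def mp (c : Finset ι → ℝ) (S : Finset ι) (x : ι → ℝ) : ℝ :=
  ∑ T ∈ S.powerset, c T * ∏ p ∈ T, x p

theorem mp_mul (A B : Finset ι) (h : Disjoint A B) (c d : Finset ι → ℝ) (x : ι → ℝ) :
    mp (fun T => c (T ∩ A) * d (T ∩ B)) (A ∪ B) x = mp c A x * mp d B x := by
  unfold mp
  rw [Finset.sum_mul_sum, ← Finset.sum_product']
  have key : ∀ T : Finset ι, T ⊆ A ∪ B → T ∩ A ∪ T ∩ B = T := by
    intro T hT
    rw [← Finset.inter_union_distrib_left]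
    exact Finset.inter_eq_left.2 hT
  have k0 : ∀ T0 T1 : Finset ι, T0 ⊆ A → T1 ⊆ B → (T0 ∪ T1) ∩ A = T0 := by
    intro T0 T1 h0 h1
    ext a
    simp only [Finset.mem_inter, Finset.mem_union]
    constructor
    · rintro ⟨h2 | h2, h'⟩
      · exact h2
      · exact absurd (h1 h2) (Finset.disjoint_left.1 h h')
    · intro h2
      exact ⟨Or.inl h2, h0 h2⟩
  have k1 : ∀ T0 T1 : Finset ι, T0 ⊆ A → T1 ⊆ B → (T0 ∪ T1) ∩ B = T1 := by
    intro T0 T1 h0 h1
    ext a
    simp only [Finset.mem_inter, Finset.mem_union]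
    constructor
    · rintro ⟨h2 | h2, h'⟩
      · exact absurd h' (Finset.disjoint_left.1 h (h0 h2))
      · exact h2
    · intro h2
      exact ⟨Or.inr h2, h1 h2⟩
  refine Finset.sum_nbij' (fun T => (T ∩ A, T ∩ B)) (fun q => q.1 ∪ q.2) ?_ ?_ ?_ ?_ ?_
  · intro T _
    simp only [Finset.mem_product, Finset.mem_powerset]
    exact ⟨Finset.inter_subset_right, Finset.inter_subset_right⟩
  · rintro ⟨T0, T1⟩ hT
    simp only [Finset.mem_product, Finset.mem_powerset] at hT
    simp only [Finset.mem_powerset]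
    exact Finset.union_subset_union hT.1 hT.2
  · intro T hT
    exact key T (Finset.mem_powerset.1 hT)
  · rintro ⟨T0, T1⟩ hT
    simp only [Finset.mem_product, Finset.mem_powerset] at hT
    simp only [k0 T0 T1 hT.1 hT.2, k1 T0 T1 hT.1 hT.2]
  · intro T hT
    have hd : Disjoint (T ∩ A) (T ∩ B) :=
      Finset.disjoint_of_subset_left Finset.inter_subset_right
        (Finset.disjoint_of_subset_right Finset.inter_subset_right h)
    have e : ∏ p ∈ T, x p = (∏ p ∈ T ∩ A, x p) * ∏ p ∈ T ∩ B, x p := by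
      rw [← Finset.prod_union hd, key T (Finset.mem_powerset.1 hT)]
    rw [e]
    ring

omit [DecidableEq ι] in
theorem mp_congr (c d : Finset ι → ℝ) (S : Finset ι) (x : ι → ℝ) (h : ∀ T ⊆ S, c T = d T) :
    mp c S x = mp d S x := by
  unfold mp
  apply Finset.sum_congr rfl
  intro T hT
  rw [h T (Finset.mem_powerset.1 hT)]

/-- the elements of level `j` -/
def lvl (l : ι → ℕ) (j : ℕ) (S : Finset ι) : Finset ι := S.filter (fun p => l p = j)

/-- the elements of level `< J` -/
def blw (l : ι → ℕ) (J : ℕ) (S : Finset ι) : Finset ι := S.filter (fun p => l p < J)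

/-- coefficients of the upper sieve -/
noncomputable def cU (l : ι → ℕ) (m : ℕ) : ℕ → Finset ι → ℝ
  | 0, _ => 1
  | J + 1, T => cU l m J T * bb (2 * (m + J)) (lvl l J T).card

/-- coefficients of the lower sieve -/
noncomputable def cL (l : ι → ℕ) (m : ℕ) : ℕ → Finset ι → ℝ
  | 0, _ => 1
  | J + 1, T => cL l m J T * bb (2 * (m + J)) (lvl l J T).card -
      cU l m J T * cc (2 * (m + J) + 1) (lvl l J T).card

theorem blw_succ (l : ι → ℕ) (J : ℕ) (S : Finset ι) :
    blw l (J + 1) S = blw l J S ∪ lvl l J S := by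
  ext p
  simp only [blw, lvl, Finset.mem_union, Finset.mem_filter]
  constructor
  · rintro ⟨h1, h2⟩
    rcases Nat.lt_succ_iff_lt_or_eq.1 h2 with h | h
    · exact Or.inl ⟨h1, h⟩
    · exact Or.inr ⟨h1, h⟩
  · rintro (⟨h1, h2⟩ | ⟨h1, h2⟩)
    · exact ⟨h1, by omega⟩
    · exact ⟨h1, by omega⟩

omit [DecidableEq ι] in
theorem blw_disj (l : ι → ℕ) (J : ℕ) (S : Finset ι) : Disjoint (blw l J S) (lvl l J S) := by
  rw [Finset.disjoint_left]
  intro p h1 h2
  simp only [blw, lvl, Finset.mem_filter] at h1 h2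
  omega

theorem lvl_inter_blw (l : ι → ℕ) {j J : ℕ} (hj : j < J) (S T : Finset ι) (hT : T ⊆ S) :
    lvl l j (T ∩ blw l J S) = lvl l j T := by
  ext p
  simp only [blw, lvl, Finset.mem_inter, Finset.mem_filter]
  constructor
  · rintro ⟨⟨h1, _⟩, h2⟩
    exact ⟨h1, h2⟩
  · rintro ⟨h1, h2⟩
    exact ⟨⟨h1, hT h1, by omega⟩, h2⟩

theorem inter_lvl (l : ι → ℕ) (J : ℕ) (S T : Finset ι) (hT : T ⊆ S) :
    T ∩ lvl l J S = lvl l J T := by
  ext p
  simp only [lvl, Finset.mem_inter, Finset.mem_filter]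
  constructor
  · rintro ⟨h1, _, h2⟩
    exact ⟨h1, h2⟩
  · rintro ⟨h1, h2⟩
    exact ⟨h1, hT h1, h2⟩

theorem cU_inter (l : ι → ℕ) (m : ℕ) {J J' : ℕ} (hJ : J ≤ J') (S T : Finset ι) (hT : T ⊆ S) :
    cU l m J (T ∩ blw l J' S) = cU l m J T := by
  induction J with
  | zero => rfl
  | succ J ih =>
    simp only [cU]
    rw [ih (by omega), lvl_inter_blw l (by omega) S T hT]

theorem cL_inter (l : ι → ℕ) (m : ℕ) {J J' : ℕ} (hJ : J ≤ J') (S T : Finset ι) (hT : T ⊆ S) :
    cL l m J (T ∩ blw l J' S) = cL l m J T := by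
  induction J with
  | zero => rfl
  | succ J ih =>
    simp only [cL]
    rw [ih (by omega), lvl_inter_blw l (by omega) S T hT, cU_inter l m (by omega) S T hT]

omit [DecidableEq ι] in
theorem blw_sub (l : ι → ℕ) (J : ℕ) (S : Finset ι) : blw l J S ⊆ S := Finset.filter_subset _ _

omit [DecidableEq ι] in
theorem lvl_sub (l : ι → ℕ) (J : ℕ) (S : Finset ι) : lvl l J S ⊆ S := Finset.filter_subset _ _

/-- the recursion for the upper sieve -/
theorem mp_cU_succ (l : ι → ℕ) (m J : ℕ) (S : Finset ι) (x : ι → ℝ) :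
    mp (cU l m (J + 1)) (blw l (J + 1) S) x =
      mp (cU l m J) (blw l J S) x * cs (bb (2 * (m + J))) (lvl l J S) x := by
  have h := mp_mul (blw l J S) (lvl l J S) (blw_disj l J S) (cU l m J)
    (fun T => bb (2 * (m + J)) T.card) x
  rw [← blw_succ] at h
  have h2 : mp (fun T => bb (2 * (m + J)) T.card) (lvl l J S) x =
    cs (bb (2 * (m + J))) (lvl l J S) x := rfl
  rw [← h2, ← h]
  apply mp_congr
  intro T hT
  have hT' : T ⊆ S := hT.trans (blw_sub l _ S)
  simp only [cU]
  rw [cU_inter l m le_rfl S T hT', inter_lvl l J S T hT']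

/-- the recursion for the lower sieve -/
theorem mp_cL_succ (l : ι → ℕ) (m J : ℕ) (S : Finset ι) (x : ι → ℝ) :
    mp (cL l m (J + 1)) (blw l (J + 1) S) x =
      mp (cL l m J) (blw l J S) x * cs (bb (2 * (m + J))) (lvl l J S) x -
        mp (cU l m J) (blw l J S) x * cs (cc (2 * (m + J) + 1)) (lvl l J S) x := by
  have h := mp_mul (blw l J S) (lvl l J S) (blw_disj l J S) (cL l m J)
    (fun T => bb (2 * (m + J)) T.card) x
  have h' := mp_mul (blw l J S) (lvl l J S) (blw_disj l J S) (cU l m J)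
    (fun T => cc (2 * (m + J) + 1) T.card) x
  rw [← blw_succ] at h h'
  have h2 : mp (fun T => bb (2 * (m + J)) T.card) (lvl l J S) x =
    cs (bb (2 * (m + J))) (lvl l J S) x := rfl
  have h2' : mp (fun T => cc (2 * (m + J) + 1) T.card) (lvl l J S) x =
    cs (cc (2 * (m + J) + 1)) (lvl l J S) x := rfl
  rw [← h2, ← h2', ← h, ← h']
  unfold mp
  rw [← Finset.sum_sub_distrib]
  apply Finset.sum_congr rfl
  intro T hT
  have hT' : T ⊆ S := (Finset.mem_powerset.1 hT).trans (blw_sub l _ S)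
  simp only [cL]
  rw [cU_inter l m le_rfl S T hT', cL_inter l m le_rfl S T hT', inter_lvl l J S T hT']
  ring

omit [DecidableEq ι] in
theorem mp_zero (c : Finset ι → ℝ) (l : ι → ℕ) (S : Finset ι) (x : ι → ℝ) :
    mp c (blw l 0 S) x = c ∅ := by
  have : blw l 0 S = ∅ := by
    simp [blw]
  rw [this]
  simp [mp]

omit [DecidableEq ι] in
theorem abs_cU_le (l : ι → ℕ) (m J : ℕ) (T : Finset ι) : |cU l m J T| ≤ 1 := by
  induction J with
  | zero => simp [cU]
  | succ J ih =>
    simp only [cU, bb]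
    rw [abs_mul]
    split_ifs
    · rw [abs_pow, abs_neg, abs_one, one_pow, mul_one]
      exact ih
    · simp

omit [DecidableEq ι] in
theorem abs_cL_le (l : ι → ℕ) (m J : ℕ) (T : Finset ι) : |cL l m J T| ≤ 1 := by
  induction J with
  | zero => simp [cL]
  | succ J ih =>
    simp only [cL, bb, cc]
    by_cases h1 : (lvl l J T).card ≤ 2 * (m + J)
    · rw [if_pos h1, if_neg (by omega), mul_zero, sub_zero, abs_mul, abs_pow, abs_neg, abs_one,
        one_pow, mul_one]
      exact ih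
    · rw [if_neg h1, mul_zero, zero_sub, abs_neg, abs_mul]
      have := abs_cU_le l m J T
      split_ifs
      · simpa using this
      · simp

omit [DecidableEq ι] in
theorem cU_supp (l : ι → ℕ) (m J : ℕ) (T : Finset ι) (h : cU l m J T ≠ 0) :
    ∀ j < J, (lvl l j T).card ≤ 2 * (m + j) + 1 := by
  induction J with
  | zero => intro j hj; omega
  | succ J ih =>
    simp only [cU, bb] at h
    intro j hj
    rcases Nat.lt_succ_iff_lt_or_eq.1 hj with h1 | h1
    · exact ih (left_ne_zero_of_mul h) j h1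
    · subst h1
      have h2 := right_ne_zero_of_mul h
      by_contra h3
      rw [if_neg (by omega)] at h2
      exact h2 rfl

omit [DecidableEq ι] in
theorem cL_supp (l : ι → ℕ) (m J : ℕ) (T : Finset ι) (h : cL l m J T ≠ 0) :
    ∀ j < J, (lvl l j T).card ≤ 2 * (m + j) + 1 := by
  induction J with
  | zero => intro j hj; omega
  | succ J ih =>
    simp only [cL, bb, cc] at h
    intro j hj
    by_cases h0 : (lvl l J T).card ≤ 2 * (m + J)
    · rw [if_neg (show ¬ (lvl l J T).card = 2 * (m + J) + 1 by omega), mul_zero, sub_zero] at h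
      rcases Nat.lt_succ_iff_lt_or_eq.1 hj with h1 | h1
      · exact ih (left_ne_zero_of_mul h) j h1
      · subst h1
        omega
    · rw [if_neg h0, mul_zero, zero_sub, neg_ne_zero] at h
      rcases Nat.lt_succ_iff_lt_or_eq.1 hj with h1 | h1
      · exact cU_supp l m J T (left_ne_zero_of_mul h) j h1
      · subst h1
        have h2 := right_ne_zero_of_mul h
        by_contra h3
        rw [if_neg (by omega)] at h2
        exact h2 rfl

/-! ### 3. The pointwise inequalities -/

theorem prod_blw_succ (l : ι → ℕ) (J : ℕ) (S : Finset ι) (f : ι → ℝ) :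
    ∏ p ∈ blw l (J + 1) S, f p = (∏ p ∈ blw l J S, f p) * ∏ p ∈ lvl l J S, f p := by
  rw [blw_succ, Finset.prod_union (blw_disj l J S)]

theorem pointwise (l : ι → ℕ) (m : ℕ) (S : Finset ι) (x : ι → ℝ)
    (hx : ∀ p ∈ S, 0 ≤ x p ∧ x p ≤ 1) (J : ℕ) :
    mp (cL l m J) (blw l J S) x ≤ ∏ p ∈ blw l J S, (1 - x p) ∧
      ∏ p ∈ blw l J S, (1 - x p) ≤ mp (cU l m J) (blw l J S) x := by
  induction J with
  | zero =>
    rw [mp_zero, mp_zero]
    have : blw l 0 S = ∅ := by simp [blw]
    rw [this]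
    simp [cU, cL]
  | succ J ih =>
    obtain ⟨ihL, ihU⟩ := ih
    rw [mp_cU_succ, mp_cL_succ, prod_blw_succ]
    have hxl : ∀ p ∈ lvl l J S, 0 ≤ x p ∧ x p ≤ 1 := fun p hp => hx p (lvl_sub l J S hp)
    have h1 := bonf_lo (lvl l J S) x hxl (m + J)
    have h2 := bonf_up (lvl l J S) x hxl (m + J)
    have h3 := cs_cc_nonneg (lvl l J S) x (fun p hp => (hxl p hp).1) (2 * (m + J) + 1)
    have hV : 0 ≤ ∏ p ∈ lvl l J S, (1 - x p) := Finset.prod_nonneg fun p hp => by
      have := (hxl p hp).2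
      linarith
    have hP : 0 ≤ ∏ p ∈ blw l J S, (1 - x p) := Finset.prod_nonneg fun p hp => by
      have := (hx p (blw_sub l J S hp)).2
      linarith
    set P := ∏ p ∈ blw l J S, (1 - x p)
    set V := ∏ p ∈ lvl l J S, (1 - x p)
    set U := mp (cU l m J) (blw l J S) x
    set L := mp (cL l m J) (blw l J S) x
    set b := cs (bb (2 * (m + J))) (lvl l J S) x
    set c := cs (cc (2 * (m + J) + 1)) (lvl l J S) x
    refine ⟨?_, ?_⟩
    · have hb : 0 ≤ b := hV.trans h1
      have e1 : L * b ≤ P * b := mul_le_mul_of_nonneg_right ihL hb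
      have e2 : P * b ≤ P * (V + c) := mul_le_mul_of_nonneg_left h2 hP
      have e3 : P * c ≤ U * c := mul_le_mul_of_nonneg_right ihU h3
      nlinarith
    · exact mul_le_mul ihU h1 hV (hP.trans ihU)

/-! ### 4. The main terms -/

theorem one_sub_ge_exp {K g : ℝ} (hK : 1 ≤ K) (h0 : 0 ≤ g) (h1 : g ≤ 1 - 1 / K) :
    Real.exp (-(K * g)) ≤ 1 - g := by
  have hK0 : 0 < K := by linarith
  have h2 : 1 / K ≤ 1 - g := by linarith
  have h3 : 0 < 1 - g := lt_of_lt_of_le (by positivity) h2
  have h4 : 1 / (1 - g) ≤ K := by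
    rw [div_le_iff₀ h3]
    rw [div_le_iff₀ hK0] at h2
    linarith
  have h5 : 1 / (1 - g) ≤ Real.exp (K * g) := by
    have h6 : 1 / (1 - g) = g * (1 / (1 - g)) + 1 := by
      field_simp
      ring
    rw [h6]
    refine (Real.add_one_le_exp _).trans (Real.exp_le_exp.2 ?_)
    rw [mul_comm K g]
    exact mul_le_mul_of_nonneg_left h4 h0
  rw [Real.exp_neg, ← one_div]
  rw [div_le_iff₀ h3] at h5
  rw [div_le_iff₀ (Real.exp_pos _)]
  linarith

omit [DecidableEq ι] in
theorem prod_one_sub_ge {K : ℝ} (hK : 1 ≤ K) (S : Finset ι) (g : ι → ℝ)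
    (hg : ∀ p ∈ S, 0 ≤ g p ∧ g p ≤ 1 - 1 / K) (hs : ∑ p ∈ S, g p ≤ K) :
    Real.exp (-(K * K)) ≤ ∏ p ∈ S, (1 - g p) := by
  calc Real.exp (-(K * K)) ≤ Real.exp (∑ p ∈ S, -(K * g p)) := by
        apply Real.exp_le_exp.2
        rw [Finset.sum_neg_distrib, ← Finset.mul_sum]
        have := mul_le_mul_of_nonneg_left hs (show (0 : ℝ) ≤ K by linarith)
        linarith
    _ = ∏ p ∈ S, Real.exp (-(K * g p)) := Real.exp_sum _ _
    _ ≤ ∏ p ∈ S, (1 - g p) := Finset.prod_le_prod (fun _ _ => (Real.exp_pos _).le)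
        fun p hp => one_sub_ge_exp hK (hg p hp).1 (hg p hp).2

/-- the loss at level `j` -/
noncomputable def eps (K : ℝ) (m j : ℕ) : ℝ :=
  K ^ (2 * (m + j) + 1) / (2 * (m + j) + 1).factorial * Real.exp (K * K)

theorem eps_nonneg {K : ℝ} (hK : 1 ≤ K) (m j : ℕ) : 0 ≤ eps K m j := by
  unfold eps
  have : 0 < K := by linarith
  positivity

/-- the losses are small for large `m` -/
theorem exists_eps (K δ : ℝ) (hK : 1 ≤ K) (hδ : 0 < δ) :
    ∃ m : ℕ, ∀ J : ℕ, ∑ j ∈ Finset.range J, eps K m j ≤ δ := by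
  have hs := Real.summable_pow_div_factorial K
  have ht := tendsto_sum_nat_add (fun n : ℕ => K ^ n / n.factorial)
  have he : (0 : ℝ) < δ * Real.exp (-(K * K)) := by positivity
  obtain ⟨N, hN⟩ := ((tendsto_order.1 ht).2 _ he).exists
  refine ⟨N, fun J => ?_⟩
  have hs' : Summable (fun k : ℕ => K ^ (k + N) / (k + N).factorial) :=
    (summable_nat_add_iff N).2 hs
  have hK0 : 0 < K := by linarith
  have hinj : Set.InjOn (fun j : ℕ => 2 * j + N + 1) (Finset.range J : Set ℕ) := by
    intro a _ b _ hab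
    simp only at hab
    omega
  have h1 : ∑ j ∈ Finset.range J, K ^ (2 * (N + j) + 1) / (2 * (N + j) + 1).factorial ≤
      ∑' k : ℕ, K ^ (k + N) / (k + N).factorial := by
    have h2 : ∑ j ∈ Finset.range J, K ^ (2 * (N + j) + 1) / (2 * (N + j) + 1).factorial =
        ∑ k ∈ (Finset.range J).image (fun j : ℕ => 2 * j + N + 1),
          K ^ (k + N) / (k + N).factorial := by
      rw [Finset.sum_image hinj]
      apply Finset.sum_congr rfl
      intro j _
      have : 2 * j + N + 1 + N = 2 * (N + j) + 1 := by ring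
      simp only [this]
    rw [h2]
    exact hs'.sum_le_tsum _ (fun k _ => by positivity)
  unfold eps
  rw [← Finset.sum_mul]
  have h3 : Real.exp (-(K * K)) * Real.exp (K * K) = 1 := by
    rw [← Real.exp_add]
    simp
  have h4 := Real.exp_pos (K * K)
  calc _ ≤ (δ * Real.exp (-(K * K))) * Real.exp (K * K) :=
        mul_le_mul_of_nonneg_right (h1.trans hN.le) h4.le
    _ = δ := by rw [mul_assoc, h3, mul_one]

theorem level_main {K : ℝ} (hK : 1 ≤ K) (S : Finset ι) (g : ι → ℝ)
    (hg : ∀ p ∈ S, 0 ≤ g p ∧ g p ≤ 1 - 1 / K) (hs : ∑ p ∈ S, g p ≤ K) (m j : ℕ) :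
    cs (cc (2 * (m + j) + 1)) S g ≤ eps K m j * ∏ p ∈ S, (1 - g p) := by
  have h1 := esymm_le S g (fun p hp => (hg p hp).1) (2 * (m + j) + 1)
  have h2 := prod_one_sub_ge hK S g hg hs
  have h0 : 0 ≤ ∑ p ∈ S, g p := Finset.sum_nonneg fun p hp => (hg p hp).1
  have hK0 : 0 < K := by linarith
  have h3 : (∑ p ∈ S, g p) ^ (2 * (m + j) + 1) / (2 * (m + j) + 1).factorial ≤
      K ^ (2 * (m + j) + 1) / (2 * (m + j) + 1).factorial := by
    gcongr
  have h4 : Real.exp (K * K) * Real.exp (-(K * K)) = 1 := by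
    rw [← Real.exp_add]
    simp
  calc _ ≤ K ^ (2 * (m + j) + 1) / (2 * (m + j) + 1).factorial := h1.trans h3
    _ = K ^ (2 * (m + j) + 1) / (2 * (m + j) + 1).factorial *
        (Real.exp (K * K) * Real.exp (-(K * K))) := by rw [h4, mul_one]
    _ = eps K m j * Real.exp (-(K * K)) := by
        unfold eps
        ring
    _ ≤ _ := mul_le_mul_of_nonneg_left h2 (eps_nonneg hK m j)

theorem main_terms {K : ℝ} (hK : 1 ≤ K) (l : ι → ℕ) (m : ℕ)
    (hm : ∀ J : ℕ, ∑ j ∈ Finset.range J, eps K m j ≤ 1 / 4) (S : Finset ι) (g : ι → ℝ)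
    (hg : ∀ p ∈ S, 0 ≤ g p ∧ g p ≤ 1 - 1 / K) (hs : ∀ j, ∑ p ∈ lvl l j S, g p ≤ K) (J : ℕ) :
    mp (cU l m J) (blw l J S) g ≤
        Real.exp (∑ j ∈ Finset.range J, eps K m j) * ∏ p ∈ blw l J S, (1 - g p) ∧
      (1 - 2 * ∑ j ∈ Finset.range J, eps K m j) * ∏ p ∈ blw l J S, (1 - g p) ≤
        mp (cL l m J) (blw l J S) g := by
  have hg' : ∀ p ∈ S, 0 ≤ g p ∧ g p ≤ 1 := fun p hp =>
    ⟨(hg p hp).1, (hg p hp).2.trans (by
      have : 0 ≤ 1 / K := by positivity
      linarith)⟩
  induction J with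
  | zero =>
    rw [mp_zero, mp_zero]
    have : blw l 0 S = ∅ := by simp [blw]
    rw [this]
    simp [cU, cL]
  | succ J ih =>
    obtain ⟨ihU, ihL⟩ := ih
    rw [mp_cU_succ, mp_cL_succ, prod_blw_succ, Finset.sum_range_succ]
    have hgl : ∀ p ∈ lvl l J S, 0 ≤ g p ∧ g p ≤ 1 := fun p hp => hg' p (lvl_sub l J S hp)
    have h1 := bonf_lo (lvl l J S) g hgl (m + J)
    have h2 := bonf_up (lvl l J S) g hgl (m + J)
    have h3 := cs_cc_nonneg (lvl l J S) g (fun p hp => (hgl p hp).1) (2 * (m + J) + 1)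
    have h5 := level_main hK (lvl l J S) g (fun p hp => hg p (lvl_sub l J S hp)) (hs J) m J
    have h6 := (pointwise l m S g hg' J).2
    have h7 := hm (J + 1)
    rw [Finset.sum_range_succ] at h7
    have h8 : 0 ≤ ∑ j ∈ Finset.range J, eps K m j :=
      Finset.sum_nonneg fun j _ => eps_nonneg hK m j
    have h9 := eps_nonneg hK m J
    have hV : 0 ≤ ∏ p ∈ lvl l J S, (1 - g p) := Finset.prod_nonneg fun p hp => by
      have := (hgl p hp).2
      linarith
    have hP : 0 ≤ ∏ p ∈ blw l J S, (1 - g p) := Finset.prod_nonneg fun p hp => by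
      have := (hg' p (blw_sub l J S hp)).2
      linarith
    set P := ∏ p ∈ blw l J S, (1 - g p)
    set V := ∏ p ∈ lvl l J S, (1 - g p)
    set U := mp (cU l m J) (blw l J S) g
    set L := mp (cL l m J) (blw l J S) g
    set b := cs (bb (2 * (m + J))) (lvl l J S) g
    set c := cs (cc (2 * (m + J) + 1)) (lvl l J S) g
    set E := ∑ j ∈ Finset.range J, eps K m j
    set e := eps K m J
    have hexp : Real.exp E ≤ 2 := by
      have h10 : Real.exp E ≤ Real.exp (1 / 4) := Real.exp_le_exp.2 (by linarith)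
      have h11 : Real.exp (1 / 4) ≤ Real.exp (1 / 2) := Real.exp_le_exp.2 (by norm_num)
      have h12 : Real.exp (1 / 2) ≤ 2 := by
        have h13 : Real.exp (1 / 2) ^ 2 ≤ 2 ^ 2 := by
          rw [← Real.exp_nat_mul]
          have := Real.exp_one_lt_d9
          norm_num
          linarith
        exact le_of_sq_le_sq h13 (by norm_num)
      linarith
    have hb : b ≤ (1 + e) * V := by linarith
    have hU0 : 0 ≤ U := hP.trans h6
    refine ⟨?_, ?_⟩
    · calc U * b ≤ (Real.exp E * P) * ((1 + e) * V) :=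
            mul_le_mul ihU hb (hV.trans h1) (by positivity)
        _ ≤ (Real.exp E * P) * (Real.exp e * V) := by
            apply mul_le_mul_of_nonneg_left _ (by positivity)
            apply mul_le_mul_of_nonneg_right _ hV
            have := Real.add_one_le_exp e
            linarith
        _ = Real.exp (E + e) * (P * V) := by
            rw [Real.exp_add]
            ring
    · have hL0 : 0 ≤ (1 - 2 * E) * P := mul_nonneg (by linarith) hP
      have e1 : (1 - 2 * E) * P * V ≤ L * b := mul_le_mul ihL h1 hV (hL0.trans ihL)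
      have e2 : U * c ≤ (2 * P) * (e * V) := by
        apply mul_le_mul _ h5 h3 (by positivity)
        exact ihU.trans (mul_le_mul_of_nonneg_right hexp hP)
      nlinarith

end Pool.Agent.PENT
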