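import Pool.Agent.Lib_helper8.PENT.YPt
import Pool.Agent.Lib_helper39.PEQF.All

/-!
# PENT: the sieve over the forms = `(Y)` (helper8)
-/

set_option autoImplicit false

namespace Pool.Agent.PENT

open Finset Filter

/-! ### 1. The family modulo squares of primes -/

theorem eqfam_sq {O : Finset (ℤ × ℤ × ℤ)} {D R : ℝ} (hO : EQ.EqFam O (fun v => v) D R)
    (A : Finset ℕ) (hA : ∀ q ∈ A, q.Prime ∧ q ≠ 2) (hD : ((∏ q ∈ A, q : ℕ) : ℝ) ^ 2 ≤ D)
    (f : ℕ → ℤ × ℤ × ℤ → ℝ) (hf : ∀ q ∈ A, EQ.Per3 (q ^ 2) (f q))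
    (h01 : ∀ q ∈ A, ∀ v, 0 ≤ f q v ∧ f q v ≤ 1) :
    |∑ v ∈ O, ∏ q ∈ A, f q v - (O.card : ℝ) * ∏ q ∈ A, EQ.MV (q ^ 2) (f q)| ≤ R := by
  classical
  have hinj : Set.InjOn (fun q : ℕ => q ^ 2) (A : Set ℕ) := by
    intro a _ b _ hab
    simp only at hab
    exact Nat.pow_left_injective (n := 2) (by norm_num) hab
  have hs : ∀ q : ℕ, Nat.sqrt (q ^ 2) = q := fun q => Nat.sqrt_eq' q
  have h := hO (A.image (fun q => q ^ 2)) (fun m hm => by
      obtain ⟨q, hq, rfl⟩ := Finset.mem_image.1 hm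
      exact ((hA q hq).1.eq_two_or_odd'.resolve_left (hA q hq).2).pow)
    (fun m hm m' hm' hne => by
      obtain ⟨q, hq, rfl⟩ := Finset.mem_image.1 hm
      obtain ⟨q', hq', rfl⟩ := Finset.mem_image.1 hm'
      apply Nat.Coprime.pow
      exact (Nat.coprime_primes (hA q hq).1 (hA q' hq').1).2 (fun h => hne (by rw [h])))
    (by
      rw [Finset.prod_image hinj, Finset.prod_pow]
      push_cast
      push_cast at hD
      exact hD)
    (fun m => f (Nat.sqrt m))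
    (fun m hm => by
      obtain ⟨q, hq, rfl⟩ := Finset.mem_image.1 hm
      simp only [hs]
      exact hf q hq)
    (fun m hm v => by
      obtain ⟨q, hq, rfl⟩ := Finset.mem_image.1 hm
      simp only [hs]
      exact h01 q hq v)
  rw [Finset.prod_image hinj] at h
  simp only [hs] at h
  have e : ∑ t ∈ O, ∏ m ∈ A.image (fun q => q ^ 2), f (Nat.sqrt m) t =
      ∑ v ∈ O, ∏ q ∈ A, f q v := by
    apply Finset.sum_congr rfl
    intro v _
    rw [Finset.prod_image hinj]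
    simp only [hs]
  rw [e] at h
  exact h

/-! ### 2. The weights of the sieve -/

/-- the indicator of `OKV` -/
noncomputable def Wv (u : Fin 5 → ℤ × ℤ) (v : ℤ × ℤ × ℤ) : ℝ :=
  ∏ q ∈ pA u, iov u (ix u q) q v

theorem iov_01 (u : Fin 5 → ℤ × ℤ) (i : Fin 5) (q : ℕ) (v : ℤ × ℤ × ℤ) :
    0 ≤ iov u i q v ∧ iov u i q v ≤ 1 := by
  unfold iov
  split_ifs <;> norm_num

open Classical in
theorem Wv_eq {P : ℝ} {u : Fin 5 → ℤ × ℤ} (h : GU P u) (v : ℤ × ℤ × ℤ) :
    Wv u v = if OKV u v then 1 else 0 := by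
  unfold Wv
  split_ifs with hok
  · apply Finset.prod_eq_one
    intro q hq
    obtain ⟨j, hj⟩ := mem_pA.1 hq
    rw [ix_eq h hj]
    unfold iov
    rw [if_pos (hok j q hj)]
  · unfold OKV at hok
    push Not at hok
    obtain ⟨j, q, hq, hn⟩ := hok
    apply Finset.prod_eq_zero (mem_pA.2 ⟨j, hq⟩)
    rw [ix_eq h hq]
    unfold iov
    rw [if_neg hn]

theorem pA_prime {u : Fin 5 → ℤ × ℤ} {q : ℕ} (hq : q ∈ pA u) : q.Prime := by
  obtain ⟨j, hj⟩ := mem_pA.1 hq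
  exact Nat.prime_of_mem_primeFactors hj

theorem pA_facts {P : ℝ} {u : Fin 5 → ℤ × ℤ} (h : GU P u) {q : ℕ} (hq : q ∈ pA u) :
    q.Prime ∧ q % 4 = 1 ∧ P < (q : ℝ) ∧ q ≠ 2 := by
  obtain ⟨j, hj⟩ := mem_pA.1 hq
  have h1 := Nat.prime_of_mem_primeFactors hj
  have h2 := (h.dp j).2 q h1 (Nat.dvd_of_mem_primeFactors hj)
  refine ⟨h1, h2.1, h2.2, ?_⟩
  rintro rfl
  norm_num at h2

/-- sums over the primes of the determinants, edge by edge -/
theorem prod_pA {P : ℝ} {u : Fin 5 → ℤ × ℤ} (h : GU P u) (f : ℕ → ℝ) :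
    ∏ q ∈ pA u, f q = ∏ j, ∏ q ∈ (ej u j).primeFactors, f q := by
  unfold pA
  apply Finset.prod_biUnion
  intro i _ j _ hij
  rw [Function.onFun]
  exact (h.cop i j hij).disjoint_primeFactors

/-- the sieve over the forms -/
theorem y_sieve : ∃ k : ℕ, ∀ (O : Finset (ℤ × ℤ × ℤ)) (D R : ℝ) (P : ℝ) (u : Fin 5 → ℤ × ℤ)
    (Y : ℕ), EQ.EqFam O (fun v => v) D R → 0 ≤ R → GU P u → 1 ≤ Y →
    ((∏ q ∈ pA u, q : ℕ) : ℝ) ^ 2 * (Y : ℝ) ^ (2 * k) ≤ D →
    1 / 2 * ((O.card : ℝ) * (∏ q ∈ pA u, EQ.MV (q ^ 2) (iov u (ix u q) q)) *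
        ∏ p ∈ yS u Y, (1 - EQ.MV (p ^ 2) (xv (bp P p) u p))) - (Y : ℝ) ^ k * R ≤
      ∑ v ∈ O, Wv u v * ∏ p ∈ yS u Y, (1 - xv (bp P p) u p v) := by
  classical
  obtain ⟨k, hk⟩ := brun_primes 12 5120 (by norm_num) (by norm_num)
  refine ⟨k, ?_⟩
  intro O D R P u Y hO hR hu hY hD
  have hMV0 : ∀ q, 0 ≤ EQ.MV (q ^ 2) (iov u (ix u q) q) := by
    intro q
    unfold EQ.MV
    apply div_nonneg _ (Nat.cast_nonneg _)
    exact Finset.sum_nonneg fun v _ => (iov_01 _ _ _ _).1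
  have h := hk (ℤ × ℤ × ℤ) O (Wv u) (fun v p => xv (bp P p) u p v) (yS u Y) Y
    (fun p => EQ.MV (p ^ 2) (xv (bp P p) u p))
    ((O.card : ℝ) * ∏ q ∈ pA u, EQ.MV (q ^ 2) (iov u (ix u q) q)) R hY
    (fun v _ => Finset.prod_nonneg fun q _ => (iov_01 _ _ _ _).1)
    (fun v _ p _ => xv_01 _ (by linarith [(bp_bd P p).1]) (bp_bd P p).2 u p v)
    (fun p hp => by
      obtain ⟨h1, _, h3, _⟩ := mem_yS.1 hp
      exact ⟨h1, h3⟩)
    (fun p hp => by
      obtain ⟨h1, h2, h3, _⟩ := mem_yS.1 hp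
      obtain ⟨k1, k2, k3⟩ := MV_xv h1 h2 (bp P p) (bp_bd P p).1 (bp_bd P p).2 u
        (fun j => hu.prim p h1 j)
      refine ⟨k1, k2, k3.trans ?_⟩
      have hp5 : (5 : ℝ) ≤ p := by
        have h4 := h1.two_le
        have : 5 ≤ p := by
          by_contra h5
          interval_cases p <;> omega
        exact_mod_cast this
      have hb := (bp_bd P p).1
      have e1 : 20 / (p : ℝ) ^ 2 ≤ 4 / p := by
        rw [div_le_div_iff₀ (by positivity) (by positivity)]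
        nlinarith
      have e2 : 10 * (1 - bp P p) / (p : ℝ) ≤ 8 / p := by
        apply div_le_div_of_nonneg_right _ (by linarith)
        linarith
      have e3 : (12 : ℝ) / p = 8 / p + 4 / p := by ring
      linarith)
    (mul_nonneg (Nat.cast_nonneg _) (Finset.prod_nonneg fun q _ => hMV0 q)) hR
    (fun T hT hTY => by
      have hdis : Disjoint (pA u) T := by
        rw [Finset.disjoint_left]
        intro q h1 h2
        exact (mem_yS.1 (hT h2)).2.2.2 h1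
      set f : ℕ → ℤ × ℤ × ℤ → ℝ := fun q =>
        if q ∈ pA u then iov u (ix u q) q else xv (bp P q) u q with hf
      have f1 : ∀ q ∈ pA u, f q = iov u (ix u q) q := fun q hq => by
        rw [hf]
        simp only [if_pos hq]
      have f2 : ∀ q ∈ T, f q = xv (bp P q) u q := fun q hq => by
        rw [hf]
        simp only [if_neg (Finset.disjoint_right.1 hdis hq)]
      have hq := eqfam_sq hO (pA u ∪ T) (fun q hq => by
          rcases Finset.mem_union.1 hq with h1 | h1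
          · exact ⟨(pA_facts hu h1).1, (pA_facts hu h1).2.2.2⟩
          · obtain ⟨h2, h3, _, _⟩ := mem_yS.1 (hT h1)
            refine ⟨h2, ?_⟩
            rintro rfl
            norm_num at h3)
        (by
          rw [Finset.prod_union hdis]
          refine le_trans ?_ hD
          push_cast
          rw [mul_pow, pow_mul' (Y : ℝ) 2 k]
          have h1 : ((∏ p ∈ T, p : ℕ) : ℝ) ≤ (Y : ℝ) ^ k := by exact_mod_cast hTY
          push_cast at h1
          gcongr)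
        f (fun q hq => by
          rw [hf]
          simp only
          split_ifs
          · exact per_iov _ _ _
          · exact per_xv _ _ _)
        (fun q hq v => by
          rw [hf]
          simp only
          split_ifs
          · exact iov_01 _ _ _ _
          · exact xv_01 _ (by linarith [(bp_bd P q).1]) (bp_bd P q).2 u q v)
      rw [Finset.prod_union hdis] at hq
      have e1 : ∑ v ∈ O, ∏ q ∈ pA u ∪ T, f q v =
          ∑ v ∈ O, Wv u v * ∏ p ∈ T, xv (bp P p) u p v := by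
        apply Finset.sum_congr rfl
        intro v _
        rw [Finset.prod_union hdis]
        congr 1
        · exact Finset.prod_congr rfl fun q hq => by rw [f1 q hq]
        · exact Finset.prod_congr rfl fun q hq => by rw [f2 q hq]
      have e2 : ∏ q ∈ pA u, EQ.MV (q ^ 2) (f q) =
          ∏ q ∈ pA u, EQ.MV (q ^ 2) (iov u (ix u q) q) :=
        Finset.prod_congr rfl fun q hq => by rw [f1 q hq]
      have e3 : ∏ q ∈ T, EQ.MV (q ^ 2) (f q) = ∏ p ∈ T, EQ.MV (p ^ 2) (xv (bp P p) u p) :=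
        Finset.prod_congr rfl fun q hq => by rw [f2 q hq]
      rw [e1, e2, e3, ← mul_assoc] at hq
      exact hq)
  exact h.1

/-- from the forms to the polygons -/
theorem y_sum {p : Par} {t : ℝ} {X : ℕ} (u : Fin 5 → ℤ × ℤ) (hu : p.GP X u)
    (O : Finset (ℤ × ℤ × ℤ))
    (hO : ∀ v ∈ O, v.1 * v.2.2 = v.2.1 ^ 2 + 1 ∧ (X : ℤ) < v.1 ∧ v.1 ≤ 2 * X ∧
      (X : ℤ) < v.2.1 ∧ v.2.1 ≤ 2 * X) (Y : ℕ)
    (hY : ∀ l : ℕ, (l : ℝ) ≤ (p.at' t).Y X ↔ l ≤ Y) (hPY : PP X ≤ (p.at' t).Y X) :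
    ∑ v ∈ O, Wv u v * ∏ q ∈ yS u Y, (1 - xv (bp (PP X) q) u q v) ≤
      ∑ τ ∈ ((p.at' t).T X).filter (fun τ => τ.u = u),
        ∏ j, cm (wy (PP X) ((p.at' t).Y X)) (τ.y j) := by
  classical
  have hgu := hu.gu
  have h1 : ∑ v ∈ O, Wv u v * ∏ q ∈ yS u Y, (1 - xv (bp (PP X) q) u q v) =
      ∑ v ∈ O.filter (OKV u), ∏ q ∈ yS u Y, (1 - xv (bp (PP X) q) u q v) := by
    rw [Finset.sum_filter]
    apply Finset.sum_congr rfl
    intro v _
    rw [Wv_eq hgu v]
    split_ifs <;> simp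
  rw [h1]
  have h2 : ∑ v ∈ O.filter (OKV u), ∏ q ∈ yS u Y, (1 - xv (bp (PP X) q) u q v) ≤
      ∑ v ∈ O.filter (OKV u), ∏ j, cm (wy (PP X) ((p.at' t).Y X)) ((pof u v).y j) := by
    apply Finset.sum_le_sum
    intro v hv
    obtain ⟨h3, h4⟩ := Finset.mem_filter.1 hv
    obtain ⟨k1, k2, _, _, _⟩ := hO v h3
    exact y_point hgu k1 (lt_of_le_of_lt (by positivity) k2) h4 _ Y hY hPY
  refine h2.trans ?_
  have hinj : Set.InjOn (pof u) (O.filter (OKV u) : Set (ℤ × ℤ × ℤ)) := by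
    intro v _ w _ hvw
    unfold pof at hvw
    injection hvw with e1 e2 e3 _
    exact Prod.ext e1 (Prod.ext e2 e3)
  rw [← Finset.sum_image (f := fun τ : Pol 5 => ∏ j, cm (wy (PP X) ((p.at' t).Y X)) (τ.y j)) hinj]
  apply Finset.sum_le_sum_of_subset_of_nonneg
  · intro τ hτ
    obtain ⟨v, hv, rfl⟩ := Finset.mem_image.1 hτ
    obtain ⟨h3, h4⟩ := Finset.mem_filter.1 hv
    obtain ⟨k1, k2, k3, k4, k5⟩ := hO v h3
    rw [Finset.mem_filter, mem_T]
    refine ⟨⟨k2, k3, k4, k5, pof_good hgu k1 h4, ?_⟩, rfl⟩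
    exact ⟨hu.pos1, hu.pos2, hu.low, hu.upp, hu.sep, hu.dp, hu.cop, hu.nice⟩
  · intro τ _ _
    exact Finset.prod_nonneg fun j _ => cm_nonneg _ (fun l => (wy_01 _ _ l).1) _

/-! ### 3. Sizes -/

theorem ej_le {p : Par} {κ : ℝ} (hp : p.Ok κ) {X : ℕ} (hX : 1 ≤ X) {u : Fin 5 → ℤ × ℤ}
    (hu : p.GP X u) (j : Fin 5) : (ej u j : ℝ) ≤ (X : ℝ) ^ (11 / 5 * κ) := by
  have hX' : (1 : ℝ) ≤ X := by exact_mod_cast hX
  have hκ : ∀ j, (nm (u j) : ℝ) ≤ (X : ℝ) ^ (11 / 10 * κ) := by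
    intro j
    refine (hu.upp j).trans (Real.rpow_le_rpow_of_exponent_le hX' ?_)
    have h1 := hp.ek j
    have h2 := hp.e4 j
    have h3 := hp.ep0
    linarith
  have h1 : (ej u j : ℝ) ≤ (nm (u j) : ℝ) * (nm (u (j + 1)) : ℝ) := by
    have a1 := hu.pos1 j
    have a2 := hu.pos2 j
    have b1 := hu.pos1 (j + 1)
    have b2 := hu.pos2 (j + 1)
    have h2 : ((ej u j : ℕ) : ℤ) ≤ nm (u j) * nm (u (j + 1)) := by
      unfold ej dt nm
      rw [Int.natCast_natAbs, abs_le]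
      constructor <;> nlinarith [mul_pos a1 b1, mul_pos a1 b2, mul_pos a2 b1, mul_pos a2 b2]
    exact_mod_cast h2
  have h2 : (0 : ℝ) ≤ (nm (u (j + 1)) : ℝ) := by
    have b1 := hu.pos1 (j + 1)
    have b2 := hu.pos2 (j + 1)
    have : 0 ≤ nm (u (j + 1)) := by unfold nm; omega
    exact_mod_cast this
  calc (ej u j : ℝ) ≤ _ := h1
    _ ≤ (X : ℝ) ^ (11 / 10 * κ) * (X : ℝ) ^ (11 / 10 * κ) :=
        mul_le_mul (hκ j) (hκ (j + 1)) h2 (by positivity)
    _ = (X : ℝ) ^ (11 / 5 * κ) := by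
        rw [← Real.rpow_add (by linarith)]
        congr 1
        ring

/-- the product of the determinants -/
theorem prod_q {P : ℝ} {u : Fin 5 → ℤ × ℤ} (h : GU P u) :
    ((∏ q ∈ pA u, q : ℕ) : ℝ) = ∏ j, (ej u j : ℝ) := by
  rw [Nat.cast_prod, prod_pA h]
  apply Finset.prod_congr rfl
  intro j _
  rw [← Nat.cast_prod, Nat.prod_primeFactors_of_squarefree (h.dp j).1]

theorem prod_ej_le {p : Par} {κ : ℝ} (hp : p.Ok κ) {X : ℕ} (hX : 1 ≤ X) {u : Fin 5 → ℤ × ℤ}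
    (hu : p.GP X u) : ((∏ q ∈ pA u, q : ℕ) : ℝ) ≤ (X : ℝ) ^ (11 * κ) := by
  have hX' : (1 : ℝ) ≤ X := by exact_mod_cast hX
  rw [prod_q hu.gu]
  calc ∏ j, (ej u j : ℝ) ≤ ∏ _j : Fin 5, (X : ℝ) ^ (11 / 5 * κ) :=
        Finset.prod_le_prod (fun j _ => Nat.cast_nonneg _) fun j _ => ej_le hp hX hu j
    _ = (X : ℝ) ^ (11 * κ) := by
        rw [Finset.prod_const, Finset.card_univ, Fintype.card_fin, ← Real.rpow_natCast,
          ← Real.rpow_mul (by linarith)]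
        congr 1
        push_cast
        ring

/-- the number of primes -/
theorem card_pA_le {p : Par} {κ : ℝ} (hp : p.Ok κ) {X : ℕ} (hX : 1 ≤ X) {u : Fin 5 → ℤ × ℤ}
    (hu : p.GP X u) (hκ : 11 * κ ≤ 1 / 2) : ((pA u).card : ℝ) ≤ Real.log X := by
  have hX' : (1 : ℝ) ≤ X := by exact_mod_cast hX
  have h1 : (2 : ℝ) ^ (pA u).card ≤ (X : ℝ) ^ (11 * κ) := by
    refine le_trans ?_ (prod_ej_le hp hX hu)
    rw [Nat.cast_prod, ← Finset.prod_const]
    apply Finset.prod_le_prod (fun _ _ => by norm_num)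
    intro q hq
    exact_mod_cast (pA_prime hq).two_le
  have h2 := Real.log_le_log (by positivity) h1
  rw [Real.log_pow, Real.log_rpow (by linarith)] at h2
  have h3 := Real.log_two_gt_d9
  have h4 := Real.log_nonneg hX'
  have h5 : (0 : ℝ) ≤ ((pA u).card : ℝ) := Nat.cast_nonneg _
  nlinarith

/-- `∏ (1 - x) ≥ 1 - ∑ x` -/
theorem prod_one_sub_ge_one_sub_sum (s : Finset ℕ) (x : ℕ → ℝ) (h0 : ∀ q ∈ s, 0 ≤ x q)
    (h1 : ∀ q ∈ s, x q ≤ 1) : 1 - ∑ q ∈ s, x q ≤ ∏ q ∈ s, (1 - x q) := by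
  induction s using Finset.induction_on with
  | empty => simp
  | insert a s ha ih =>
    rw [Finset.sum_insert ha, Finset.prod_insert ha]
    have i1 := ih (fun q hq => h0 q (Finset.mem_insert_of_mem hq))
      (fun q hq => h1 q (Finset.mem_insert_of_mem hq))
    have a0 := h0 a (Finset.mem_insert_self a s)
    have a1 := h1 a (Finset.mem_insert_self a s)
    have s0 : 0 ≤ ∑ q ∈ s, x q := Finset.sum_nonneg fun q hq => h0 q (Finset.mem_insert_of_mem hq)
    have p0 : 0 ≤ ∏ q ∈ s, (1 - x q) := Finset.prod_nonneg fun q hq => by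
      have := h1 q (Finset.mem_insert_of_mem hq)
      linarith
    have p1 : ∏ q ∈ s, (1 - x q) ≤ 1 := Finset.prod_le_one (fun q hq => by
      have := h1 q (Finset.mem_insert_of_mem hq)
      linarith) fun q hq => by
      have := h0 q (Finset.mem_insert_of_mem hq)
      linarith
    nlinarith

/-- the densities at the primes of the determinants -/
theorem prod_MV_ok {P : ℝ} {u : Fin 5 → ℤ × ℤ} (h : GU P u) {Lg : ℝ}
    (hc : ((pA u).card : ℝ) ≤ Lg) (hP : 20 * Lg ≤ P) (hP10 : 10 ≤ P) :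
    1 / 2 * (∏ j, (2 : ℝ) ^ (ej u j).primeFactors.card / (ej u j : ℝ)) ≤
      ∏ q ∈ pA u, EQ.MV (q ^ 2) (iov u (ix u q) q) := by
  have hP0 : 0 < P := by linarith
  have h1 : ∏ q ∈ pA u, (2 / (q : ℝ)) * (1 - 10 / (q : ℝ)) ≤
      ∏ q ∈ pA u, EQ.MV (q ^ 2) (iov u (ix u q) q) := by
    apply Finset.prod_le_prod
    · intro q hq
      obtain ⟨k1, k2, k3, k4⟩ := pA_facts h hq
      have hq0 : (0 : ℝ) < q := by exact_mod_cast k1.pos
      have : 10 / (q : ℝ) ≤ 1 := by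
        rw [div_le_one hq0]
        linarith
      exact mul_nonneg (by positivity) (by linarith)
    · intro q hq
      obtain ⟨k1, k2, k3, k4⟩ := pA_facts h hq
      obtain ⟨i, hi⟩ := mem_pA.1 hq
      have h2 := MV_ok k1 k2 u (ix u q) (fun j => h.prim q k1 j) (fun j hj1 hj2 => by
        rw [ix_eq h hi] at hj1 hj2 ⊢
        exact h.nice i j hj1 hj2 q k1 (Nat.dvd_of_mem_primeFactors hi))
      refine le_trans (le_of_eq ?_) h2
      ring
  rw [Finset.prod_mul_distrib] at h1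
  have h2 : ∏ q ∈ pA u, (2 / (q : ℝ)) =
      ∏ j, (2 : ℝ) ^ (ej u j).primeFactors.card / (ej u j : ℝ) := by
    rw [prod_pA h]
    apply Finset.prod_congr rfl
    intro j _
    rw [Finset.prod_div_distrib, Finset.prod_const]
    congr 1
    rw [← Nat.cast_prod, Nat.prod_primeFactors_of_squarefree (h.dp j).1]
  rw [h2] at h1
  have h3 : (1 / 2 : ℝ) ≤ ∏ q ∈ pA u, (1 - 10 / (q : ℝ)) := by
    refine le_trans ?_ (prod_one_sub_ge_one_sub_sum (pA u) (fun q => 10 / (q : ℝ)) ?_ ?_)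
    · have h4 : ∑ q ∈ pA u, 10 / (q : ℝ) ≤ ∑ _q ∈ pA u, 10 / P := by
        apply Finset.sum_le_sum
        intro q hq
        obtain ⟨k1, k2, k3, k4⟩ := pA_facts h hq
        apply div_le_div_of_nonneg_left (by norm_num) hP0 k3.le
      rw [Finset.sum_const, nsmul_eq_mul] at h4
      have h5 : ((pA u).card : ℝ) * (10 / P) ≤ 1 / 2 := by
        rw [mul_div_assoc', div_le_iff₀ hP0]
        linarith
      linarith
    · intro q _
      positivity
    · intro q hq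
      obtain ⟨k1, k2, k3, k4⟩ := pA_facts h hq
      rw [div_le_one (by linarith)]
      linarith
  have h4 : 0 ≤ ∏ j, (2 : ℝ) ^ (ej u j).primeFactors.card / (ej u j : ℝ) :=
    Finset.prod_nonneg fun j _ => by positivity
  calc _ = (∏ j, (2 : ℝ) ^ (ej u j).primeFactors.card / (ej u j : ℝ)) * (1 / 2) := by ring
    _ ≤ _ := mul_le_mul_of_nonneg_left h3 h4
    _ ≤ _ := h1

end Pool.Agent.PENT
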