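import Pool.Agent.Lib_helper8.PENT.YS
import Pool.Agent.Lib_helper8.PENT.BH
import Pool.Agent.Lib_helper97.PENT.TopB

/-!
# PENT: the sieve over the forms, pointwise part (helper8)
-/

set_option autoImplicit false

namespace Pool.Agent.PENT

open Finset

/-! ### 1. Facts about the polygons -/

/-- `e_j` -/
def ej (u : Fin 5 → ℤ × ℤ) (j : Fin 5) : ℕ := (dt (u j) (u (j + 1))).natAbs

/-- what is used of the polygon -/
structure GU (P : ℝ) (u : Fin 5 → ℤ × ℤ) : Prop where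
  dp : ∀ j, DP P (ej u j)
  cop : ∀ i j, i ≠ j → Nat.Coprime (ej u i) (ej u j)
  nice : ∀ i k, k ≠ i → k ≠ i + 1 → ∀ q : ℕ, q.Prime → q ∣ ej u i → ¬ (q : ℤ) ∣ dt (u i) (u k)

theorem Par.GP.gu {p : Par} {X : ℕ} {u : Fin 5 → ℤ × ℤ} (h : p.GP X u) : GU (PP X) u where
  dp := h.dp
  cop := fun i j hij => Int.isCoprime_iff_gcd_eq_one.1 (h.cop i j hij)
  nice := fun i k h1 h2 q hq hqi hqk => by
    have h3 := h.nice i k h1 h2
    have h4 : (q : ℤ) ∣ dt (u i) (u (i + 1)) := Int.natCast_dvd.2 hqi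
    have h5 := h3.isUnit_of_dvd' h4 hqk
    rw [Int.isUnit_iff] at h5
    have := hq.one_lt
    omega

theorem GU.prim {P : ℝ} {u : Fin 5 → ℤ × ℤ} (h : GU P u) (q : ℕ) (hq : q.Prime) (j : Fin 5) :
    ¬ ((q : ℤ) ∣ (u j).1 ∧ (q : ℤ) ∣ (u j).2) := by
  rintro ⟨h1, h2⟩
  have h3 : q ∣ ej u j := by
    unfold ej dt
    rw [← Int.natCast_dvd]
    exact dvd_sub (h1.mul_right _) (h2.mul_right _)
  have h4 : q ∣ ej u (j - 1) := by
    unfold ej dt
    rw [← Int.natCast_dvd]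
    rw [sub_add_cancel]
    exact dvd_sub (h2.mul_left _) (h1.mul_left _)
  have h5 := h.cop j (j - 1) (by
    intro h
    have : (1 : Fin 5) = 0 := by
      have h' : j - 1 + 1 = j + 1 := by rw [← h]
      rw [sub_add_cancel] at h'
      simpa using h'.symm
    exact absurd this (by decide))
  exact Nat.not_coprime_of_dvd_of_dvd hq.one_lt h3 h4 h5

/-- two parallel vectors: the forms vanish at the same time -/
theorem qv_par {q : ℕ} (hq : q.Prime) (v : ℤ × ℤ × ℤ) (c c' : ℤ × ℤ)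
    (hc : ¬ ((q : ℤ) ∣ c.1 ∧ (q : ℤ) ∣ c.2)) (hd : (q : ℤ) ∣ dt c c') (h : (q : ℤ) ∣ qv v c) :
    (q : ℤ) ∣ qv v c' := by
  have hqp : Prime (q : ℤ) := Nat.prime_iff_prime_int.1 hq
  unfold qv qf dt at *
  have e1 : c.1 ^ 2 * (v.1 * c'.1 ^ 2 + 2 * v.2.1 * c'.1 * c'.2 + v.2.2 * c'.2 ^ 2) =
      c'.1 ^ 2 * (v.1 * c.1 ^ 2 + 2 * v.2.1 * c.1 * c.2 + v.2.2 * c.2 ^ 2) +
      (c.1 * c'.2 - c.2 * c'.1) * (2 * v.2.1 * c'.1 * c.1 + v.2.2 * (c.1 * c'.2 + c.2 * c'.1)) := by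
    ring
  have e2 : c.2 ^ 2 * (v.1 * c'.1 ^ 2 + 2 * v.2.1 * c'.1 * c'.2 + v.2.2 * c'.2 ^ 2) =
      c'.2 ^ 2 * (v.1 * c.1 ^ 2 + 2 * v.2.1 * c.1 * c.2 + v.2.2 * c.2 ^ 2) -
      (c.1 * c'.2 - c.2 * c'.1) * (2 * v.2.1 * c'.2 * c.2 + v.1 * (c.1 * c'.2 + c.2 * c'.1)) := by
    ring
  have d1 : (q : ℤ) ∣ c.1 ^ 2 * (v.1 * c'.1 ^ 2 + 2 * v.2.1 * c'.1 * c'.2 + v.2.2 * c'.2 ^ 2) := by
    rw [e1]
    exact dvd_add (h.mul_left _) (hd.mul_right _)
  have d2 : (q : ℤ) ∣ c.2 ^ 2 * (v.1 * c'.1 ^ 2 + 2 * v.2.1 * c'.1 * c'.2 + v.2.2 * c'.2 ^ 2) := by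
    rw [e2]
    exact dvd_sub (h.mul_left _) (hd.mul_right _)
  rcases hqp.dvd_or_dvd d1 with d3 | d3
  · rcases hqp.dvd_or_dvd d2 with d4 | d4
    · exact absurd ⟨hqp.dvd_of_dvd_pow d3, hqp.dvd_of_dvd_pow d4⟩ hc
    · exact d4
  · exact d3

/-- a prime `3 mod 4` does not divide `Q(u)` -/
theorem qv_three {q : ℕ} (hq : q.Prime) (h4 : q % 4 = 3) (v : ℤ × ℤ × ℤ)
    (hv : v.1 * v.2.2 = v.2.1 ^ 2 + 1) (c : ℤ × ℤ) (hc : ¬ ((q : ℤ) ∣ c.1 ∧ (q : ℤ) ∣ c.2)) :
    ¬ (q : ℤ) ∣ qv v c := by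
  intro h
  haveI : Fact q.Prime := ⟨hq⟩
  have hqp : Prime (q : ℤ) := Nat.prime_iff_prime_int.1 hq
  have key : ∀ x y : ℤ, (q : ℤ) ∣ x ^ 2 + y ^ 2 → (q : ℤ) ∣ y := by
    intro x y hxy
    by_contra hy
    have hy' : ((y : ℤ) : ZMod q) ≠ 0 := fun h0 => hy ((ZMod.intCast_zmod_eq_zero_iff_dvd y q).1 h0)
    have h1 : ((x : ℤ) : ZMod q) ^ 2 + ((y : ℤ) : ZMod q) ^ 2 = 0 := by
      have := (ZMod.intCast_zmod_eq_zero_iff_dvd (x ^ 2 + y ^ 2) q).2 hxy
      push_cast at this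
      exact this
    have h2 : (((x : ℤ) : ZMod q) / ((y : ℤ) : ZMod q)) ^ 2 = -1 := by
      rw [div_pow, div_eq_iff (pow_ne_zero 2 hy')]
      linear_combination h1
    exact ZMod.mod_four_ne_three_of_sq_eq_neg_one h2 h4
  have e1 : (v.1 * c.1 + v.2.1 * c.2) ^ 2 + c.2 ^ 2 = v.1 * qv v c := by
    unfold qv qf
    linear_combination (-c.2 ^ 2) * hv
  have e2 : (v.2.1 * c.1 + v.2.2 * c.2) ^ 2 + c.1 ^ 2 = v.2.2 * qv v c := by
    unfold qv qf
    linear_combination (-c.1 ^ 2) * hv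
  apply hc
  constructor
  · apply key _ _
    rw [e2]
    exact h.mul_left _
  · apply key _ _
    rw [e1]
    exact h.mul_left _

/-- `Q(u) > 0` -/
theorem qv_pos (v : ℤ × ℤ × ℤ) (hv : v.1 * v.2.2 = v.2.1 ^ 2 + 1) (h0 : 0 < v.1) (c : ℤ × ℤ)
    (hc : c ≠ (0, 0)) : 0 < qv v c := by
  have e1 : (v.1 * c.1 + v.2.1 * c.2) ^ 2 + c.2 ^ 2 = v.1 * qv v c := by
    unfold qv qf
    linear_combination (-c.2 ^ 2) * hv
  have h1 : 0 < (v.1 * c.1 + v.2.1 * c.2) ^ 2 + c.2 ^ 2 := by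
    by_cases h2 : c.2 = 0
    · have h3 : c.1 ≠ 0 := fun h3 => hc (Prod.ext h3 h2)
      rw [h2, mul_zero, add_zero]
      have : v.1 * c.1 ≠ 0 := mul_ne_zero h0.ne' h3
      positivity
    · positivity
  rw [e1] at h1
  exact (mul_pos_iff_of_pos_left h0).1 h1

/-! ### 2. The polygon of a form -/

/-- the polygon -/
def pof (u : Fin 5 → ℤ × ℤ) (v : ℤ × ℤ × ℤ) : Pol 5 := ⟨v.1, v.2.1, v.2.2, u⟩

/-- the primes of the determinants -/
def pA (u : Fin 5 → ℤ × ℤ) : Finset ℕ := univ.biUnion (fun j => (ej u j).primeFactors)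

theorem mem_pA {u : Fin 5 → ℤ × ℤ} {q : ℕ} : q ∈ pA u ↔ ∃ j, q ∈ (ej u j).primeFactors := by
  unfold pA
  simp

open Classical in
/-- the edge of a prime -/
noncomputable def ix (u : Fin 5 → ℤ × ℤ) (q : ℕ) : Fin 5 :=
  if h : ∃ j, q ∈ (ej u j).primeFactors then h.choose else 0

theorem ix_eq {P : ℝ} {u : Fin 5 → ℤ × ℤ} (h : GU P u) {q : ℕ} {j : Fin 5}
    (hq : q ∈ (ej u j).primeFactors) : ix u q = j := by
  unfold ix
  have hex : ∃ j, q ∈ (ej u j).primeFactors := ⟨j, hq⟩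
  rw [dif_pos hex]
  by_contra hne
  have h1 := hex.choose_spec
  have h2 := h.cop _ _ hne
  exact Nat.not_coprime_of_dvd_of_dvd (Nat.prime_of_mem_primeFactors hq).one_lt
    (Nat.dvd_of_mem_primeFactors h1) (Nat.dvd_of_mem_primeFactors hq) h2

/-- the form is admissible at all primes of the determinants -/
def OKV (u : Fin 5 → ℤ × ℤ) (v : ℤ × ℤ × ℤ) : Prop :=
  ∀ j, ∀ q ∈ (ej u j).primeFactors, okv u j q v

theorem OKV.dvd {P : ℝ} {u : Fin 5 → ℤ × ℤ} (h : GU P u) {v : ℤ × ℤ × ℤ} (hv : OKV u v)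
    (j : Fin 5) : (ej u j : ℤ) ∣ qv v (u j) ∧ (ej u j : ℤ) ∣ qv v (u (j + 1)) := by
  have hsq := (h.dp j).1
  have key : ∀ z : ℤ, (∀ q ∈ (ej u j).primeFactors, (q : ℤ) ∣ z) → (ej u j : ℤ) ∣ z := by
    intro z hz
    rw [Int.natCast_dvd]
    rw [← Nat.prod_primeFactors_of_squarefree hsq]
    apply Finset.prod_primes_dvd
    · intro q hq
      exact (Nat.prime_of_mem_primeFactors hq).prime
    · intro q hq
      exact Int.natCast_dvd.1 (hz q hq)
  refine ⟨key _ fun q hq => (hv j q hq).1, key _ fun q hq => ?_⟩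
  have hp := Nat.prime_of_mem_primeFactors hq
  exact qv_par hp v (u j) (u (j + 1)) (h.prim q hp j)
    (Int.natCast_dvd.2 (Nat.dvd_of_mem_primeFactors hq)) (hv j q hq).1

theorem pof_good {P : ℝ} {u : Fin 5 → ℤ × ℤ} (h : GU P u) {v : ℤ × ℤ × ℤ}
    (hv : v.1 * v.2.2 = v.2.1 ^ 2 + 1) (hok : OKV u v) : (pof u v).Good where
  disc := by
    show v.1 * v.2.2 - v.2.1 ^ 2 = 1
    rw [hv]
    ring
  ne := fun j => by
    show dt (u j) (u (j + 1)) ≠ 0
    have h1 := (h.dp j).1.ne_zero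
    unfold ej at h1
    exact fun h2 => h1 (by rw [h2]; rfl)
  d1 := fun j => by
    show dt (u j) (u (j + 1)) ∣ qv v (u j)
    have h1 := (hok.dvd h j).1
    unfold ej at h1
    exact Int.natAbs_dvd.1 h1
  d2 := fun j => by
    show dt (u j) (u (j + 1)) ∣ qv v (u (j + 1))
    have h1 := (hok.dvd h j).2
    unfold ej at h1
    exact Int.natAbs_dvd.1 h1

/-- `y_j e_(j-1) e_j = Q(u_j)` -/
theorem pof_y {P : ℝ} {u : Fin 5 → ℤ × ℤ} (h : GU P u) {v : ℤ × ℤ × ℤ}
    (hok : OKV u v) (j : Fin 5) :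
    (pof u v).y j * (ej u (j - 1) * ej u j) = (qv v (u j)).natAbs := by
  have h1 := (hok.dvd h j).1
  have h2 := (hok.dvd h (j - 1)).2
  rw [sub_add_cancel] at h2
  have hne : j - 1 ≠ j := by
    intro h
    have : (1 : Fin 5) = 0 := by
      have h' : j - (j - 1) = 0 := by rw [h]; exact sub_self j
      simpa using h'
    exact absurd this (by decide)
  have h3 : ej u (j - 1) * ej u j ∣ (qv v (u j)).natAbs :=
    (h.cop _ _ hne).mul_dvd_of_dvd_of_dvd (Int.natCast_dvd.1 h2) (Int.natCast_dvd.1 h1)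
  show ((qf v.1 v.2.1 v.2.2 (u j)).natAbs / ((dt (u (j - 1)) (u (j - 1 + 1))).natAbs *
    (dt (u j) (u (j + 1))).natAbs)) * (ej u (j - 1) * ej u j) = _
  exact Nat.div_mul_cancel h3

/-! ### 3. The weights -/

theorem wy_01 (P Y : ℝ) (l : ℕ) : 0 ≤ wy P Y l ∧ wy P Y l ≤ 1 := by
  unfold wy
  split_ifs <;> norm_num

theorem cm_nonneg (g : ℕ → ℝ) (hg : ∀ l, 0 ≤ g l) (m : ℕ) : 0 ≤ cm g m := by
  unfold cm Finsupp.prod
  exact Finset.prod_nonneg fun p _ => pow_nonneg (hg p) _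

/-- the weight `b_p` -/
noncomputable def bp (P : ℝ) (p : ℕ) : ℝ := if (p : ℝ) ≤ P then 1 / 2 else 1 / 4

theorem bp_bd (P : ℝ) (p : ℕ) : 1 / 4 ≤ bp P p ∧ bp P p ≤ 1 := by
  unfold bp
  split_ifs <;> norm_num

theorem xv_01 (b : ℝ) (hb : 0 ≤ b) (hb1 : b ≤ 1) (u : Fin 5 → ℤ × ℤ) (p : ℕ) (v : ℤ × ℤ × ℤ) :
    0 ≤ xv b u p v ∧ xv b u p v ≤ 1 := by
  unfold xv
  have h0 : 0 ≤ ∏ j, if (p : ℤ) ∣ qv v (u j) then b else 1 :=
    Finset.prod_nonneg fun j _ => by split_ifs <;> [exact hb; exact zero_le_one]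
  have h1 : (∏ j, if (p : ℤ) ∣ qv v (u j) then b else 1) ≤ 1 :=
    Finset.prod_le_one (fun j _ => by split_ifs <;> [exact hb; exact zero_le_one])
      fun j _ => by split_ifs <;> [exact hb1; exact le_rfl]
  split_ifs
  · norm_num
  · exact ⟨by linarith, by linarith⟩

open Classical in
/-- the primes of the sieve -/
noncomputable def yS (u : Fin 5 → ℤ × ℤ) (Y : ℕ) : Finset ℕ :=
  (Finset.Icc 1 Y).filter (fun p => p.Prime ∧ p % 4 = 1 ∧ p ∉ pA u)

theorem mem_yS {u : Fin 5 → ℤ × ℤ} {Y p : ℕ} :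
    p ∈ yS u Y ↔ p.Prime ∧ p % 4 = 1 ∧ p ≤ Y ∧ p ∉ pA u := by
  unfold yS
  rw [Finset.mem_filter, Finset.mem_Icc]
  constructor
  · rintro ⟨⟨_, h2⟩, h3, h4, h5⟩
    exact ⟨h3, h4, h2, h5⟩
  · rintro ⟨h1, h2, h3, h4⟩
    exact ⟨⟨h1.one_lt.le, h3⟩, h1, h2, h4⟩

/-- the pointwise inequality -/
theorem y_point {P : ℝ} {u : Fin 5 → ℤ × ℤ} (h : GU P u) {v : ℤ × ℤ × ℤ}
    (hv : v.1 * v.2.2 = v.2.1 ^ 2 + 1) (h0 : 0 < v.1) (hok : OKV u v) (Yr : ℝ) (Y : ℕ)
    (hY : ∀ l : ℕ, (l : ℝ) ≤ Yr ↔ l ≤ Y) (hPY : P ≤ Yr) :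
    ∏ p ∈ yS u Y, (1 - xv (bp P p) u p v) ≤ ∏ j, cm (wy P Yr) ((pof u v).y j) := by
  by_cases hsq : ∃ p ∈ yS u Y, ∃ j, ((p : ℤ) ^ 2) ∣ qv v (u j)
  · obtain ⟨p, hp, hj⟩ := hsq
    have h1 : 1 - xv (bp P p) u p v = 0 := by
      unfold xv
      rw [if_pos hj]
      ring
    rw [Finset.prod_eq_zero hp h1]
    exact Finset.prod_nonneg fun j _ => cm_nonneg _ (fun l => (wy_01 P Yr l).1) _
  · push Not at hsq
    have hcm : ∀ j, cm (wy P Yr) ((pof u v).y j) =
        ∏ p ∈ yS u Y, if (p : ℤ) ∣ qv v (u j) then bp P p else 1 := by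
      intro j
      have hyj := pof_y h hok j
      have hne : u j ≠ (0, 0) := by
        intro h1
        have := h.prim 2 Nat.prime_two j
        rw [h1] at this
        simp at this
      have hpos := qv_pos v hv h0 (u j) hne
      have hy0 : (pof u v).y j ≠ 0 := by
        intro h1
        rw [h1, zero_mul] at hyj
        have := Int.natAbs_pos.2 hpos.ne'
        omega
      have hdq : (pof u v).y j ∣ (qv v (u j)).natAbs := ⟨_, hyj.symm⟩
      have hnA : ∀ p : ℕ, p.Prime → p ∣ (pof u v).y j → p ∉ pA u := by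
        intro p hp hpy hpA
        obtain ⟨i, hi⟩ := mem_pA.1 hpA
        obtain ⟨k1, k2, k3, k4⟩ := hok i p hi
        by_cases hji : j = i
        · subst hji
          apply k2
          have h5 : p * p ∣ (pof u v).y j * (ej u (j - 1) * ej u j) :=
            mul_dvd_mul hpy ((Nat.dvd_of_mem_primeFactors hi).mul_left _)
          rw [hyj] at h5
          rw [← Nat.cast_pow, Int.natCast_dvd, sq]
          exact h5
        · by_cases hji' : j = i + 1
          · subst hji'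
            apply k3
            have h5 : p * p ∣ (pof u v).y (i + 1) * (ej u (i + 1 - 1) * ej u (i + 1)) := by
              apply mul_dvd_mul hpy
              rw [add_sub_cancel_right]
              exact (Nat.dvd_of_mem_primeFactors hi).mul_right _
            rw [hyj] at h5
            rw [← Nat.cast_pow, Int.natCast_dvd, sq]
            exact h5
          · exact k4 j hji hji' (Int.natCast_dvd.2 (hpy.trans hdq))
      rw [cm_eq (wy P Yr) (yS u Y) (fun p hp => (mem_yS.1 hp).1) _ hy0]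
      · apply Finset.prod_congr rfl
        intro p hp
        obtain ⟨p1, p2, p3, p4⟩ := mem_yS.1 hp
        have hp2 : p ≠ 2 := by
          rintro rfl
          norm_num at p2
        have h5 : p ∣ (pof u v).y j ↔ (p : ℤ) ∣ qv v (u j) := by
          rw [Int.natCast_dvd, ← hyj]
          constructor
          · intro h6
            exact h6.mul_right _
          · intro h6
            have c1 : ∀ i, Nat.Coprime p (ej u i) := by
              intro i
              rw [p1.coprime_iff_not_dvd]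
              intro h7
              exact p4 (mem_pA.2 ⟨i, Nat.mem_primeFactors.2 ⟨p1, h7, (h.dp i).1.ne_zero⟩⟩)
            exact (Nat.Coprime.mul_right (c1 _) (c1 _)).dvd_of_dvd_mul_right h6
        have h6 : wy P Yr p = bp P p := by
          unfold wy bp
          rw [if_neg hp2]
          split_ifs with a1 a2
          · rfl
          · rfl
          · exact absurd ((hY p).2 p3) a2
        simp only [h5, h6]
      · intro p hp hpy
        by_cases hp2 : p = 2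
        · left
          unfold wy
          rw [if_pos hp2]
        · have hpq : (p : ℤ) ∣ qv v (u j) := Int.natCast_dvd.2 (hpy.trans hdq)
          have hp4 : p % 4 = 1 := by
            have hodd := hp.eq_two_or_odd.resolve_left hp2
            by_contra h6
            have h7 : p % 4 = 3 := by omega
            exact qv_three hp h7 v hv (u j) (h.prim p hp j) hpq
          by_cases hpY : p ≤ Y
          · right
            have hmem : p ∈ yS u Y := mem_yS.2 ⟨hp, hp4, hpY, hnA p hp hpy⟩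
            refine ⟨hmem, fun h6 => ?_⟩
            have h7 := hsq p hmem j
            apply h7
            rw [← Nat.cast_pow, Int.natCast_dvd]
            exact h6.trans hdq
          · left
            unfold wy
            rw [if_neg hp2]
            have hpP : ¬ (p : ℝ) ≤ P := fun h6 => hpY ((hY p).1 (h6.trans hPY))
            rw [if_neg hpP, if_neg (fun h6 => hpY ((hY p).1 h6))]
    rw [Finset.prod_congr rfl (fun j _ => hcm j), Finset.prod_comm]
    apply Finset.prod_le_prod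
    · intro p _
      have := (xv_01 (bp P p) (by linarith [(bp_bd P p).1]) (bp_bd P p).2 u p v).2
      linarith
    · intro p hp
      unfold xv
      rw [if_neg]
      · linarith
      · rintro ⟨j, hj⟩
        exact hsq p hp j hj

end Pool.Agent.PENT
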