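import Pool.Agent.Lib_helper8.PENT.B.ya
import Pool.Agent.Lib_helper8.PENT.B.yb
import Pool.Agent.Lib_helper8.PENT.B.yc
import Pool.Agent.Lib_helper8.PENT.B.yd
import Pool.Agent.Lib_helper8.PENT.B.ye
import Pool.Agent.Lib_helper8.PENT.B.yf
import Pool.Agent.Lib_helper8.PENT.B.yg
import Pool.Agent.Lib_helper8.PENT.B.yh

/-! PENT, part YS: all blocks (linked) -/
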