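import Pool.Agent.Lib_helper8.PENT.ZSum

/-!
# PENT: the lower bound for sums of `f` in progressions, the numbers (helper8)
-/

set_option autoImplicit false

namespace Pool.Agent.PENT

open Finset

theorem sum_inv_sq_le (T : Finset ℕ) (W : ℝ) (hW : 0 < W) (hT : ∀ n ∈ T, W < (n : ℝ)) :
    ∑ n ∈ T, 1 / (n : ℝ) ^ 2 ≤ 2 / W := by
  have hsub : T ⊆ Finset.Ioo ⌊W⌋₊ (T.sup id + 1) := by
    intro n hn
    rw [Finset.mem_Ioo]
    refine ⟨?_, ?_⟩
    · exact (Nat.floor_lt hW.le).2 (hT n hn)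
    · exact Nat.lt_succ_of_le (Finset.le_sup (f := id) hn)
  calc ∑ n ∈ T, 1 / (n : ℝ) ^ 2 ≤ ∑ n ∈ Finset.Ioo ⌊W⌋₊ (T.sup id + 1), 1 / (n : ℝ) ^ 2 :=
        Finset.sum_le_sum_of_subset_of_nonneg hsub fun n _ _ => by positivity
    _ = ∑ n ∈ Finset.Ioo ⌊W⌋₊ (T.sup id + 1), ((n : ℝ) ^ 2)⁻¹ := by simp only [one_div]
    _ ≤ 2 / (⌊W⌋₊ + 1) := sum_Ioo_inv_sq_le _ _
    _ ≤ 2 / W := by
        apply div_le_div_of_nonneg_left (by norm_num) hW
        exact (Nat.lt_floor_add_one W).le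

/-- the main term `X` -/
noncomputable def XX (A B : ℤ) (q : ℕ) (r : ℤ) : ℝ := ((B - A : ℤ) : ℝ) ^ 2 * av q (sqi q r)

theorem XX_nonneg (A B : ℤ) (q : ℕ) (r : ℤ) : 0 ≤ XX A B q r :=
  mul_nonneg (sq_nonneg _) (av_nonneg _ _ fun s t => (sqi_01 q r s t).1)

/-- the error from the squares of primes `> P` -/
theorem err_sq (C : ℝ) (hC0 : 0 ≤ C) (hC : ∀ (p : ℕ) (ℓ : ℤ), p.Prime → 1 ≤ ℓ → (p : ℤ) ≤ 2 * ℓ →
      ((((Finset.Icc 1 ℓ) ×ˢ (Finset.Icc 1 ℓ)).filter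
        (fun z : ℤ × ℤ => ((p : ℤ) ^ 2) ∣ z.1 ^ 2 + z.2 ^ 2)).card : ℝ) ≤
        C * (ℓ : ℝ) ^ 2 / (p : ℝ) ^ 2)
    (A B : ℤ) (hA : 0 ≤ A) (hAB : A ≤ B) (hB : 1 ≤ B) (q : ℕ) (hq : 0 < q) (r : ℤ)
    (hr : IsCoprime r (q : ℤ)) (P V : ℝ) (hP : 0 < P) (hV : 1 ≤ V) (Z : ℕ) (hZ : (Z : ℤ) ≤ 2 * B) :
    ∑ p ∈ sP P Z, ∑ z ∈ fam A B q r, sqi (p ^ 2) 0 z.1 z.2 ≤
      6 * XX A B q r / P +
        V * (2 * (q * V ^ 2) * ((B - A : ℤ) : ℝ) + (q * V ^ 2) ^ 2) + 2 * C * (B : ℝ) ^ 2 / V := by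
  classical
  have hX := XX_nonneg A B q r
  have hL : (0 : ℝ) ≤ ((B - A : ℤ) : ℝ) := by exact_mod_cast (by omega : 0 ≤ B - A)
  have hq' : (0 : ℝ) < q := by exact_mod_cast hq
  set E := 2 * (q * V ^ 2) * ((B - A : ℤ) : ℝ) + (q * V ^ 2) ^ 2 with hE
  have hE0 : 0 ≤ E := by positivity
  have hsmall : ∀ p ∈ (sP P Z).filter (fun p : ℕ => (p : ℝ) ≤ V),
      ∑ z ∈ fam A B q r, sqi (p ^ 2) 0 z.1 z.2 ≤ 3 * XX A B q r * (1 / (p : ℝ) ^ 2) + E := by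
    intro p hp
    obtain ⟨h1, h2⟩ := Finset.mem_filter.1 hp
    obtain ⟨h3, h4, h5⟩ := (mem_sP P Z p).1 h1
    by_cases hpq : p ∣ q
    · have h6 : ∑ z ∈ fam A B q r, sqi (p ^ 2) 0 z.1 z.2 = 0 := by
        apply Finset.sum_eq_zero
        intro z hz
        unfold fam at hz
        rw [Finset.mem_filter] at hz
        unfold sqi
        rw [if_neg]
        intro h7
        rw [sub_zero] at h7
        have h8 : (p : ℤ) ∣ z.1 ^ 2 + z.2 ^ 2 := by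
          refine dvd_trans ?_ h7
          push_cast
          exact dvd_pow_self _ (by norm_num)
        have h9 : (p : ℤ) ∣ (q : ℤ) := Int.natCast_dvd_natCast.2 hpq
        have h10 : (p : ℤ) ∣ r := by
          have := (dvd_sub h8 (h9.trans hz.2))
          have e : z.1 ^ 2 + z.2 ^ 2 - (z.1 ^ 2 + z.2 ^ 2 - r) = r := by ring
          rwa [e] at this
        have h11 := hr.isUnit_of_dvd' h10 h9
        rw [Int.isUnit_iff] at h11
        have := h3.one_lt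
        omega
      rw [h6]
      positivity
    · have hcop : Nat.Coprime q (p ^ 2) :=
        Nat.Coprime.pow_right 2 ((h3.coprime_iff_not_dvd.2 hpq).symm)
      have h6 := fam_cond A B hAB hq (Nat.pow_pos h3.pos) hcop r 0
      have h7 := av_sqi_sq h3
      have hp0 : (0 : ℝ) < p := by exact_mod_cast h3.pos
      have h8 : ((B - A : ℤ) : ℝ) ^ 2 * av q (sqi q r) * av (p ^ 2) (sqi (p ^ 2) 0) ≤
          3 * XX A B q r * (1 / (p : ℝ) ^ 2) := by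
        have h9 := mul_le_mul_of_nonneg_left h7 hX
        unfold XX at h9 ⊢
        calc _ ≤ _ := h9
          _ = _ := by ring
      have h10 : ((q * p ^ 2 : ℕ) : ℝ) ≤ q * V ^ 2 := by
        push_cast
        gcongr
      have h11 : 2 * ((q * p ^ 2 : ℕ) : ℝ) * ((B - A : ℤ) : ℝ) + ((q * p ^ 2 : ℕ) : ℝ) ^ 2 ≤ E := by
        rw [hE]
        gcongr
      linarith
  have hlarge : ∀ p ∈ (sP P Z).filter (fun p : ℕ => ¬ (p : ℝ) ≤ V),
      ∑ z ∈ fam A B q r, sqi (p ^ 2) 0 z.1 z.2 ≤ C * (B : ℝ) ^ 2 * (1 / (p : ℝ) ^ 2) := by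
    intro p hp
    obtain ⟨h1, h2⟩ := Finset.mem_filter.1 hp
    obtain ⟨h3, h4, h5⟩ := (mem_sP P Z p).1 h1
    have hp2 : (p : ℤ) ≤ 2 * B := le_trans (by exact_mod_cast h5) hZ
    have h6 := hC p B h3 hB hp2
    have h7 : ∑ z ∈ fam A B q r, sqi (p ^ 2) 0 z.1 z.2 ≤
        ((((Finset.Icc 1 B) ×ˢ (Finset.Icc 1 B)).filter
        (fun z : ℤ × ℤ => ((p : ℤ) ^ 2) ∣ z.1 ^ 2 + z.2 ^ 2)).card : ℝ) := by
      rw [Finset.card_eq_sum_ones, Finset.sum_filter]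
      push_cast
      have h8 : fam A B q r ⊆ (Finset.Icc 1 B) ×ˢ (Finset.Icc 1 B) := by
        intro z hz
        unfold fam at hz
        rw [Finset.mem_filter, Finset.mem_product, Finset.mem_Ioc, Finset.mem_Ioc] at hz
        rw [Finset.mem_product, Finset.mem_Icc, Finset.mem_Icc]
        omega
      calc ∑ z ∈ fam A B q r, sqi (p ^ 2) 0 z.1 z.2 ≤
            ∑ z ∈ (Finset.Icc 1 B) ×ˢ (Finset.Icc 1 B), sqi (p ^ 2) 0 z.1 z.2 :=
            Finset.sum_le_sum_of_subset_of_nonneg h8 fun z _ _ => (sqi_01 _ _ _ _).1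
        _ ≤ _ := by
            apply Finset.sum_le_sum
            intro z _
            unfold sqi
            rw [sub_zero]
            push_cast
            exact le_rfl
    calc _ ≤ _ := h7.trans h6
      _ = _ := by ring
  rw [← Finset.sum_filter_add_sum_filter_not (sP P Z) (fun p : ℕ => (p : ℝ) ≤ V)]
  have hPsum : ∑ p ∈ (sP P Z).filter (fun p : ℕ => (p : ℝ) ≤ V), 1 / (p : ℝ) ^ 2 ≤ 2 / P :=
    sum_inv_sq_le _ P hP fun p hp => ((mem_sP P Z p).1 (Finset.mem_filter.1 hp).1).2.1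
  have hVsum : ∑ p ∈ (sP P Z).filter (fun p : ℕ => ¬ (p : ℝ) ≤ V), 1 / (p : ℝ) ^ 2 ≤ 2 / V :=
    sum_inv_sq_le _ V (by linarith) fun p hp => not_le.1 (Finset.mem_filter.1 hp).2
  have hcard : (((sP P Z).filter (fun p : ℕ => (p : ℝ) ≤ V)).card : ℝ) ≤ V := by
    have h1 : (sP P Z).filter (fun p : ℕ => (p : ℝ) ≤ V) ⊆ Finset.Icc 1 ⌊V⌋₊ := by
      intro p hp
      obtain ⟨h1, h2⟩ := Finset.mem_filter.1 hp
      obtain ⟨h3, h4, h5⟩ := (mem_sP P Z p).1 h1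
      exact Finset.mem_Icc.2 ⟨h3.one_lt.le, Nat.le_floor h2⟩
    have h2 := Finset.card_le_card h1
    rw [Nat.card_Icc, Nat.add_sub_cancel] at h2
    calc _ ≤ ((⌊V⌋₊ : ℕ) : ℝ) := by exact_mod_cast h2
      _ ≤ V := Nat.floor_le (by linarith)
  have s1 := Finset.sum_le_sum hsmall
  have s2 := Finset.sum_le_sum hlarge
  rw [Finset.sum_add_distrib, ← Finset.mul_sum, Finset.sum_const, nsmul_eq_mul] at s1
  rw [← Finset.mul_sum] at s2
  have e1 : 3 * XX A B q r * ∑ p ∈ (sP P Z).filter (fun p : ℕ => (p : ℝ) ≤ V), 1 / (p : ℝ) ^ 2 ≤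
      6 * XX A B q r / P := by
    calc _ ≤ 3 * XX A B q r * (2 / P) := mul_le_mul_of_nonneg_left hPsum (by positivity)
      _ = _ := by ring
  have e2 := mul_le_mul_of_nonneg_right hcard hE0
  have e3 : C * (B : ℝ) ^ 2 * ∑ p ∈ (sP P Z).filter (fun p : ℕ => ¬ (p : ℝ) ≤ V),
      1 / (p : ℝ) ^ 2 ≤ 2 * C * (B : ℝ) ^ 2 / V := by
    calc _ ≤ C * (B : ℝ) ^ 2 * (2 / V) := mul_le_mul_of_nonneg_left hVsum (by positivity)
      _ = _ := by ring
  linarith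

/-- the error from the excluded residue classes -/
theorem err_F (A B : ℤ) (hAB : A ≤ B) (q : ℕ) (hq : 0 < q) (r : ℤ)
    (P V : ℝ) (hP : 0 < P) (hV : 1 ≤ V) (F : Finset (ℕ × ℤ))
    (hF : ∀ a ∈ F, a.1.Prime ∧ P < (a.1 : ℝ) ∧ ¬ a.1 ∣ q) :
    ∑ a ∈ F, ∑ z ∈ fam A B q r, sqi a.1 a.2 z.1 z.2 ≤
      (F.card : ℝ) * (2 * XX A B q r / P +
        (2 * (q * V ^ 2) * ((B - A : ℤ) : ℝ) + (q * V ^ 2) ^ 2) +
        2 * ((B - A : ℤ) : ℝ) * (((B - A : ℤ) : ℝ) / V + 1)) := by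
  have hX := XX_nonneg A B q r
  have hL : (0 : ℝ) ≤ ((B - A : ℤ) : ℝ) := by exact_mod_cast (by omega : 0 ≤ B - A)
  have hq' : (0 : ℝ) < q := by exact_mod_cast hq
  set E := 2 * (q * V ^ 2) * ((B - A : ℤ) : ℝ) + (q * V ^ 2) ^ 2 with hE
  have hE0 : 0 ≤ E := by positivity
  have hV0 : 0 < V := by linarith
  have hG0 : 0 ≤ 2 * ((B - A : ℤ) : ℝ) * (((B - A : ℤ) : ℝ) / V + 1) := by positivity
  rw [← nsmul_eq_mul]
  apply Finset.sum_le_card_nsmul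
  intro a ha
  obtain ⟨h1, h2, h3⟩ := hF a ha
  have hp0 : (0 : ℝ) < a.1 := by exact_mod_cast h1.pos
  by_cases hpV : (a.1 : ℝ) ≤ V
  · have hcop : Nat.Coprime q a.1 := (h1.coprime_iff_not_dvd.2 h3).symm
    have h6 := fam_cond A B hAB hq h1.pos hcop r a.2
    have h7 := av_sqi_le h1 a.2
    have h8 : ((B - A : ℤ) : ℝ) ^ 2 * av q (sqi q r) * av a.1 (sqi a.1 a.2) ≤
        2 * XX A B q r / P := by
      have h9 := mul_le_mul_of_nonneg_left h7 hX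
      have h10 : XX A B q r * (2 / (a.1 : ℝ)) ≤ 2 * XX A B q r / P := by
        rw [mul_div_assoc', mul_comm (XX A B q r) 2]
        apply div_le_div_of_nonneg_left (by positivity) hP h2.le
      unfold XX at h9 h10 ⊢
      linarith
    have h10 : ((q * a.1 : ℕ) : ℝ) ≤ q * V ^ 2 := by
      push_cast
      apply mul_le_mul_of_nonneg_left _ hq'.le
      nlinarith
    have h11 : 2 * ((q * a.1 : ℕ) : ℝ) * ((B - A : ℤ) : ℝ) + ((q * a.1 : ℕ) : ℝ) ^ 2 ≤ E := by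
      rw [hE]
      gcongr
    linarith
  · have h6 := card_res_le h1 a.2 A B A B hAB hAB
    have h7 : ∑ z ∈ fam A B q r, sqi a.1 a.2 z.1 z.2 ≤
        ∑ s ∈ Finset.Ioc A B, ∑ t ∈ Finset.Ioc A B, sqi a.1 a.2 s t := by
      rw [← Finset.sum_product']
      apply Finset.sum_le_sum_of_subset_of_nonneg
      · exact Finset.filter_subset _ _
      · intro z _ _
        exact (sqi_01 _ _ _ _).1
    have h8 : 2 * ((B - A : ℤ) : ℝ) * (((B - A : ℤ) : ℝ) / a.1 + 1) ≤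
        2 * ((B - A : ℤ) : ℝ) * (((B - A : ℤ) : ℝ) / V + 1) := by
      have h9 : V < (a.1 : ℝ) := not_le.1 hpV
      gcongr
    have h9 : 0 ≤ 2 * XX A B q r / P := by positivity
    linarith

/-- the local densities of the sieve -/
theorem dens (P α : ℝ) (hα : 0 < α) (hα1 : α ≤ 1) (Y q : ℕ) :
    ∀ p ∈ sS P Y q, 0 ≤ av p (xp P α p) ∧ av p (xp P α p) ≤ 1 - 1 / 3 ∧
      av p (xp P α p) ≤ 2 / (p : ℝ) ∧ (p = 2 → av p (xp P α p) ≤ 1 / 2) ∧
      (p % 4 = 3 → av p (xp P α p) ≤ 1 / (p : ℝ) ^ 2) ∧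
      (P < (p : ℝ) → av p (xp P α p) ≤ (1 - α) * (2 / (p : ℝ))) := by
  intro p hp
  obtain ⟨h1, h2, h3, h4⟩ := (mem_sS P Y q p).1 hp
  have hp0 : (0 : ℝ) < p := by exact_mod_cast h1.pos
  have e : av p (xp P α p) = wp P α p * av p (sqi p 0) := av_smul p _ _
  obtain ⟨w0, w1⟩ := wp_01 P α hα hα1 p
  have a0 : 0 ≤ av p (sqi p 0) := av_nonneg _ _ fun s t => (sqi_01 p 0 s t).1
  have hle : av p (xp P α p) ≤ av p (sqi p 0) := by
    rw [e]
    exact mul_le_of_le_one_left a0 w1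
  have h5 := av_sqi_le h1 0
  have htwo : p = 2 → av p (xp P α p) ≤ 1 / 2 := by
    intro h
    subst h
    exact hle.trans av_sqi_two
  refine ⟨by rw [e]; positivity, ?_, hle.trans h5, htwo, ?_, ?_⟩
  · by_cases h : p = 2
    · exact (htwo h).trans (by norm_num)
    · have h6 : (3 : ℝ) ≤ p := by
        have := h1.two_le
        exact_mod_cast (by omega : 3 ≤ p)
      refine (hle.trans h5).trans ?_
      rw [div_le_iff₀ hp0]
      linarith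
  · intro h
    exact hle.trans (av_sqi_three h1 h)
  · intro h
    rw [e]
    have : wp P α p = 1 - α := by
      unfold wp
      rw [if_neg (not_le.2 h)]
    rw [this]
    exact mul_le_mul_of_nonneg_left h5 (by linarith)

end Pool.Agent.PENT
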