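import Pool.Agent.Lib_helper8.PENT.BH
import Pool.Agent.Lib_helper8.PENT.ZS
import Pool.Agent.Lib_helper35.Var.Elem

/-!
# PENT: the lower bound for sums of `f` in progressions (helper8)
-/

set_option autoImplicit false

namespace Pool.Agent.PENT

open Finset

/-! ### 1. Elementary facts -/

theorem per_sqi (m : ℕ) (r : ℤ) : Per m (sqi m r) := by
  intro s t s' t' hs ht
  unfold sqi
  have h : (m : ℤ) ∣ (s ^ 2 + t ^ 2 - r) - (s' ^ 2 + t' ^ 2 - r) := by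
    have e : (s ^ 2 + t ^ 2 - r) - (s' ^ 2 + t' ^ 2 - r) =
        (s - s') * (s + s') + (t - t') * (t + t') := by ring
    rw [e]
    exact dvd_add (hs.mul_right _) (ht.mul_right _)
  have h2 : (m : ℤ) ∣ s ^ 2 + t ^ 2 - r ↔ (m : ℤ) ∣ s' ^ 2 + t' ^ 2 - r := (dvd_iff_dvd_of_dvd_sub h)
  simp only [h2]

theorem sqi_01 (m : ℕ) (r s t : ℤ) : 0 ≤ sqi m r s t ∧ sqi m r s t ≤ 1 := by
  unfold sqi
  split_ifs <;> norm_num

theorem av_smul (m : ℕ) (c : ℝ) (h : ℤ → ℤ → ℝ) : av m (fun s t => c * h s t) = c * av m h := by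
  unfold av
  simp_rw [← Finset.mul_sum]
  ring

theorem av_nonneg (m : ℕ) (h : ℤ → ℤ → ℝ) (h0 : ∀ s t, 0 ≤ h s t) : 0 ≤ av m h := by
  unfold av
  apply div_nonneg _ (by positivity)
  exact Finset.sum_nonneg fun _ _ => Finset.sum_nonneg fun _ _ => h0 _ _

theorem av_le_one {m : ℕ} (hm : 0 < m) (h : ℤ → ℤ → ℝ) (h1 : ∀ s t, h s t ≤ 1) : av m h ≤ 1 := by
  unfold av
  have hm' : (0 : ℝ) < m := by exact_mod_cast hm
  rw [div_le_one (by positivity)]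
  calc _ ≤ ∑ a ∈ Finset.range m, ∑ b ∈ Finset.range m, (1 : ℝ) :=
        Finset.sum_le_sum fun _ _ => Finset.sum_le_sum fun _ _ => h1 _ _
    _ = (m : ℝ) ^ 2 := by
        simp
        ring

/-- the average modulo 2 of `[2 ∣ s² + t²]` -/
theorem av_sqi_two : av 2 (sqi 2 0) ≤ 1 / 2 := by
  unfold av sqi
  simp only [Finset.sum_range_succ, Finset.sum_range_zero]
  norm_num

/-- counting in a square box -/
theorem box_sq {m : ℕ} (hm : 0 < m) {h : ℤ → ℤ → ℝ} (hh : Per m h)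
    (h01 : ∀ s t, 0 ≤ h s t ∧ h s t ≤ 1) (A B : ℤ) (hAB : A ≤ B) :
    |∑ z ∈ Finset.Ioc A B ×ˢ Finset.Ioc A B, h z.1 z.2 - ((B - A : ℤ) : ℝ) ^ 2 * av m h| ≤
      2 * m * ((B - A : ℤ) : ℝ) + (m : ℝ) ^ 2 := by
  have h1 := box_av hm hh h01 A B A B hAB hAB
  rw [Finset.sum_product]
  rw [← sq] at h1
  refine h1.trans (le_of_eq ?_)
  ring

/-! ### 2. The family -/

/-- the pairs in the box with `s² + t² = r` modulo `q` -/
noncomputable def fam (A B : ℤ) (q : ℕ) (r : ℤ) : Finset (ℤ × ℤ) :=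
  (Finset.Ioc A B ×ˢ Finset.Ioc A B).filter (fun z => (q : ℤ) ∣ z.1 ^ 2 + z.2 ^ 2 - r)

/-- the norm -/
def nrm (z : ℤ × ℤ) : ℕ := (z.1 ^ 2 + z.2 ^ 2).toNat

theorem nrm_cast (z : ℤ × ℤ) : (nrm z : ℤ) = z.1 ^ 2 + z.2 ^ 2 := by
  unfold nrm
  exact Int.toNat_of_nonneg (by positivity)

/-- the sieving weights -/
noncomputable def wp (P α : ℝ) (p : ℕ) : ℝ := if (p : ℝ) ≤ P then 1 else 1 - α

theorem wp_01 (P α : ℝ) (hα : 0 < α) (hα1 : α ≤ 1) (p : ℕ) : 0 ≤ wp P α p ∧ wp P α p ≤ 1 := by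
  unfold wp
  split_ifs
  · norm_num
  · exact ⟨by linarith, by linarith⟩

/-- the sieve variable -/
noncomputable def xp (P α : ℝ) (p : ℕ) (s t : ℤ) : ℝ := wp P α p * sqi p 0 s t

theorem xp_01 (P α : ℝ) (hα : 0 < α) (hα1 : α ≤ 1) (p : ℕ) (s t : ℤ) :
    0 ≤ xp P α p s t ∧ xp P α p s t ≤ 1 := by
  unfold xp
  obtain ⟨h1, h2⟩ := wp_01 P α hα hα1 p
  obtain ⟨h3, h4⟩ := sqi_01 p 0 s t
  exact ⟨mul_nonneg h1 h3, mul_le_one₀ h2 h3 h4⟩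

theorem per_xp (P α : ℝ) (p : ℕ) : Per p (xp P α p) := by
  intro s t s' t' hs ht
  unfold xp
  rw [per_sqi p 0 s t s' t' hs ht]

theorem sum_fam (A B : ℤ) (q : ℕ) (r : ℤ) (h : ℤ → ℤ → ℝ) :
    ∑ z ∈ fam A B q r, h z.1 z.2 =
      ∑ z ∈ Finset.Ioc A B ×ˢ Finset.Ioc A B, sqi q r z.1 z.2 * h z.1 z.2 := by
  unfold fam sqi
  rw [Finset.sum_filter]
  apply Finset.sum_congr rfl
  intro z _
  split_ifs <;> simp

/-- the hypothesis of the sieve -/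
theorem fam_sieve (P α : ℝ) (hα : 0 < α) (hα1 : α ≤ 1) (A B : ℤ) (hAB : A ≤ B) {q : ℕ} (hq : 0 < q)
    (r : ℤ) (T : Finset ℕ) (hT : ∀ p ∈ T, p.Prime ∧ ¬ p ∣ q) :
    |∑ z ∈ fam A B q r, ∏ p ∈ T, xp P α p z.1 z.2 -
        ((B - A : ℤ) : ℝ) ^ 2 * av q (sqi q r) * ∏ p ∈ T, av p (xp P α p)| ≤
      2 * ((q * ∏ p ∈ T, p : ℕ) : ℝ) * ((B - A : ℤ) : ℝ) + ((q * ∏ p ∈ T, p : ℕ) : ℝ) ^ 2 := by
  obtain ⟨h1, h2⟩ := av_prod hq (per_sqi q r) T (fun p => p) (fun p => xp P α p)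
    (fun p hp => (hT p hp).1.pos)
    (fun p hp => ((hT p hp).1.coprime_iff_not_dvd.2 (hT p hp).2).symm)
    (fun p hp p' hp' hne => (Nat.coprime_primes (hT p hp).1 (hT p' hp').1).2 hne)
    (fun p _ => per_xp P α p)
  have hpos : 0 < q * ∏ p ∈ T, p := Nat.mul_pos hq (Finset.prod_pos fun p hp => (hT p hp).1.pos)
  have h3 := box_sq hpos h1 (fun s t => by
    obtain ⟨e1, e2⟩ := sqi_01 q r s t
    have e3 : 0 ≤ ∏ p ∈ T, xp P α p s t := Finset.prod_nonneg fun p _ => (xp_01 P α hα hα1 p s t).1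
    have e4 : ∏ p ∈ T, xp P α p s t ≤ 1 :=
      Finset.prod_le_one (fun p _ => (xp_01 P α hα hα1 p s t).1) fun p _ => (xp_01 P α hα hα1 p s t).2
    exact ⟨mul_nonneg e1 e3, mul_le_one₀ e2 e3 e4⟩) A B hAB
  rw [h2] at h3
  rw [sum_fam A B q r (fun s t => ∏ p ∈ T, xp P α p s t)]
  rw [show ((B - A : ℤ) : ℝ) ^ 2 * av q (sqi q r) * ∏ p ∈ T, av p (xp P α p) =
    ((B - A : ℤ) : ℝ) ^ 2 * (av q (sqi q r) * ∏ p ∈ T, av p (xp P α p)) by ring]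
  exact h3

/-- one more condition modulo `M` prime to `q` -/
theorem fam_cond (A B : ℤ) (hAB : A ≤ B) {q M : ℕ} (hq : 0 < q) (hM : 0 < M)
    (hqM : Nat.Coprime q M) (r ρ : ℤ) :
    ∑ z ∈ fam A B q r, sqi M ρ z.1 z.2 ≤
      ((B - A : ℤ) : ℝ) ^ 2 * av q (sqi q r) * av M (sqi M ρ) +
      (2 * ((q * M : ℕ) : ℝ) * ((B - A : ℤ) : ℝ) + ((q * M : ℕ) : ℝ) ^ 2) := by
  have h2 := av_mul hq hM hqM (per_sqi q r) (per_sqi M ρ)
  have hper : Per (q * M) (fun s t => sqi q r s t * sqi M ρ s t) := by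
    intro s t s' t' hs ht
    have e1 : (q : ℤ) ∣ ((q * M : ℕ) : ℤ) := by
      push_cast
      exact dvd_mul_right _ _
    have e2 : (M : ℤ) ∣ ((q * M : ℕ) : ℤ) := by
      push_cast
      exact dvd_mul_left _ _
    simp only
    rw [per_sqi q r s t s' t' (e1.trans hs) (e1.trans ht),
      per_sqi M ρ s t s' t' (e2.trans hs) (e2.trans ht)]
  have h3 := box_sq (Nat.mul_pos hq hM) hper (fun s t => by
    obtain ⟨e1, e2⟩ := sqi_01 q r s t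
    obtain ⟨e3, e4⟩ := sqi_01 M ρ s t
    exact ⟨mul_nonneg e1 e3, mul_le_one₀ e2 e3 e4⟩) A B hAB
  rw [h2] at h3
  rw [sum_fam A B q r (fun s t => sqi M ρ s t)]
  have h4 := (abs_le.1 h3).2
  linarith

/-! ### 3. From pairs to integers -/

open Classical in
/-- the weight of one pair -/
noncomputable def gw (P α : ℝ) (N : ℕ) : ℝ := if DP P N then α ^ N.primeFactors.card else 0

theorem gw_nonneg (P α : ℝ) (hα : 0 < α) (N : ℕ) : 0 ≤ gw P α N := by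
  unfold gw
  split_ifs
  · positivity
  · exact le_rfl

theorem rep_sum (P α θ D : ℝ) (hα : 0 < α) (q : ℕ) (r : ℤ)
    (F : Finset (ℕ × ℤ)) (A B : ℤ) (hA : 0 ≤ A)
    (hbox : ∀ s ∈ Finset.Ioc A B, D / 2 < (s : ℝ) ^ 2 ∧ (s : ℝ) ^ 2 ≤ (1 + θ) * D / 2) :
    ∑ z ∈ (fam A B q r).filter
        (fun z : ℤ × ℤ => ∀ a ∈ F, ¬ (a.1 : ℤ) ∣ z.1 ^ 2 + z.2 ^ 2 - a.2), gw P α (nrm z) ≤
      ∑ d ∈ (Finset.Icc 1 ⌊(1 + θ) * D⌋₊).filter (fun d : ℕ => D < (d : ℝ) ∧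
        (q : ℤ) ∣ (d : ℤ) - r ∧ ∀ a ∈ F, ¬ (a.1 : ℤ) ∣ (d : ℤ) - a.2), fw P α d := by
  classical
  set O := (fam A B q r).filter
        (fun z : ℤ × ℤ => ∀ a ∈ F, ¬ (a.1 : ℤ) ∣ z.1 ^ 2 + z.2 ^ 2 - a.2) with hO
  set I := (Finset.Icc 1 ⌊(1 + θ) * D⌋₊).filter (fun d : ℕ => D < (d : ℝ) ∧
        (q : ℤ) ∣ (d : ℤ) - r ∧ ∀ a ∈ F, ¬ (a.1 : ℤ) ∣ (d : ℤ) - a.2) with hI
  have hmem : ∀ z ∈ O, z.1 ∈ Finset.Ioc A B ∧ z.2 ∈ Finset.Ioc A B ∧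
      (q : ℤ) ∣ z.1 ^ 2 + z.2 ^ 2 - r ∧ ∀ a ∈ F, ¬ (a.1 : ℤ) ∣ z.1 ^ 2 + z.2 ^ 2 - a.2 := by
    intro z hz
    rw [hO, Finset.mem_filter] at hz
    obtain ⟨h1, h2⟩ := hz
    unfold fam at h1
    rw [Finset.mem_filter, Finset.mem_product] at h1
    exact ⟨h1.1.1, h1.1.2, h1.2, h2⟩
  have hmaps : ∀ z ∈ O, nrm z ∈ I := by
    intro z hz
    obtain ⟨h1, h2, h3, h4⟩ := hmem z hz
    have e : ((nrm z : ℕ) : ℝ) = (z.1 : ℝ) ^ 2 + (z.2 : ℝ) ^ 2 := by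
      have := nrm_cast z
      have h5 : (((nrm z : ℕ) : ℤ) : ℝ) = ((z.1 ^ 2 + z.2 ^ 2 : ℤ) : ℝ) := by rw [this]
      push_cast at h5
      exact h5
    obtain ⟨b1, b2⟩ := hbox _ h1
    obtain ⟨b3, b4⟩ := hbox _ h2
    rw [hI, Finset.mem_filter, Finset.mem_Icc]
    refine ⟨⟨?_, ?_⟩, ?_, ?_, ?_⟩
    · have h6 : 0 < z.1 := lt_of_le_of_lt hA (Finset.mem_Ioc.1 h1).1
      have h7 : (0 : ℤ) < (nrm z : ℤ) := by
        rw [nrm_cast]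
        positivity
      exact_mod_cast h7
    · apply Nat.le_floor
      rw [e]
      linarith
    · rw [e]
      linarith
    · rw [nrm_cast]
      exact h3
    · rw [nrm_cast]
      exact h4
  rw [← Finset.sum_fiberwise_of_maps_to hmaps]
  apply Finset.sum_le_sum
  intro d hd
  have h1 : ∑ z ∈ O.filter (fun z => nrm z = d), gw P α (nrm z) =
      ((O.filter (fun z => nrm z = d)).card : ℝ) * gw P α d := by
    rw [← nsmul_eq_mul, ← Finset.sum_const]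
    apply Finset.sum_congr rfl
    intro z hz
    rw [(Finset.mem_filter.1 hz).2]
  rw [h1]
  unfold gw fw
  by_cases hDP : DP P d
  · rw [if_pos hDP, if_pos hDP, mul_pow]
    have h2 := card_rep_le d hDP.1 (fun p hp hpd => (hDP.2 p hp hpd).1)
      (O.filter (fun z => nrm z = d)) (fun z hz => by
        obtain ⟨h3, h4⟩ := Finset.mem_filter.1 hz
        obtain ⟨h5, h6, _, _⟩ := hmem z h3
        have h7 := (Finset.mem_Ioc.1 h5).1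
        have h8 := (Finset.mem_Ioc.1 h6).1
        refine ⟨by omega, by omega, ?_⟩
        rw [← nrm_cast, h4])
    have h3 : ((O.filter (fun z => nrm z = d)).card : ℝ) ≤ 2 ^ d.primeFactors.card := by
      exact_mod_cast h2
    exact mul_le_mul_of_nonneg_right h3 (by positivity)
  · rw [if_neg hDP, if_neg hDP, mul_zero]

open Classical in
/-- the primes of the sieve -/
noncomputable def sS (P : ℝ) (Y q : ℕ) : Finset ℕ :=
  (Finset.Icc 1 Y).filter (fun p => p.Prime ∧ ¬ p ∣ q ∧ (P < (p : ℝ) → p % 4 = 1))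

theorem mem_sS (P : ℝ) (Y q p : ℕ) :
    p ∈ sS P Y q ↔ p.Prime ∧ (p : ℝ) ≤ (Y : ℝ) ∧ ¬ p ∣ q ∧ (P < (p : ℝ) → p % 4 = 1) := by
  unfold sS
  rw [Finset.mem_filter, Finset.mem_Icc]
  constructor
  · rintro ⟨⟨_, h2⟩, h3, h4, h5⟩
    exact ⟨h3, by exact_mod_cast h2, h4, h5⟩
  · rintro ⟨h1, h2, h3, h4⟩
    exact ⟨⟨h1.one_lt.le, by exact_mod_cast h2⟩, h1, h3, h4⟩

open Classical in
/-- the primes whose squares are excluded -/
noncomputable def sP (P : ℝ) (Z : ℕ) : Finset ℕ :=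
  (Finset.Icc 1 Z).filter (fun p => p.Prime ∧ P < (p : ℝ))

theorem mem_sP (P : ℝ) (Z p : ℕ) : p ∈ sP P Z ↔ p.Prime ∧ P < (p : ℝ) ∧ p ≤ Z := by
  unfold sP
  rw [Finset.mem_filter, Finset.mem_Icc]
  constructor
  · rintro ⟨⟨_, h2⟩, h3, h4⟩
    exact ⟨h3, h4, h2⟩
  · rintro ⟨h1, h2, h3⟩
    exact ⟨⟨h1.one_lt.le, h3⟩, h1, h2⟩

open Classical in
/-- the pointwise inequality -/
theorem pair_ge (P α : ℝ) (m : ℕ) (hP : 2 ≤ P) (hα : 0 < α) (hα1 : α ≤ 1) (Y Z : ℕ)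
    (hPY : P ≤ Y) (q : ℕ) (r : ℤ) (hr : IsCoprime r (q : ℤ)) (F : Finset (ℕ × ℤ)) (z : ℤ × ℤ)
    (hz : (q : ℤ) ∣ z.1 ^ 2 + z.2 ^ 2 - r) (hz0 : 0 < nrm z) (hzY : (nrm z : ℝ) ≤ (Y : ℝ) ^ m)
    (hzZ : nrm z < (Z + 1) ^ 2) :
    α ^ m * ∏ p ∈ sS P Y q, (1 - xp P α p z.1 z.2) - ∑ p ∈ sP P Z, sqi (p ^ 2) 0 z.1 z.2 -
        ∑ a ∈ F, sqi a.1 a.2 z.1 z.2 ≤
      if ∀ a ∈ F, ¬ (a.1 : ℤ) ∣ z.1 ^ 2 + z.2 ^ 2 - a.2 then gw P α (nrm z) else 0 := by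
  have hprod : α ^ m * ∏ p ∈ sS P Y q, (1 - xp P α p z.1 z.2) ≤ 1 := by
    apply mul_le_one₀ (pow_le_one₀ hα.le hα1)
    · exact Finset.prod_nonneg fun p _ => by
        have := (xp_01 P α hα hα1 p z.1 z.2).2
        linarith
    · exact Finset.prod_le_one (fun p _ => by
        have := (xp_01 P α hα hα1 p z.1 z.2).2
        linarith) fun p _ => by
        have := (xp_01 P α hα hα1 p z.1 z.2).1
        linarith
  have hs1 : 0 ≤ ∑ p ∈ sP P Z, sqi (p ^ 2) 0 z.1 z.2 :=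
    Finset.sum_nonneg fun p _ => (sqi_01 _ _ _ _).1
  have hs2 : 0 ≤ ∑ a ∈ F, sqi a.1 a.2 z.1 z.2 :=
    Finset.sum_nonneg fun p _ => (sqi_01 _ _ _ _).1
  by_cases hF : ∀ a ∈ F, ¬ (a.1 : ℤ) ∣ z.1 ^ 2 + z.2 ^ 2 - a.2
  · rw [if_pos hF]
    by_cases hsq : ∀ p : ℕ, p.Prime → P < (p : ℝ) → ¬ p ^ 2 ∣ nrm z
    · have hNq : Nat.Coprime (nrm z) q := by
        rw [← Nat.isCoprime_iff_coprime, nrm_cast]
        obtain ⟨k, hk⟩ := hz
        have : z.1 ^ 2 + z.2 ^ 2 = r + (q : ℤ) * k := by linarith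
        rw [this]
        exact hr.add_mul_left_left k
      have h1 := weight_ge P Y α m hP hPY hα hα1 q (nrm z) z.1 z.2 (nrm_cast z) hz0 hzY hNq
        (sS P Y q) (mem_sS P Y q) hsq
      have h2 : ∏ p ∈ sS P Y q, (1 - xp P α p z.1 z.2) =
          ∏ p ∈ sS P Y q, (1 - (if (p : ℝ) ≤ P then 1 else 1 - α) *
            (if p ∣ nrm z then 1 else 0)) := by
        apply Finset.prod_congr rfl
        intro p _
        unfold xp wp sqi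
        have h3 : ((p : ℤ) ∣ z.1 ^ 2 + z.2 ^ 2 - 0) ↔ (p ∣ nrm z) := by
          rw [sub_zero, ← nrm_cast]
          exact Int.natCast_dvd_natCast
        simp only [h3]
      rw [← h2] at h1
      unfold gw
      linarith
    · push Not at hsq
      obtain ⟨p, hp, hPp, hdvd⟩ := hsq
      have hpZ : p ≤ Z := by
        have h1 := Nat.le_of_dvd hz0 hdvd
        have h2 : p ^ 2 < (Z + 1) ^ 2 := h1.trans_lt hzZ
        have := lt_of_pow_lt_pow_left₀ 2 (Nat.zero_le _) h2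
        omega
      have hpm : p ∈ sP P Z := (mem_sP P Z p).2 ⟨hp, hPp, hpZ⟩
      have h3 : (1 : ℝ) ≤ ∑ p ∈ sP P Z, sqi (p ^ 2) 0 z.1 z.2 := by
        have h4 : sqi (p ^ 2) 0 z.1 z.2 = 1 := by
          unfold sqi
          rw [if_pos]
          rw [sub_zero, ← nrm_cast]
          exact Int.natCast_dvd_natCast.2 hdvd
        rw [← h4]
        exact Finset.single_le_sum (f := fun p => sqi (p ^ 2) 0 z.1 z.2)
          (fun p _ => (sqi_01 _ _ _ _).1) hpm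
      have := gw_nonneg P α hα (nrm z)
      linarith
  · rw [if_neg hF]
    push Not at hF
    obtain ⟨a, ha, hdvd⟩ := hF
    have h3 : (1 : ℝ) ≤ ∑ a ∈ F, sqi a.1 a.2 z.1 z.2 := by
      have h4 : sqi a.1 a.2 z.1 z.2 = 1 := by
        unfold sqi
        rw [if_pos hdvd]
      rw [← h4]
      exact Finset.single_le_sum (f := fun a : ℕ × ℤ => sqi a.1 a.2 z.1 z.2)
        (fun p _ => (sqi_01 _ _ _ _).1) ha
    linarith

/-- the inequality summed over the family -/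
theorem fam_ge (P α θ D : ℝ) (m : ℕ) (hP : 2 ≤ P) (hα : 0 < α) (hα1 : α ≤ 1) (Y Z : ℕ)
    (hPY : P ≤ Y) (q : ℕ) (r : ℤ) (hr : IsCoprime r (q : ℤ)) (F : Finset (ℕ × ℤ)) (A B : ℤ)
    (hA : 0 ≤ A)
    (hbox : ∀ s ∈ Finset.Ioc A B, D / 2 < (s : ℝ) ^ 2 ∧ (s : ℝ) ^ 2 ≤ (1 + θ) * D / 2)
    (hDY : (1 + θ) * D ≤ (Y : ℝ) ^ m) (hDZ : (1 + θ) * D < ((Z : ℝ) + 1) ^ 2) :
    α ^ m * ∑ z ∈ fam A B q r, ∏ p ∈ sS P Y q, (1 - xp P α p z.1 z.2) -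
        ∑ p ∈ sP P Z, ∑ z ∈ fam A B q r, sqi (p ^ 2) 0 z.1 z.2 -
        ∑ a ∈ F, ∑ z ∈ fam A B q r, sqi a.1 a.2 z.1 z.2 ≤
      ∑ d ∈ (Finset.Icc 1 ⌊(1 + θ) * D⌋₊).filter (fun d : ℕ => D < (d : ℝ) ∧
        (q : ℤ) ∣ (d : ℤ) - r ∧ ∀ a ∈ F, ¬ (a.1 : ℤ) ∣ (d : ℤ) - a.2), fw P α d := by
  classical
  refine le_trans ?_ (rep_sum P α θ D hα q r F A B hA hbox)
  rw [Finset.sum_comm, Finset.sum_comm (s := F), Finset.mul_sum, ← Finset.sum_sub_distrib,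
    ← Finset.sum_sub_distrib, Finset.sum_filter]
  apply Finset.sum_le_sum
  intro z hz
  unfold fam at hz
  rw [Finset.mem_filter, Finset.mem_product] at hz
  obtain ⟨⟨h1, h2⟩, h3⟩ := hz
  obtain ⟨b1, b2⟩ := hbox _ h1
  obtain ⟨b3, b4⟩ := hbox _ h2
  have e : ((nrm z : ℕ) : ℝ) = (z.1 : ℝ) ^ 2 + (z.2 : ℝ) ^ 2 := by
    have := nrm_cast z
    have h5 : (((nrm z : ℕ) : ℤ) : ℝ) = ((z.1 ^ 2 + z.2 ^ 2 : ℤ) : ℝ) := by rw [this]
    push_cast at h5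
    exact h5
  have hz0 : 0 < nrm z := by
    have h6 : 0 < z.1 := lt_of_le_of_lt hA (Finset.mem_Ioc.1 h1).1
    have h7 : (0 : ℤ) < (nrm z : ℤ) := by
      rw [nrm_cast]
      positivity
    exact_mod_cast h7
  have hzD : (nrm z : ℝ) ≤ (1 + θ) * D := by
    rw [e]
    linarith
  refine pair_ge P α m hP hα hα1 Y Z hPY q r hr F z h3 hz0 (hzD.trans hDY) ?_
  have : ((nrm z : ℕ) : ℝ) < ((Z : ℝ) + 1) ^ 2 := lt_of_le_of_lt hzD hDZ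
  exact_mod_cast this

end Pool.Agent.PENT
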